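import Pool.Agent.MP_ffd2af_nt.Zero

set_option autoImplicit false

namespace Pool.Agent.MP_ffd2af_nt

open Finset Matrix Polynomial

open scoped Kronecker

theorem det_poly_rows (K L : ℕ) (p : Fin K → ℝ[X]) (hdeg : ∀ k, (p k).natDegree ≤ k)
    (X : Fin K × Fin L → ℝ) (W : Fin L → Fin K × Fin L → ℝ) :
    Matrix.det (fun i j : Fin K × Fin L => (p i.1).eval (X j) * W i.2 j) =
      (∏ k : Fin K, (p k).coeff k) ^ L *
        Matrix.det (fun i j : Fin K × Fin L => X j ^ (i.1 : ℕ) * W i.2 j) := by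
  let T : Matrix (Fin K) (Fin K) ℝ := fun k k' => (p k).coeff k'
  have hT : T.det = ∏ k : Fin K, (p k).coeff k := by
    rw [Matrix.det_of_isLowerTriangular]
    intro i j hij
    apply Polynomial.coeff_eq_zero_of_natDegree_lt
    exact lt_of_le_of_lt (hdeg i) hij
  let R : Matrix (Fin K × Fin L) (Fin K × Fin L) ℝ := fun i j => X j ^ (i.1 : ℕ) * W i.2 j
  have hmul : (fun i j : Fin K × Fin L => (p i.1).eval (X j) * W i.2 j) =
      (T ⊗ₖ (1 : Matrix (Fin L) (Fin L) ℝ)) * R := by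
    funext i j
    rw [Matrix.mul_apply, Fintype.sum_prod_type]
    simp only [Matrix.kroneckerMap_apply, Matrix.one_apply]
    have h1 : (p i.1).eval (X j) = ∑ k : Fin K, (p i.1).coeff k * X j ^ (k : ℕ) := by
      rw [Polynomial.eval_eq_sum_range' (lt_of_le_of_lt (hdeg i.1) i.1.2)]
      rw [Finset.sum_range]
    rw [h1, sum_mul]
    apply sum_congr rfl
    intro k _
    rw [Finset.sum_eq_single i.2]
    · simp only [T, R, if_true, mul_one]
      ring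
    · intro l _ hl
      simp [Ne.symm hl]
    · intro h; exact absurd (mem_univ _) h
  rw [hmul, Matrix.det_mul, Matrix.det_kronecker, hT, Matrix.det_one, one_pow, mul_one,
    Fintype.card_fin]

/-- binomial version -/
theorem det_choose (K L : ℕ) (x : Fin K × Fin L → ℕ) (W : Fin L → Fin K × Fin L → ℝ) :
    Matrix.det (fun i j : Fin K × Fin L => ((x j).choose i.1 : ℝ) * W i.2 j) =
      (∏ k : Fin K, ((k : ℕ).factorial : ℝ)⁻¹) ^ L *
        Matrix.det (fun i j : Fin K × Fin L => (x j : ℝ) ^ (i.1 : ℕ) * W i.2 j) := by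
  have h := det_poly_rows K L (fun k => C (((k : ℕ).factorial : ℝ)⁻¹) * descPochhammer ℝ k)
    (by
      intro k
      refine (Polynomial.natDegree_C_mul_le _ _).trans ?_
      rw [descPochhammer_natDegree]) (fun j => (x j : ℝ)) W
  have h1 : ∀ (k : Fin K) (n : ℕ),
      (C (((k : ℕ).factorial : ℝ)⁻¹) * descPochhammer ℝ k).eval (n : ℝ) = (n.choose k : ℝ) := by
    intro k n
    rw [Polynomial.eval_mul, Polynomial.eval_C, descPochhammer_eval_eq_descFactorial,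
      Nat.descFactorial_eq_factorial_mul_choose]
    push_cast
    have : ((k : ℕ).factorial : ℝ) ≠ 0 := by positivity
    field_simp
  have h2 : ∀ k : Fin K, (C (((k : ℕ).factorial : ℝ)⁻¹) * descPochhammer ℝ k).coeff k =
      ((k : ℕ).factorial : ℝ)⁻¹ := by
    intro k
    rw [Polynomial.coeff_C_mul]
    have h3 := (monic_descPochhammer ℝ (k : ℕ)).coeff_natDegree
    rw [descPochhammer_natDegree] at h3
    rw [h3, mul_one]
  simp only [h1, h2] at h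
  exact h

/-- rescaled version -/
theorem det_rescale (K L : ℕ) (q r : ℝ) (hq : 0 < q) (x : Fin K × Fin L → ℝ)
    (W : Fin L → Fin K × Fin L → ℝ) :
    Matrix.det (fun i j : Fin K × Fin L => (x j / q - r) ^ (i.1 : ℕ) * W i.2 j) =
      (∏ k : Fin K, (q⁻¹) ^ (k : ℕ)) ^ L *
        Matrix.det (fun i j : Fin K × Fin L => (x j) ^ (i.1 : ℕ) * W i.2 j) := by
  have hl1 : (C q⁻¹ * X + C (-r) : ℝ[X]).natDegree = 1 := by
    rw [Polynomial.natDegree_linear]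
    exact inv_ne_zero hq.ne'
  have h := det_poly_rows K L (fun k => (C q⁻¹ * X + C (-r)) ^ (k : ℕ))
    (by
      intro k
      rw [Polynomial.natDegree_pow, hl1, mul_one]) x W
  have h1 : ∀ (k : Fin K) (y : ℝ),
      ((C q⁻¹ * X + C (-r)) ^ (k : ℕ) : ℝ[X]).eval y = (y / q - r) ^ (k : ℕ) := by
    intro k y
    simp only [Polynomial.eval_pow, Polynomial.eval_add, Polynomial.eval_mul, Polynomial.eval_C,
      Polynomial.eval_X]
    congr 1
    rw [div_eq_inv_mul]; ring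
  have h2 : ∀ k : Fin K, ((C q⁻¹ * X + C (-r)) ^ (k : ℕ) : ℝ[X]).coeff k = (q⁻¹) ^ (k : ℕ) := by
    intro k
    have h3 : ((C q⁻¹ * X + C (-r)) ^ (k : ℕ) : ℝ[X]).natDegree = k := by
      rw [Polynomial.natDegree_pow, hl1, mul_one]
    have h4 : ((C q⁻¹ * X + C (-r)) ^ (k : ℕ) : ℝ[X]).leadingCoeff = (q⁻¹) ^ (k : ℕ) := by
      rw [Polynomial.leadingCoeff_pow, Polynomial.leadingCoeff_linear]
      exact inv_ne_zero hq.ne'
    rw [Polynomial.leadingCoeff, h3] at h4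
    exact h4
  simp only [h1, h2] at h
  exact h

theorem sum_sq_shift (n : ℕ) (c : ℝ) :
    ∑ i ∈ range n, ((i : ℝ) - c) ^ 2 =
      (n : ℝ) * (n - 1) * (2 * n - 1) / 6 - c * n * (n - 1) + n * c ^ 2 := by
  induction n with
  | zero => simp
  | succ n ih =>
    rw [sum_range_succ, ih]
    push_cast
    ring

theorem sum_sq_centered (n : ℕ) :
    ∑ i : Fin n, (((i : ℕ) : ℝ) - ((n : ℝ) - 1) / 2) ^ 2 = (n : ℝ) * (n ^ 2 - 1) / 12 := by
  rw [← Finset.sum_range (fun i => ((i : ℝ) - ((n : ℝ) - 1) / 2) ^ 2), sum_sq_shift]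
  ring

theorem sum_centered (n : ℕ) :
    ∑ i : Fin n, (((i : ℕ) : ℝ) - ((n : ℝ) - 1) / 2) = 0 := by
  rw [← Finset.sum_range (fun i => ((i : ℝ) - ((n : ℝ) - 1) / 2))]
  have : ∀ c : ℝ, ∑ i ∈ range n, ((i : ℝ) - c) = (n : ℝ) * (n - 1) / 2 - n * c := by
    intro c
    induction n with
    | zero => simp
    | succ n ih => rw [sum_range_succ, ih]; push_cast; ring
  rw [this]; ring

theorem sum_abs_centered_le : ∀ n : ℕ,
    ∑ i ∈ range n, |(i : ℝ) - ((n : ℝ) - 1) / 2| ≤ (n : ℝ) ^ 2 / 4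
  | 0 => by simp
  | 1 => by simp
  | n + 2 => by
    have ih := sum_abs_centered_le n
    rw [sum_range_succ, sum_range_succ']
    have e1 : ∑ i ∈ range n, |((i + 1 : ℕ) : ℝ) - (((n + 2 : ℕ) : ℝ) - 1) / 2| =
        ∑ i ∈ range n, |(i : ℝ) - ((n : ℝ) - 1) / 2| := by
      apply sum_congr rfl
      intro i _
      congr 1
      push_cast; ring
    rw [e1]
    have e2 : |((0 : ℕ) : ℝ) - (((n + 2 : ℕ) : ℝ) - 1) / 2| = ((n : ℝ) + 1) / 2 := by
      rw [abs_sub_comm, abs_of_nonneg]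
      · push_cast; ring
      · push_cast
        have : (0:ℝ) ≤ n := Nat.cast_nonneg n
        linarith
    have e3 : |((n + 1 : ℕ) : ℝ) - (((n + 2 : ℕ) : ℝ) - 1) / 2| = ((n : ℝ) + 1) / 2 := by
      rw [abs_of_nonneg]
      · push_cast; ring
      · push_cast
        have : (0:ℝ) ≤ n := Nat.cast_nonneg n
        linarith
    rw [e2, e3]
    push_cast
    nlinarith

/-- Cauchy-Schwarz for the exponents. -/
theorem exponents_cs (K L U V : ℕ)
    (s : Fin K × Fin L → Fin U × Fin V) (hs : Function.Injective s)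
    (w : Fin U × Fin V → ℝ) (B2 : ℝ) (hw : ∑ x, w x ^ 2 = B2) (σ : Equiv.Perm (Fin K × Fin L)) :
    |∑ j, ((((σ j).2 : ℕ) : ℝ) - ((L : ℝ) - 1) / 2) * w (s j)| ≤
      Real.sqrt ((K : ℝ) * ((L : ℝ) * (L ^ 2 - 1) / 12) * B2) := by
  have h1 : (∑ j, ((((σ j).2 : ℕ) : ℝ) - ((L : ℝ) - 1) / 2) * w (s j)) ^ 2 ≤
      (∑ j, ((((σ j).2 : ℕ) : ℝ) - ((L : ℝ) - 1) / 2) ^ 2) * ∑ j, w (s j) ^ 2 :=
    Finset.sum_mul_sq_le_sq_mul_sq _ _ _
  have h2 : ∑ j, ((((σ j).2 : ℕ) : ℝ) - ((L : ℝ) - 1) / 2) ^ 2 =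
      (K : ℝ) * ((L : ℝ) * (L ^ 2 - 1) / 12) := by
    rw [Equiv.sum_comp σ (fun i : Fin K × Fin L => (((i.2 : ℕ) : ℝ) - ((L : ℝ) - 1) / 2) ^ 2)]
    rw [Fintype.sum_prod_type]
    simp only [sum_sq_centered, sum_const, card_univ, Fintype.card_fin, nsmul_eq_mul]
  have h3 : ∑ j, w (s j) ^ 2 ≤ B2 := by
    rw [← hw, ← Finset.sum_image (s := univ) (g := s) (f := fun x => w x ^ 2)
      (fun a _ b _ hab => hs hab)]
    exact sum_le_sum_of_subset_of_nonneg (subset_univ _) (fun _ _ _ => sq_nonneg _)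
  apply Real.abs_le_sqrt
  refine h1.trans ?_
  rw [h2]
  apply mul_le_mul_of_nonneg_left h3
  rw [← h2]
  exact sum_nonneg (fun _ _ => sq_nonneg _)

/-- divisibility of the integer determinant -/
theorem det_int_dvd {ι : Type*} [Fintype ι] [DecidableEq ι] (A : ι → ι → ℤ) (l u v : ι → ℕ)
    (b : ℕ) (E1 E2 : ℕ) (h1 : ∀ σ : Equiv.Perm ι, E1 ≤ ∑ j, l (σ j) * u j)
    (h2 : ∀ σ : Equiv.Perm ι, E2 ≤ ∑ j, l (σ j) * v j) :
    ((b : ℤ) ^ E1 * 2 ^ E2) ∣
      Matrix.det (fun i j => A i j * ((b : ℤ) ^ u j * 2 ^ v j) ^ l i) := by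
  rw [Matrix.det_apply]
  apply Finset.dvd_sum
  intro σ _
  rw [Units.smul_def, smul_eq_mul]
  apply Dvd.dvd.mul_left
  rw [prod_mul_distrib]
  apply Dvd.dvd.mul_left
  have h3 : ∏ j, ((b : ℤ) ^ u j * 2 ^ v j) ^ l (σ j) =
      (b : ℤ) ^ (∑ j, l (σ j) * u j) * 2 ^ (∑ j, l (σ j) * v j) := by
    rw [← prod_pow_eq_pow_sum, ← prod_pow_eq_pow_sum, ← prod_mul_distrib]
    apply prod_congr rfl
    intro j _
    rw [mul_pow, ← pow_mul, ← pow_mul, mul_comm (u j), mul_comm (v j)]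
  rw [h3]
  exact mul_dvd_mul (pow_dvd_pow _ (h1 σ)) (pow_dvd_pow _ (h2 σ))

/-- The arithmetic lower bound for the interpolation determinant. -/
theorem arith_lower (K L U V2 q m b : ℕ) (hb : 1 ≤ b) (hq : 0 < q)
    (hcop : Nat.Coprime m q) (hU : U ≤ q) (hcount : (K - 1) * L < U * V2)
    (V : ℕ) (hV : V = V2 + L - 1) (a μ ν lam β : ℝ) (ha : a = (m : ℝ) / q)
    (hμ : μ = ((U : ℝ) - 1) / 2) (hν : ν = ((V : ℝ) - 1) / 2) (hlam : lam = ((L : ℝ) - 1) / 2)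
    (hβ : β = Real.log b) :
    ∃ s : Fin K × Fin L → Fin U × Fin V,
      (∏ k : Fin K, ((k : ℕ).factorial : ℝ) * ((q : ℝ)⁻¹) ^ (k : ℕ)) ^ L *
        Real.exp (-(β * Real.sqrt ((K : ℝ) * ((L : ℝ) * (L ^ 2 - 1) / 12) *
            (V * ((U : ℝ) * (U ^ 2 - 1) / 12))) +
          Real.log 2 * Real.sqrt ((K : ℝ) * ((L : ℝ) * (L ^ 2 - 1) / 12) *
            (U * ((V : ℝ) * (V ^ 2 - 1) / 12))))) ≤
      |Matrix.det (fun i j : Fin K × Fin L =>
        (a * (((s j).1 : ℕ) - μ) + (((s j).2 : ℕ) - ν)) ^ (i.1 : ℕ) *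
        Real.exp ((((i.2 : ℕ) : ℝ) - lam) *
          ((((s j).1 : ℕ) - μ) * β + (((s j).2 : ℕ) - ν) * Real.log 2)))| := by
  classical
  have hex : ∃ s : Fin K × Fin L → Fin U × Fin V,
      Matrix.det (fun i j : Fin K × Fin L =>
        ((m * ((s j).1 : ℕ) + q * ((s j).2 : ℕ) : ℕ) : ℝ) ^ (i.1 : ℕ) *
        ((b ^ ((s j).1 : ℕ) * 2 ^ ((s j).2 : ℕ) : ℕ) : ℝ) ^ (i.2 : ℕ)) ≠ 0 := by
    rw [hV]
    exact exists_points K L U V2 q m b hb hq hcop hU hcount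
  obtain ⟨s, hs⟩ := hex
  refine ⟨s, ?_⟩
  -- injectivity
  have hinj : Function.Injective s := by
    intro j j' hjj
    by_contra hne
    apply hs
    apply Matrix.det_zero_of_column_eq hne
    intro i
    rw [hjj]
  set x : Fin K × Fin L → ℕ := fun j => m * ((s j).1 : ℕ) + q * ((s j).2 : ℕ) with hx
  set y : Fin K × Fin L → ℕ := fun j => b ^ ((s j).1 : ℕ) * 2 ^ ((s j).2 : ℕ) with hy
  have hqR : (0:ℝ) < q := by exact_mod_cast hq
  have hbR : (1:ℝ) ≤ b := by exact_mod_cast hb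
  have hβ0 : 0 ≤ β := by rw [hβ]; exact Real.log_nonneg hbR
  have hlog2 : 0 < Real.log 2 := Real.log_pos (by norm_num)
  -- integer determinant
  set D : ℤ := Matrix.det (fun i j : Fin K × Fin L => ((x j).choose i.1 : ℤ) *
    ((b : ℤ) ^ ((s j).1 : ℕ) * 2 ^ ((s j).2 : ℕ)) ^ (i.2 : ℕ)) with hD
  have hDreal : (D : ℝ) = Matrix.det (fun i j : Fin K × Fin L => ((x j).choose i.1 : ℝ) *
      ((y j : ℕ) : ℝ) ^ (i.2 : ℕ)) := by
    rw [hD]
    have := (Int.castRingHom ℝ).map_det (fun i j : Fin K × Fin L => ((x j).choose i.1 : ℤ) *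
      ((b : ℤ) ^ ((s j).1 : ℕ) * 2 ^ ((s j).2 : ℕ)) ^ (i.2 : ℕ))
    rw [eq_intCast] at this
    rw [this]
    congr 1
    funext i j
    simp [RingHom.mapMatrix_apply, Matrix.map_apply, hy]
  have hD1 : (D : ℝ) = (∏ k : Fin K, ((k : ℕ).factorial : ℝ)⁻¹) ^ L *
      Matrix.det (fun i j : Fin K × Fin L => (x j : ℝ) ^ (i.1 : ℕ) * ((y j : ℕ) : ℝ) ^ (i.2 : ℕ)) := by
    rw [hDreal]
    exact det_choose K L x (fun l j => ((y j : ℕ) : ℝ) ^ (l : ℕ))
  have hDne : (D : ℝ) ≠ 0 := by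
    rw [hD1]
    apply mul_ne_zero
    · apply pow_ne_zero
      rw [prod_ne_zero_iff]
      intro k _
      positivity
    · exact hs
  have hDne' : D ≠ 0 := by exact_mod_cast hDne
  -- minimal exponents
  obtain ⟨σ1, _, hσ1⟩ := Finset.exists_min_image (univ : Finset (Equiv.Perm (Fin K × Fin L)))
    (fun σ => ∑ j, ((σ j).2 : ℕ) * ((s j).1 : ℕ)) univ_nonempty
  obtain ⟨σ2, _, hσ2⟩ := Finset.exists_min_image (univ : Finset (Equiv.Perm (Fin K × Fin L)))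
    (fun σ => ∑ j, ((σ j).2 : ℕ) * ((s j).2 : ℕ)) univ_nonempty
  set E1 := ∑ j, ((σ1 j).2 : ℕ) * ((s j).1 : ℕ) with hE1
  set E2 := ∑ j, ((σ2 j).2 : ℕ) * ((s j).2 : ℕ) with hE2
  have hdvd : ((b : ℤ) ^ E1 * 2 ^ E2) ∣ D :=
    det_int_dvd (fun i j : Fin K × Fin L => ((x j).choose i.1 : ℤ)) (fun i => (i.2 : ℕ))
      (fun j => ((s j).1 : ℕ)) (fun j => ((s j).2 : ℕ)) b E1 E2
      (fun σ => hσ1 σ (mem_univ _)) (fun σ => hσ2 σ (mem_univ _))
  have hDge : Real.exp (β * E1 + Real.log 2 * E2) ≤ |(D : ℝ)| := by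
    have h1 : ((b : ℤ) ^ E1 * 2 ^ E2) ≤ |D| :=
      Int.le_of_dvd (abs_pos.2 hDne') ((dvd_abs _ _).2 hdvd)
    have h2 : ((b : ℝ) ^ E1 * 2 ^ E2) ≤ |(D : ℝ)| := by
      have h3 : ((((b : ℤ) ^ E1 * 2 ^ E2 : ℤ)) : ℝ) ≤ ((|D| : ℤ) : ℝ) := by exact_mod_cast h1
      push_cast at h3
      exact h3
    have h3 : Real.exp (β * E1 + Real.log 2 * E2) = (b : ℝ) ^ E1 * 2 ^ E2 := by
      rw [Real.exp_add, hβ, mul_comm (Real.log (b:ℝ)), mul_comm (Real.log 2), Real.exp_nat_mul,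
        Real.exp_nat_mul, Real.exp_log (by linarith), Real.exp_log (by norm_num)]
    rw [h3]
    exact h2
  -- relation with the centred determinant
  set C : Matrix (Fin K × Fin L) (Fin K × Fin L) ℝ := (fun i j : Fin K × Fin L =>
        (a * (((s j).1 : ℕ) - μ) + (((s j).2 : ℕ) - ν)) ^ (i.1 : ℕ) *
        Real.exp ((((i.2 : ℕ) : ℝ) - lam) *
          ((((s j).1 : ℕ) - μ) * β + (((s j).2 : ℕ) - ν) * Real.log 2))) with hC
  set r : ℝ := a * μ + ν with hr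
  have hyexp : ∀ j, ((y j : ℕ) : ℝ) = Real.exp (((s j).1 : ℕ) * β + ((s j).2 : ℕ) * Real.log 2) := by
    intro j
    rw [Real.exp_add, Real.exp_nat_mul, Real.exp_nat_mul, hβ, Real.exp_log (by linarith),
      Real.exp_log (by norm_num), hy]
    push_cast
    ring
  have hC1 : Matrix.det (fun i j : Fin K × Fin L => ((x j : ℝ) / q - r) ^ (i.1 : ℕ) *
      ((y j : ℕ) : ℝ) ^ (i.2 : ℕ)) =
      (∏ j, Real.exp (lam * (((s j).1 : ℕ) * β + ((s j).2 : ℕ) * Real.log 2))) *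
      ((∏ i : Fin K × Fin L, Real.exp ((((i.2 : ℕ) : ℝ) - lam) * (μ * β + ν * Real.log 2))) *
        C.det) := by
    rw [← Matrix.det_mul_column, ← Matrix.det_mul_row]
    congr 1
    funext i j
    simp only [Matrix.of_apply, hC]
    have e1 : (x j : ℝ) / q - r = a * (((s j).1 : ℕ) - μ) + (((s j).2 : ℕ) - ν) := by
      rw [hx, hr, ha]
      push_cast
      field_simp
      ring
    rw [e1, hyexp, ← Real.exp_nat_mul]
    have e2 : Real.exp (((i.2 : ℕ) : ℝ) * (((s j).1 : ℕ) * β + ((s j).2 : ℕ) * Real.log 2)) =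
        Real.exp (lam * (((s j).1 : ℕ) * β + ((s j).2 : ℕ) * Real.log 2)) *
        (Real.exp ((((i.2 : ℕ) : ℝ) - lam) * (μ * β + ν * Real.log 2)) *
        Real.exp ((((i.2 : ℕ) : ℝ) - lam) *
          ((((s j).1 : ℕ) - μ) * β + (((s j).2 : ℕ) - ν) * Real.log 2))) := by
      rw [← Real.exp_add, ← Real.exp_add]
      congr 1
      ring
    rw [e2]
    ring
  have hprod1 : ∏ i : Fin K × Fin L, Real.exp ((((i.2 : ℕ) : ℝ) - lam) *
      (μ * β + ν * Real.log 2)) = 1 := by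
    rw [← Real.exp_sum, ← sum_mul, Fintype.sum_prod_type]
    simp only [hlam, sum_centered, sum_const_zero, zero_mul, Real.exp_zero]
  rw [hprod1, one_mul, ← Real.exp_sum] at hC1
  have hC2 := det_rescale K L q r hqR (fun j => (x j : ℝ)) (fun l j => ((y j : ℕ) : ℝ) ^ (l : ℕ))
  rw [hC1] at hC2
  -- combine
  have hcomb : (D : ℝ) * (∏ k : Fin K, ((k : ℕ).factorial : ℝ) * ((q : ℝ)⁻¹) ^ (k : ℕ)) ^ L =
      Real.exp (∑ j, lam * (((s j).1 : ℕ) * β + ((s j).2 : ℕ) * Real.log 2)) * C.det := by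
    rw [hC2, hD1, prod_mul_distrib, mul_pow]
    have e1 : (∏ k : Fin K, ((k : ℕ).factorial : ℝ)⁻¹) ^ L *
        (∏ k : Fin K, ((k : ℕ).factorial : ℝ)) ^ L = 1 := by
      rw [← mul_pow, ← prod_mul_distrib, prod_eq_one, one_pow]
      intro k _
      exact inv_mul_cancel₀ (by positivity)
    calc _ = ((∏ k : Fin K, ((k : ℕ).factorial : ℝ)⁻¹) ^ L *
        (∏ k : Fin K, ((k : ℕ).factorial : ℝ)) ^ L) * ((∏ k : Fin K, (q : ℝ)⁻¹ ^ (k : ℕ)) ^ L *
        Matrix.det (fun i j : Fin K × Fin L => (x j : ℝ) ^ (i.1 : ℕ) *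
          ((y j : ℕ) : ℝ) ^ (i.2 : ℕ))) := by ring
      _ = _ := by rw [e1, one_mul]
  -- bounds for the exponents
  have hB1 : lam * (∑ j, (((s j).1 : ℕ) : ℝ)) - Real.sqrt ((K : ℝ) * ((L : ℝ) * (L ^ 2 - 1) / 12) *
            (V * ((U : ℝ) * (U ^ 2 - 1) / 12))) ≤ E1 := by
    have h1 := exponents_cs K L U V s hinj (fun z => ((z.1 : ℕ) : ℝ) - μ)
      (V * ((U : ℝ) * (U ^ 2 - 1) / 12)) (by
        rw [Fintype.sum_prod_type]
        simp only [sum_const, card_univ, Fintype.card_fin, nsmul_eq_mul]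
        rw [← mul_sum, hμ, sum_sq_centered]) σ1
    have h2 : ∑ j, ((((σ1 j).2 : ℕ) : ℝ) - ((L : ℝ) - 1) / 2) * ((((s j).1 : ℕ) : ℝ) - μ) =
        E1 - lam * ∑ j, (((s j).1 : ℕ) : ℝ) := by
      have h3 : ∑ j, ((((σ1 j).2 : ℕ) : ℝ) - ((L : ℝ) - 1) / 2) = 0 := by
        rw [Equiv.sum_comp σ1 (fun i : Fin K × Fin L => (((i.2 : ℕ) : ℝ) - ((L : ℝ) - 1) / 2)),
          Fintype.sum_prod_type]
        simp only [sum_centered, sum_const_zero]
      calc ∑ j, ((((σ1 j).2 : ℕ) : ℝ) - ((L : ℝ) - 1) / 2) * ((((s j).1 : ℕ) : ℝ) - μ)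
          = ∑ j, (((((σ1 j).2 : ℕ) : ℝ) * ((s j).1 : ℕ) - lam * (((s j).1 : ℕ) : ℝ)) -
              ((((σ1 j).2 : ℕ) : ℝ) - ((L : ℝ) - 1) / 2) * μ) := by
            apply sum_congr rfl
            intro j _
            rw [hlam]; ring
        _ = _ := by
            rw [sum_sub_distrib, sum_sub_distrib, ← sum_mul, h3, zero_mul, sub_zero, ← mul_sum, hE1]
            push_cast
            rfl
    rw [h2] at h1
    have h4 := (abs_le.1 h1).1
    linarith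
  have hB2 : lam * (∑ j, (((s j).2 : ℕ) : ℝ)) - Real.sqrt ((K : ℝ) * ((L : ℝ) * (L ^ 2 - 1) / 12) *
            (U * ((V : ℝ) * (V ^ 2 - 1) / 12))) ≤ E2 := by
    have h1 := exponents_cs K L U V s hinj (fun z => ((z.2 : ℕ) : ℝ) - ν)
      (U * ((V : ℝ) * (V ^ 2 - 1) / 12)) (by
        rw [Fintype.sum_prod_type]
        simp only [hν, sum_sq_centered, sum_const, card_univ, Fintype.card_fin, nsmul_eq_mul]) σ2
    have h2 : ∑ j, ((((σ2 j).2 : ℕ) : ℝ) - ((L : ℝ) - 1) / 2) * ((((s j).2 : ℕ) : ℝ) - ν) =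
        E2 - lam * ∑ j, (((s j).2 : ℕ) : ℝ) := by
      have h3 : ∑ j, ((((σ2 j).2 : ℕ) : ℝ) - ((L : ℝ) - 1) / 2) = 0 := by
        rw [Equiv.sum_comp σ2 (fun i : Fin K × Fin L => (((i.2 : ℕ) : ℝ) - ((L : ℝ) - 1) / 2)),
          Fintype.sum_prod_type]
        simp only [sum_centered, sum_const_zero]
      calc ∑ j, ((((σ2 j).2 : ℕ) : ℝ) - ((L : ℝ) - 1) / 2) * ((((s j).2 : ℕ) : ℝ) - ν)
          = ∑ j, (((((σ2 j).2 : ℕ) : ℝ) * ((s j).2 : ℕ) - lam * (((s j).2 : ℕ) : ℝ)) -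
              ((((σ2 j).2 : ℕ) : ℝ) - ((L : ℝ) - 1) / 2) * ν) := by
            apply sum_congr rfl
            intro j _
            rw [hlam]; ring
        _ = _ := by
            rw [sum_sub_distrib, sum_sub_distrib, ← sum_mul, h3, zero_mul, sub_zero, ← mul_sum, hE2]
            push_cast
            rfl
    rw [h2] at h1
    have h4 := (abs_le.1 h1).1
    linarith
  set B1 := Real.sqrt ((K : ℝ) * ((L : ℝ) * (L ^ 2 - 1) / 12) *
            (V * ((U : ℝ) * (U ^ 2 - 1) / 12))) with hB1def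
  set B2 := Real.sqrt ((K : ℝ) * ((L : ℝ) * (L ^ 2 - 1) / 12) *
            (U * ((V : ℝ) * (V ^ 2 - 1) / 12))) with hB2def
  set S := ∑ j, lam * (((s j).1 : ℕ) * β + ((s j).2 : ℕ) * Real.log 2) with hS
  have hS' : S = β * (lam * (∑ j, (((s j).1 : ℕ) : ℝ))) +
      Real.log 2 * (lam * (∑ j, (((s j).2 : ℕ) : ℝ))) := by
    rw [hS, mul_sum, mul_sum, mul_sum, mul_sum, ← sum_add_distrib]
    apply sum_congr rfl
    intro j _
    ring
  have hexp : Real.exp (S - (β * B1 + Real.log 2 * B2)) ≤ |(D : ℝ)| := by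
    refine le_trans (Real.exp_le_exp.2 ?_) hDge
    have h1 := mul_le_mul_of_nonneg_left hB1 hβ0
    have h2 := mul_le_mul_of_nonneg_left hB2 hlog2.le
    rw [hS']
    linarith
  have hP : 0 < (∏ k : Fin K, ((k : ℕ).factorial : ℝ) * ((q : ℝ)⁻¹) ^ (k : ℕ)) ^ L := by
    apply pow_pos
    apply prod_pos
    intro k _
    positivity
  set P := (∏ k : Fin K, ((k : ℕ).factorial : ℝ) * ((q : ℝ)⁻¹) ^ (k : ℕ)) ^ L with hPdef
  have h1 : |(D : ℝ)| * P = Real.exp S * |C.det| := by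
    rw [← abs_of_pos hP, ← abs_mul, hcomb, abs_mul, abs_of_pos (Real.exp_pos _)]
  have h2 : Real.exp S * (P * Real.exp (-(β * B1 + Real.log 2 * B2))) ≤ Real.exp S * |C.det| := by
    rw [← h1]
    calc Real.exp S * (P * Real.exp (-(β * B1 + Real.log 2 * B2)))
        = Real.exp (S - (β * B1 + Real.log 2 * B2)) * P := by
          rw [sub_eq_add_neg, Real.exp_add]; ring
      _ ≤ |(D : ℝ)| * P := mul_le_mul_of_nonneg_right hexp hP.le
  exact le_of_mul_le_mul_left h2 (Real.exp_pos _)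

end Pool.Agent.MP_ffd2af_nt
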