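import Pool.Agent.MP_ffd2af_nt.Seq

set_option autoImplicit false

namespace Pool.Agent.MP_ffd2af_nt

open Nat

/-- Evaluate the argument before passing it on. -/
noncomputable def force {α : Type} (x : ℕ) (k : ℕ → α) : α :=
  Nat.rec (motive := fun _ => α) (k 0) (fun y _ => k (Nat.succ y)) x

theorem force_eq {α : Type} (x : ℕ) (k : ℕ → α) : force x k = k x := by
  cases x <;> rfl

/-- `x ^ j % M` for small `j`. -/
noncomputable def pm (M x j : ℕ) : ℕ :=
  Nat.mod (Nat.mul (Nat.mod (Nat.pow (Nat.mod (Nat.mul (Nat.mod (Nat.pow (Nat.mod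
    (Nat.pow x (Nat.div j 64)) M) 8) M) (Nat.pow x (Nat.mod (Nat.div j 8) 8))) M) 8) M)
    (Nat.pow x (Nat.mod j 8))) M

theorem pm_eq (M x j : ℕ) : pm M x j = x ^ j % M := by
  have h : pm M x j = (((((x ^ (j / 64) % M) ^ 8 % M) * x ^ (j / 8 % 8)) % M) ^ 8 % M *
      x ^ (j % 8)) % M := rfl
  rw [h]
  have e0 : x ^ (j / 64) % M ≡ x ^ (j / 64) [MOD M] := Nat.mod_modEq _ _
  have e1 : (x ^ (j / 64) % M) ^ 8 % M ≡ (x ^ (j / 64)) ^ 8 [MOD M] :=
    (Nat.mod_modEq _ _).trans (e0.pow 8)
  have e2 := (Nat.mod_modEq (((x ^ (j / 64) % M) ^ 8 % M) * x ^ (j / 8 % 8)) M).trans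
    (e1.mul_right (x ^ (j / 8 % 8)))
  have e3 := (Nat.mod_modEq ((((x ^ (j / 64) % M) ^ 8 % M) * x ^ (j / 8 % 8) % M) ^ 8) M).trans
    (e2.pow 8)
  have e4 := e3.mul_right (x ^ (j % 8))
  have e5 : (((x ^ (j / 64)) ^ 8) * x ^ (j / 8 % 8)) ^ 8 * x ^ (j % 8) = x ^ j := by
    rw [← pow_mul, ← pow_add, ← pow_mul, ← pow_add]
    congr 1
    omega
  rw [e5] at e4
  exact e4

/-- Raise the entries of a list to varying powers, collecting results and their sum. -/
noncomputable def go (nx : ℕ → ℕ) (M : ℕ) (xs : List ℕ) :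
    ℕ → List ℕ → ℕ → (List ℕ → ℕ → Bool) → Bool :=
  List.rec (motive := fun _ => ℕ → List ℕ → ℕ → (List ℕ → ℕ → Bool) → Bool)
    (fun _ acc s k => k acc s)
    (fun x _ ih j acc s k => force (pm M x j) fun y => force (Nat.add s y) fun s' =>
      force (nx j) fun j' => ih j' (y :: acc) s' k) xs

/-- Specification of `go`. -/
def pl (nx : ℕ → ℕ) (M : ℕ) : List ℕ → ℕ → List ℕ
  | [], _ => []
  | x :: xs, j => (x ^ j % M) :: pl nx M xs (nx j)

theorem go_eq (nx : ℕ → ℕ) (M : ℕ) (xs : List ℕ) (j : ℕ) (acc : List ℕ) (s : ℕ)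
    (k : List ℕ → ℕ → Bool) :
    go nx M xs j acc s k = k ((pl nx M xs j).reverse ++ acc) (s + (pl nx M xs j).sum) := by
  induction xs generalizing j acc s with
  | nil => simp [pl, go]
  | cons x xs ih =>
    have h : go nx M (x :: xs) j acc s k = force (pm M x j) fun y => force (Nat.add s y) fun s' =>
      force (nx j) fun j' => go nx M xs j' (y :: acc) s' k := rfl
    rw [h, force_eq, force_eq, force_eq, ih, pm_eq]
    have h2 : Nat.add s (x ^ j % M) = s + x ^ j % M := rfl
    rw [h2]
    simp [pl, add_assoc]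

/-- Test that a number is a `q`-th power residue for none of the entries `(q, P, k)` with
`lo ≤ q` of the table. -/
noncomputable def chk (lo s : ℕ) (tab : List (ℕ × ℕ × ℕ)) : Bool :=
  List.rec (motive := fun _ => Bool) true
    (fun t _ ih => cond (Nat.ble lo t.1)
      (force (Nat.mod s t.2.1) fun r => cond (Nat.beq r 0) false
        (cond (Nat.beq (Nat.mod (Nat.pow r t.2.2) t.2.1) 1) false ih)) ih) tab

/-- An entry `(q, P, k)` of a table is good if `P = q k + 1` is prime. -/
def Good (t : ℕ × ℕ × ℕ) : Prop := t.2.1.Prime ∧ t.2.1 = t.1 * t.2.2 + 1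

theorem chk_sound (lo s A : ℕ) (tab : List (ℕ × ℕ × ℕ)) (hg : ∀ t ∈ tab, Good t)
    (hs : ∀ t ∈ tab, s ≡ A [MOD t.2.1]) (h : chk lo s tab = true) :
    ∀ t ∈ tab, lo ≤ t.1 → ∀ b, A ≠ b ^ t.1 := by
  induction tab with
  | nil => intro t ht; simp at ht
  | cons u tab ih =>
    have hrec : chk lo s (u :: tab) = cond (Nat.ble lo u.1)
      (force (Nat.mod s u.2.1) fun r => cond (Nat.beq r 0) false
        (cond (Nat.beq (Nat.mod (Nat.pow r u.2.2) u.2.1) 1) false (chk lo s tab)))
        (chk lo s tab) := rfl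
    rw [hrec, force_eq] at h
    have hrest : chk lo s tab = true := by
      by_contra hc
      simp only [Bool.not_eq_true] at hc
      rw [hc] at h
      rcases Nat.ble lo u.1 <;> rcases Nat.beq (Nat.mod s u.2.1) 0 <;>
        rcases Nat.beq (Nat.mod (Nat.pow (Nat.mod s u.2.1) u.2.2) u.2.1) 1 <;> simp at h
    intro t ht
    rcases List.mem_cons.1 ht with rfl | ht'
    · intro hlo b hb
      have h1 : Nat.ble lo t.1 = true := Nat.ble_eq_true_of_le hlo
      rw [h1] at h
      obtain ⟨hP, hPk⟩ := hg t ht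
      have hst := hs t ht
      have e1 : Nat.mod s t.2.1 = s % t.2.1 := rfl
      rw [e1] at h
      have h2 : Nat.beq (s % t.2.1) 0 = false := by
        by_contra hc
        simp only [Bool.not_eq_false] at hc
        rw [hc] at h
        simp at h
      rw [h2] at h
      have h3 : Nat.beq (Nat.mod (Nat.pow (s % t.2.1) t.2.2) t.2.1) 1 = false := by
        by_contra hc
        simp only [Bool.not_eq_false] at hc
        rw [hc] at h
        simp at h
      have h3' : ¬ ((s % t.2.1) ^ t.2.2 % t.2.1 = 1) := fun hc => by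
        have := Nat.beq_eq_true_eq ((s % t.2.1) ^ t.2.2 % t.2.1) 1
        have h4 : Nat.beq ((s % t.2.1) ^ t.2.2 % t.2.1) 1 = true := by
          rw [hc]; rfl
        have e2 : Nat.mod (Nat.pow (s % t.2.1) t.2.2) t.2.1 =
          (s % t.2.1) ^ t.2.2 % t.2.1 := rfl
        rw [e2, h4] at h3
        exact absurd h3 (by simp)
      have h2' : ¬ (s % t.2.1 = 0) := fun hc => by
        rw [hc] at h2
        exact absurd h2 (by decide)
      -- `b` is prime to `P`
      have : Fact t.2.1.Prime := ⟨hP⟩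
      have h5 : ((A : ℕ) : ZMod t.2.1) = ((s : ℕ) : ZMod t.2.1) :=
        ((ZMod.natCast_eq_natCast_iff _ _ _).2 hst).symm
      rw [hb] at h5
      push_cast at h5
      have h6 : (s : ZMod t.2.1) ≠ 0 := by
        intro hc
        rw [ZMod.natCast_eq_zero_iff] at hc
        exact h2' (Nat.mod_eq_zero_of_dvd hc)
      have h7 : (b : ZMod t.2.1) ≠ 0 := by
        intro hc
        rw [hc] at h5
        have hq0 : t.1 ≠ 0 := by
          intro h0
          rw [h0] at hPk
          simp at hPk
          rw [hPk] at hP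
          exact absurd hP (by norm_num)
        rw [zero_pow hq0] at h5
        exact h6 h5.symm
      have h8 : (b : ZMod t.2.1) ^ (t.2.1 - 1) = 1 := ZMod.pow_card_sub_one_eq_one h7
      have h9 : t.2.1 - 1 = t.1 * t.2.2 := by omega
      rw [h9, pow_mul, h5] at h8
      apply h3'
      have h10 : (((s % t.2.1) ^ t.2.2 : ℕ) : ZMod t.2.1) = ((1 : ℕ) : ZMod t.2.1) := by
        push_cast
        rw [ZMod.natCast_mod, h8]
      have h11 := (ZMod.natCast_eq_natCast_iff _ _ _).1 h10
      unfold Nat.ModEq at h11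
      rw [h11, Nat.mod_eq_of_lt hP.one_lt]
    · exact ih (fun t ht => hg t (List.mem_cons_of_mem _ ht))
        (fun t ht => hs t (List.mem_cons_of_mem _ ht)) hrest t ht'

/-- Run through the values `a(n)` modulo `M`. -/
noncomputable def run (M n0 : ℕ) (tab : List (ℕ × ℕ × ℕ)) (fuel : ℕ) :
    ℕ → ℕ → List ℕ → Bool :=
  Nat.rec (motive := fun _ => ℕ → ℕ → List ℕ → Bool) (fun _ _ _ => true)
    (fun _ ih n f xs =>
      force (Nat.succ n) fun n1 => force (Nat.mod (Nat.mul f n1) M) fun f1 =>
      go Nat.succ M xs 2 [f1] f1 fun ys s =>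
        cond (cond (Nat.ble n0 n1) (chk n1 s tab) true)
          (force (Nat.succ n1) fun n2 => force (Nat.mod (Nat.mul f1 n2) M) fun f2 =>
            go Nat.pred M ys n2 [] f2 fun zs s' =>
              cond (cond (Nat.ble n0 n2) (chk n2 s' tab) true) (ih n2 f2 (f2 :: zs)) false)
          false) fuel

/-- The list of terms modulo `M`. -/
def IL (M n : ℕ) : List ℕ := (List.range n).map (fun t => ((n - t)!) ^ ((t + 1)!) % M)

theorem a_eq_range (n : ℕ) : a n = ∑ t ∈ Finset.range n, ((n - t)!) ^ ((t + 1)!) := by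
  unfold a
  apply Finset.sum_nbij' (fun i => n - i) (fun t => n - t)
  · intro i hi
    rw [Finset.mem_Icc] at hi
    rw [Finset.mem_range]
    omega
  · intro t ht
    rw [Finset.mem_range] at ht
    rw [Finset.mem_Icc]
    omega
  · intro i hi
    rw [Finset.mem_Icc] at hi
    omega
  · intro t ht
    rw [Finset.mem_range] at ht
    omega
  · intro i hi
    rw [Finset.mem_Icc] at hi
    have : n - (n - i) = i := by omega
    rw [this]

theorem IL_sum (M n : ℕ) : (IL M n).sum ≡ a n [MOD M] := by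
  have h : ∀ m, ((List.range m).map (fun t => ((n - t)!) ^ ((t + 1)!) % M)).sum ≡
      ∑ t ∈ Finset.range m, ((n - t)!) ^ ((t + 1)!) [MOD M] := by
    intro m
    induction m with
    | zero => simp; rfl
    | succ m ih =>
      rw [List.range_succ, List.map_append, List.sum_append, Finset.sum_range_succ]
      apply Nat.ModEq.add ih
      simp only [List.map_cons, List.map_nil, List.sum_cons, List.sum_nil, add_zero]
      exact Nat.mod_modEq _ _
  rw [a_eq_range]
  exact h n

theorem IL_length (M n : ℕ) : (IL M n).length = n := by simp [IL]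

theorem pl_range (M s len : ℕ) (g : ℕ → ℕ) :
    pl Nat.succ M ((List.range' s len).map g) (s + 2) =
      (List.range' s len).map (fun t => (g t) ^ (t + 2) % M) := by
  induction len generalizing s with
  | zero => simp [pl]
  | succ len ih =>
    rw [List.range'_succ, List.map_cons, List.map_cons, pl]
    have := ih (s + 1)
    rw [show (s + 2).succ = s + 1 + 2 by omega, this]

theorem IL_succ (M n : ℕ) :
    IL M (n + 1) = ((n + 1)! % M) :: pl Nat.succ M (IL M n) 2 := by
  have h1 : pl Nat.succ M (IL M n) 2 =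
      (List.range n).map (fun t => (((n - t)!) ^ ((t + 1)!) % M) ^ (t + 2) % M) := by
    unfold IL
    rw [List.range_eq_range']
    exact pl_range M 0 n _
  rw [h1]
  unfold IL
  rw [List.range_succ_eq_map, List.map_cons, List.map_map]
  congr 1
  · simp
  · apply List.map_congr_left
    intro t _
    simp only [Function.comp]
    rw [← Nat.pow_mod, ← pow_mul]
    have h2 : n + 1 - t.succ = n - t := by omega
    have h3 : (t.succ + 1)! = (t + 1)! * (t + 2) := by
      have : (t.succ + 1)! = (t + 2) * (t + 1)! := rfl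
      rw [this, mul_comm]
    rw [h2, h3]

theorem pl_append (M : ℕ) (A : List ℕ) (x J : ℕ) :
    pl Nat.pred M (A ++ [x]) J = pl Nat.pred M A J ++ [x ^ (J - A.length) % M] := by
  induction A generalizing J with
  | nil => simp [pl]
  | cons y A ih =>
    rw [List.cons_append, pl, pl, ih, List.cons_append, List.length_cons]
    have : J.pred - A.length = J - (A.length + 1) := by
      rw [Nat.pred_eq_sub_one]
      omega
    rw [this]

theorem pl_reverse (M : ℕ) (A : List ℕ) (j : ℕ) :
    (pl Nat.pred M A.reverse (j + A.length - 1)).reverse = pl Nat.succ M A j := by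
  induction A generalizing j with
  | nil => simp [pl]
  | cons x A ih =>
    rw [List.reverse_cons, pl_append, List.reverse_append, pl]
    have h1 : j + (x :: A).length - 1 = j.succ + A.length - 1 := by
      rw [List.length_cons]
      omega
    rw [h1, ih]
    have h2 : j.succ + A.length - 1 - A.reverse.length = j := by
      rw [List.length_reverse]
      omega
    rw [h2]
    rfl

theorem run_sound (M n0 : ℕ) (tab : List (ℕ × ℕ × ℕ)) (fuel n : ℕ)
    (h : run M n0 tab fuel n (n ! % M) (IL M n) = true) :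
    ∀ n', n < n' → n' ≤ n + 2 * fuel → n0 ≤ n' → ∃ s, s ≡ a n' [MOD M] ∧ chk n' s tab = true := by
  induction fuel generalizing n with
  | zero => intro n' h1 h2; omega
  | succ fuel ih =>
    have hrec : run M n0 tab (fuel + 1) n (n ! % M) (IL M n) =
      force (Nat.succ n) fun n1 => force (Nat.mod (Nat.mul (n ! % M) n1) M) fun f1 =>
      go Nat.succ M (IL M n) 2 [f1] f1 fun ys s =>
        cond (cond (Nat.ble n0 n1) (chk n1 s tab) true)
          (force (Nat.succ n1) fun n2 => force (Nat.mod (Nat.mul f1 n2) M) fun f2 =>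
            go Nat.pred M ys n2 [] f2 fun zs s' =>
              cond (cond (Nat.ble n0 n2) (chk n2 s' tab) true)
                (run M n0 tab fuel n2 f2 (f2 :: zs)) false)
          false := rfl
    rw [hrec] at h
    simp only [force_eq, go_eq] at h
    have e1 : ∀ n : ℕ, Nat.mod (Nat.mul (n ! % M) (Nat.succ n)) M = (n + 1)! % M := by
      intro n
      have h1 : Nat.mod (Nat.mul (n ! % M) (Nat.succ n)) M = ((n ! % M) * (n + 1)) % M := rfl
      rw [h1, Nat.mod_mul_mod]
      have h2 : (n + 1)! = n ! * (n + 1) := by rw [Nat.factorial_succ, mul_comm]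
      rw [h2]
    rw [e1 n] at h
    have e2 := e1 (n + 1)
    have e2' : Nat.mod (Nat.mul ((n + 1)! % M) (Nat.succ (Nat.succ n))) M = (n + 1 + 1)! % M := e2
    rw [e2'] at h
    have e3 : (pl Nat.succ M (IL M n) 2).reverse ++ [(n + 1)! % M] = (IL M (n + 1)).reverse := by
      rw [IL_succ, List.reverse_cons]
    rw [e3] at h
    have e4 : (n + 1)! % M + (pl Nat.succ M (IL M n) 2).sum = (IL M (n + 1)).sum := by
      rw [IL_succ, List.sum_cons]
    rw [e4] at h
    have e5 : (pl Nat.pred M (IL M (n + 1)).reverse (Nat.succ (Nat.succ n))).reverse =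
        pl Nat.succ M (IL M (n + 1)) 2 := by
      have := pl_reverse M (IL M (n + 1)) 2
      rw [IL_length] at this
      rw [← this]
      congr 2
      omega
    have e6 : (pl Nat.pred M (IL M (n + 1)).reverse (Nat.succ (Nat.succ n))).sum =
        (pl Nat.succ M (IL M (n + 1)) 2).sum := by
      rw [← e5, List.sum_reverse]
    rw [e5, e6, List.append_nil, ← IL_succ] at h
    have e7 : (n + 1 + 1)! % M + (pl Nat.succ M (IL M (n + 1)) 2).sum = (IL M (n + 1 + 1)).sum := by
      rw [IL_succ M (n + 1), List.sum_cons]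
    rw [e7] at h
    set c1 := cond (Nat.ble n0 (Nat.succ n)) (chk (Nat.succ n) (IL M (n + 1)).sum tab) true with hc1
    set c2 := cond (Nat.ble n0 (Nat.succ (Nat.succ n)))
      (chk (Nat.succ (Nat.succ n)) (IL M (n + 1 + 1)).sum tab) true with hc2
    have g1 : c1 = true := by
      by_contra hc
      simp only [Bool.not_eq_true] at hc
      rw [hc] at h
      simp at h
    rw [g1, cond_true] at h
    have g2 : c2 = true := by
      by_contra hc
      simp only [Bool.not_eq_true] at hc
      rw [hc] at h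
      simp at h
    rw [g2, cond_true] at h
    intro n' hn1 hn2 hn0
    rcases Nat.lt_or_ge (n + 1 + 1) n' with h8 | h8
    · exact ih (n + 1 + 1) h n' h8 (by omega) hn0
    · rcases (show n' = n + 1 ∨ n' = n + 1 + 1 by omega) with rfl | rfl
      · refine ⟨_, IL_sum M (n + 1), ?_⟩
        rw [Nat.ble_eq_true_of_le (show n0 ≤ Nat.succ n from hn0), cond_true] at hc1
        exact hc1.symm.trans g1
      · refine ⟨_, IL_sum M (n + 1 + 1), ?_⟩
        rw [Nat.ble_eq_true_of_le (show n0 ≤ Nat.succ (Nat.succ n) from hn0), cond_true] at hc2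
        exact hc2.symm.trans g2

/-- Primality by one gcd. -/
theorem prime_of_gcd (P B : ℕ) (h1 : 1 < P) (h2 : Nat.gcd P (B !) = 1) (h3 : P < (B + 1) ^ 2) :
    P.Prime := by
  by_contra h
  have h4 := Nat.minFac_sq_le_self (by omega) h
  have h5 : P.minFac ≤ B := by
    by_contra h6
    push Not at h6
    have : (B + 1) ^ 2 ≤ P.minFac ^ 2 := Nat.pow_le_pow_left h6 2
    omega
  have h6 : P.minFac ∣ B ! := Nat.dvd_factorial (Nat.minFac_pos P) h5
  have h7 : P.minFac ∣ 1 := h2 ▸ Nat.dvd_gcd (Nat.minFac_dvd P) h6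
  have h8 := Nat.minFac_prime (show P ≠ 1 by omega)
  exact absurd (Nat.dvd_one.1 h7) h8.one_lt.ne'

/-- Test of a table: every entry is good and its modulus divides `M`. -/
def tabOk (M F B : ℕ) (tab : List (ℕ × ℕ × ℕ)) : Bool :=
  tab.all fun t => (M % t.2.1 == 0) && (Nat.blt 1 t.2.1) &&
    ((Nat.gcd t.2.1 F == 1 && Nat.blt t.2.1 ((B + 1) ^ 2)) ||
      (Nat.gcd t.2.1 (25 !) == 1 && Nat.blt t.2.1 ((25 + 1) ^ 2))) &&
    (t.2.1 == t.1 * t.2.2 + 1)

theorem tabOk_sound (M F B : ℕ) (hF : F = B !) (tab : List (ℕ × ℕ × ℕ))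
    (h : tabOk M F B tab = true) : ∀ t ∈ tab, Good t ∧ t.2.1 ∣ M := by
  intro t ht
  unfold tabOk at h
  rw [List.all_eq_true] at h
  have := h t ht
  simp only [Bool.and_eq_true, Bool.or_eq_true, beq_iff_eq, Nat.blt_eq] at this
  obtain ⟨⟨⟨h1, h2⟩, h34⟩, h5⟩ := this
  refine ⟨⟨?_, h5⟩, Nat.dvd_of_mod_eq_zero h1⟩
  rcases h34 with ⟨h3, h4⟩ | ⟨h3, h4⟩
  · exact prime_of_gcd _ B h2 (hF ▸ h3) h4
  · exact prime_of_gcd _ 25 h2 h3 h4

/-- Test that all primes in an interval occur in the table. -/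
def covOk (ds : List ℕ) (tab : List (ℕ × ℕ × ℕ)) (lo len : ℕ) : Bool :=
  (List.range' lo len).all fun q =>
    (ds.any fun d => Nat.blt 1 d && Nat.blt d q && (q % d == 0)) || (tab.any fun t => t.1 == q)

theorem covOk_sound (ds : List ℕ) (tab : List (ℕ × ℕ × ℕ)) (lo len : ℕ)
    (h : covOk ds tab lo len = true) :
    ∀ q, q.Prime → lo ≤ q → q < lo + len → ∃ t ∈ tab, t.1 = q := by
  intro q hq h1 h2
  unfold covOk at h
  rw [List.all_eq_true] at h
  have := h q (List.mem_range'_1.2 ⟨h1, h2⟩)
  rw [Bool.or_eq_true] at this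
  rcases this with h3 | h3
  · rw [List.any_eq_true] at h3
    obtain ⟨d, _, h4⟩ := h3
    simp only [Bool.and_eq_true, beq_iff_eq, Nat.blt_eq] at h4
    obtain ⟨⟨h5, h6⟩, h7⟩ := h4
    have h8 : d ∣ q := Nat.dvd_of_mod_eq_zero h7
    rcases (Nat.dvd_prime hq).1 h8 with h9 | h9 <;> omega
  · rw [List.any_eq_true] at h3
    obtain ⟨t, ht, h4⟩ := h3
    exact ⟨t, ht, by simpa using h4⟩

/-- The whole check. -/
theorem check_sound (M F B n0 fuel lo len : ℕ) (ds : List ℕ) (tab : List (ℕ × ℕ × ℕ))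
    (hF : F = B !) (htab : tabOk M F B tab = true) (hcov : covOk ds tab lo len = true)
    (hM : 1 % M = 1)
    (hrun : run M n0 tab fuel 1 1 [1] = true) (n q b : ℕ) (hn0 : n0 ≤ n) (hn1 : 1 < n)
    (hn2 : n ≤ 1 + 2 * fuel) (hq : q.Prime) (hnq : n ≤ q) (h1 : lo ≤ q) (h2 : q < lo + len) :
    a n ≠ b ^ q := by
  have h3 : run M n0 tab fuel 1 (1 ! % M) (IL M 1) = true := by
    have e1 : 1 ! % M = 1 := by simpa using hM
    have e2 : IL M 1 = [1] := by
      simp [IL, List.range_succ, hM]
    rw [e1, e2]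
    exact hrun
  obtain ⟨s, hs1, hs2⟩ := run_sound M n0 tab fuel 1 h3 n hn1 hn2 hn0
  obtain ⟨t, ht, rfl⟩ := covOk_sound ds tab lo len hcov q hq h1 h2
  exact chk_sound n s (a n) tab (fun t ht => (tabOk_sound M F B hF tab htab t ht).1)
    (fun t ht => hs1.of_dvd (tabOk_sound M F B hF tab htab t ht).2) hs2 t ht hnq b

end Pool.Agent.MP_ffd2af_nt
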