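import Pool.Agent.MP_ffd2af_nt.Det

set_option autoImplicit false

namespace Pool.Agent.MP_ffd2af_nt

open Finset Matrix

/-- `g` is a cosine polynomial of weighted norm at most `F`. -/
def CosRep (ρ F : ℝ) (g : ℝ → ℝ) : Prop :=
  ∃ (M : ℕ) (a : ℕ → ℝ), (∀ t, g t = ∑ n ∈ range M, a n * Real.cos (n * t)) ∧
    ∑ n ∈ range M, |a n| * (ρ ^ n + (ρ⁻¹) ^ n) ≤ F

variable {ρ : ℝ}

theorem CosRep.extend {F : ℝ} {g : ℝ → ℝ} (h : CosRep ρ F g) :
    ∃ M₀ : ℕ, ∀ M, M₀ ≤ M → ∃ a : ℕ → ℝ, (∀ t, g t = ∑ n ∈ range M, a n * Real.cos (n * t)) ∧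
      ∑ n ∈ range M, |a n| * (ρ ^ n + (ρ⁻¹) ^ n) ≤ F := by
  obtain ⟨M₀, a, h1, h2⟩ := h
  refine ⟨M₀, fun M hM => ⟨fun n => if n < M₀ then a n else 0, fun t => ?_, ?_⟩⟩
  · rw [h1 t]
    have hsub : range M₀ ⊆ range M := range_subset_range.2 hM
    rw [← Finset.sum_subset hsub]
    · exact sum_congr rfl (fun n hn => by simp [mem_range.1 hn])
    · intro n _ hn
      have : ¬ n < M₀ := fun h => hn (mem_range.2 h)
      simp [this]
  · refine le_trans (le_of_eq ?_) h2
    have hsub : range M₀ ⊆ range M := range_subset_range.2 hM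
    rw [← Finset.sum_subset hsub]
    · exact sum_congr rfl (fun n hn => by simp [mem_range.1 hn])
    · intro n _ hn
      have : ¬ n < M₀ := fun h => hn (mem_range.2 h)
      simp [this]

theorem CosRep.mono {F F' : ℝ} {g : ℝ → ℝ} (h : CosRep ρ F g) (hF : F ≤ F') : CosRep ρ F' g := by
  obtain ⟨M, a, h1, h2⟩ := h
  exact ⟨M, a, h1, h2.trans hF⟩

theorem CosRep.congr {F : ℝ} {g g' : ℝ → ℝ} (h : CosRep ρ F g) (hg : ∀ t, g' t = g t) :
    CosRep ρ F g' := by
  obtain ⟨M, a, h1, h2⟩ := h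
  exact ⟨M, a, fun t => (hg t).trans (h1 t), h2⟩

theorem CosRep.add (hρ : 0 < ρ) {F F' : ℝ} {g g' : ℝ → ℝ} (h : CosRep ρ F g)
    (h' : CosRep ρ F' g') : CosRep ρ (F + F') (fun t => g t + g' t) := by
  obtain ⟨M₀, h⟩ := h.extend
  obtain ⟨M₁, h'⟩ := h'.extend
  obtain ⟨a, h1, h2⟩ := h (max M₀ M₁) (le_max_left _ _)
  obtain ⟨b, h3, h4⟩ := h' (max M₀ M₁) (le_max_right _ _)
  refine ⟨max M₀ M₁, fun n => a n + b n, fun t => ?_, ?_⟩
  · show g t + g' t = _
    rw [h1, h3, ← sum_add_distrib]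
    exact sum_congr rfl (fun n _ => by ring)
  · refine le_trans ?_ (add_le_add h2 h4)
    rw [← sum_add_distrib]
    apply sum_le_sum
    intro n _
    rw [← add_mul]
    apply mul_le_mul_of_nonneg_right (abs_add_le _ _)
    positivity

theorem CosRep.smul {F : ℝ} {g : ℝ → ℝ} (c : ℝ) (h : CosRep ρ F g) :
    CosRep ρ (|c| * F) (fun t => c * g t) := by
  obtain ⟨M, a, h1, h2⟩ := h
  refine ⟨M, fun n => c * a n, fun t => ?_, ?_⟩
  · show c * g t = _
    rw [h1, mul_sum]
    exact sum_congr rfl (fun n _ => by ring)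
  · calc ∑ n ∈ range M, |c * a n| * (ρ ^ n + (ρ⁻¹) ^ n)
        = |c| * ∑ n ∈ range M, |a n| * (ρ ^ n + (ρ⁻¹) ^ n) := by
          rw [mul_sum]
          exact sum_congr rfl (fun n _ => by rw [abs_mul]; ring)
      _ ≤ |c| * F := mul_le_mul_of_nonneg_left h2 (abs_nonneg _)

theorem CosRep.zero : CosRep ρ 0 (fun _ => 0) :=
  ⟨0, fun _ => 0, fun t => by simp, by simp⟩

theorem CosRep.sum (hρ : 0 < ρ) {α : Type*} (s : Finset α) (F : α → ℝ) (g : α → ℝ → ℝ)
    (h : ∀ i ∈ s, CosRep ρ (F i) (g i)) :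
    CosRep ρ (∑ i ∈ s, F i) (fun t => ∑ i ∈ s, g i t) := by
  classical
  induction s using Finset.induction_on with
  | empty => simpa using CosRep.zero
  | insert a s ha ih =>
    simp only [sum_insert ha]
    exact CosRep.add hρ (h a (mem_insert_self _ _)) (ih (fun i hi => h i (mem_insert_of_mem hi)))

/-- a single cosine -/
theorem CosRep.cos (m : ℕ) : CosRep ρ (ρ ^ m + (ρ⁻¹) ^ m) (fun t => Real.cos (m * t)) := by
  refine ⟨m + 1, fun n => if n = m then 1 else 0, fun t => ?_, ?_⟩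
  · simp
  · rw [Finset.sum_eq_single m]
    · simp
    · intro b _ hb
      simp [hb]
    · intro h
      simp at h

theorem CosRep.mul_cos (hρ : 0 < ρ) {F : ℝ} {g : ℝ → ℝ} (h : CosRep ρ F g) :
    CosRep ρ ((ρ + ρ⁻¹) / 2 * F) (fun t => Real.cos t * g t) := by
  obtain ⟨M, a, h1, h2⟩ := h
  have hn : ∀ n : ℕ, CosRep ρ ((ρ + ρ⁻¹) / 2 * (ρ ^ n + (ρ⁻¹) ^ n))
      (fun t => Real.cos t * Real.cos (n * t)) := by
    intro n
    rcases Nat.eq_zero_or_pos n with h | h
    · subst h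
      have := CosRep.cos (ρ := ρ) 1
      refine (this.mono ?_) |>.congr ?_ 
      · simp
        linarith
      · intro t
        simp
    · obtain ⟨k, rfl⟩ : ∃ k, n = k + 1 := ⟨n - 1, by omega⟩
      have h3 := (CosRep.smul (1/2) ((CosRep.cos (ρ := ρ) (k + 2)).add hρ (CosRep.cos (ρ := ρ) k)))
      refine (h3.mono ?_).congr ?_
      · apply le_of_eq
        have : ρ ≠ 0 := hρ.ne'
        rw [abs_of_pos (by norm_num)]
        have e1 : ρ * ρ⁻¹ = 1 := mul_inv_cancel₀ this
        have e2 : (ρ⁻¹) ^ (k + 1) * ρ = (ρ⁻¹) ^ k := by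
          rw [pow_succ, mul_assoc, inv_mul_cancel₀ this, mul_one]
        have e3 : ρ ^ (k + 1) * ρ⁻¹ = ρ ^ k := by
          rw [pow_succ, mul_assoc, mul_inv_cancel₀ this, mul_one]
        calc 1 / 2 * (ρ ^ (k + 2) + ρ⁻¹ ^ (k + 2) + (ρ ^ k + ρ⁻¹ ^ k))
            = 1 / 2 * (ρ ^ (k + 2) + ρ⁻¹ ^ (k + 2) + (ρ ^ (k + 1) * ρ⁻¹ + ρ⁻¹ ^ (k + 1) * ρ)) := by
              rw [e2, e3]
          _ = (ρ + ρ⁻¹) / 2 * (ρ ^ (k + 1) + ρ⁻¹ ^ (k + 1)) := by ring
      · intro t
        have e1 : Real.cos (((k + 2 : ℕ) : ℝ) * t) =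
            Real.cos t * Real.cos (((k + 1 : ℕ) : ℝ) * t) -
              Real.sin t * Real.sin (((k + 1 : ℕ) : ℝ) * t) := by
          rw [← Real.cos_add]; congr 1; push_cast; ring
        have e2 : Real.cos ((k : ℝ) * t) =
            Real.cos t * Real.cos (((k + 1 : ℕ) : ℝ) * t) +
              Real.sin t * Real.sin (((k + 1 : ℕ) : ℝ) * t) := by
          rw [← Real.cos_sub, ← Real.cos_neg]; congr 1; push_cast; ring
        rw [e1, e2]; ring
  have h3 := CosRep.sum hρ (range M) (fun n => |a n| * ((ρ + ρ⁻¹) / 2 * (ρ ^ n + (ρ⁻¹) ^ n)))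
    (fun n t => a n * (Real.cos t * Real.cos (n * t))) (fun n _ => (hn n).smul (a n))
  refine (h3.mono ?_).congr ?_
  · calc ∑ n ∈ range M, |a n| * ((ρ + ρ⁻¹) / 2 * (ρ ^ n + (ρ⁻¹) ^ n))
        = (ρ + ρ⁻¹) / 2 * ∑ n ∈ range M, |a n| * (ρ ^ n + (ρ⁻¹) ^ n) := by
          rw [mul_sum]; exact sum_congr rfl (fun n _ => by ring)
      _ ≤ _ := mul_le_mul_of_nonneg_left h2 (by positivity)
  · intro t
    rw [h1, mul_sum]
    exact sum_congr rfl (fun n _ => by ring)

theorem CosRep.pow_cos (hρ : 0 < ρ) (s : ℕ) :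
    CosRep ρ (2 * ((ρ + ρ⁻¹) / 2) ^ s) (fun t => Real.cos t ^ s) := by
  induction s with
  | zero =>
    refine ((CosRep.cos (ρ := ρ) 0).mono ?_).congr ?_
    · simp; norm_num
    · intro t; simp
  | succ s ih =>
    refine (ih.mul_cos hρ |>.mono (le_of_eq ?_)).congr ?_
    · ring
    · intro t; ring

/-- the truncated exponential monomial -/
theorem CosRep.expo (hρ : 0 < ρ) (k S : ℕ) (r c : ℝ) (hr : 0 ≤ r) :
    CosRep ρ (2 * (r * ((ρ + ρ⁻¹) / 2)) ^ k * Real.exp (|c| * (r * ((ρ + ρ⁻¹) / 2))))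
      (fun t => (r * Real.cos t) ^ k * ∑ s ∈ range S, (c * (r * Real.cos t)) ^ s / s.factorial) := by
  set R := (ρ + ρ⁻¹) / 2 with hR
  have hR0 : 0 ≤ R := by positivity
  have h := CosRep.sum hρ (range S)
    (fun s => |r ^ k * (c * r) ^ s / s.factorial| * (2 * R ^ (k + s)))
    (fun s t => (r ^ k * (c * r) ^ s / s.factorial) * Real.cos t ^ (k + s))
    (fun s _ => (CosRep.pow_cos hρ (k + s)).smul _)
  refine (h.mono ?_).congr ?_
  · have h1 : ∑ s ∈ range S, |r ^ k * (c * r) ^ s / s.factorial| * (2 * R ^ (k + s)) =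
        2 * (r * R) ^ k * ∑ s ∈ range S, (|c| * (r * R)) ^ s / s.factorial := by
      rw [mul_sum]
      apply sum_congr rfl
      intro s _
      rw [abs_div, abs_mul, abs_pow, abs_pow, abs_mul, abs_of_nonneg hr, Nat.abs_cast]
      ring_nf
    rw [h1]
    apply mul_le_mul_of_nonneg_left _ (by positivity)
    exact Real.sum_le_exp_of_nonneg (by positivity) S
  · intro t
    simp only [mul_sum]
    apply sum_congr rfl
    intro s _
    ring

/-- Main analytic bound. -/
theorem det_exp_bound {ι : Type*} [Fintype ι] [DecidableEq ι] (ρ r : ℝ) (hρ : 1 ≤ ρ) (hr : 0 < r)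
    (k : ι → ℕ) (c : ι → ℝ) (Z : ι → ℝ) (hZ : ∀ j, |Z j| ≤ r) (η : ι → ι → ℝ)
    (hη : ∀ i j, |η i j| ≤ (ρ ^ Fintype.card ι)⁻¹) :
    |Matrix.det (fun i j => Z j ^ k i * Real.exp (c i * Z j) * (1 + η i j))| ≤
      (Fintype.card ι).factorial / ρ ^ (Fintype.card ι * (Fintype.card ι - 1) / 2) *
      ∏ i, (4 * (r * ((ρ + ρ⁻¹) / 2)) ^ k i * Real.exp (|c i| * (r * ((ρ + ρ⁻¹) / 2)))) := by
  have hρ0 : 0 < ρ := by linarith
  set R := (ρ + ρ⁻¹) / 2 with hR
  have hR1 : 1 ≤ R := by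
    rw [hR, le_div_iff₀ (by norm_num)]
    have : 0 ≤ (ρ - 1) ^ 2 / ρ := by positivity
    have h2 : (ρ - 1) ^ 2 / ρ = ρ + ρ⁻¹ - 2 := by field_simp; ring
    linarith
  -- angles
  let φ : ι → ℝ := fun j => Real.arccos (Z j / r)
  have hφ : ∀ j, r * Real.cos (φ j) = Z j := by
    intro j
    have h1 : |Z j / r| ≤ 1 := by
      rw [abs_div, abs_of_pos hr, div_le_one hr]; exact hZ j
    simp only [φ]
    rw [Real.cos_arccos (abs_le.1 h1).1 (abs_le.1 h1).2]
    field_simp
  -- truncated functions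
  let f : ℕ → ι → ℝ → ℝ := fun S i t =>
    (r * Real.cos t) ^ k i * ∑ s ∈ range S, (c i * (r * Real.cos t)) ^ s / s.factorial
  have hbound : ∀ S : ℕ,
      |Matrix.det (fun i j => f S i (φ j) + f S i (φ j) * η i j)| ≤
      (Fintype.card ι).factorial / ρ ^ (Fintype.card ι * (Fintype.card ι - 1) / 2) *
      ∏ i, (4 * (r * R) ^ k i * Real.exp (|c i| * (r * R))) := by
    intro S
    have hrep : ∀ i, CosRep ρ (2 * (r * R) ^ k i * Real.exp (|c i| * (r * R))) (f S i) :=
      fun i => CosRep.expo hρ0 (k i) S r (c i) hr.le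
    choose M₀ hM₀ using fun i => (hrep i).extend
    set M := univ.sup M₀ with hM
    choose a ha1 ha2 using fun i => hM₀ i M (Finset.le_sup (mem_univ i))
    have hfb : ∀ i t, |f S i t| ≤ r ^ k i * Real.exp (|c i| * r) := by
      intro i t
      simp only [f]
      rw [abs_mul, abs_pow]
      have h1 : |r * Real.cos t| ≤ r := by
        rw [abs_mul, abs_of_pos hr]
        exact mul_le_of_le_one_right hr.le (Real.abs_cos_le_one _)
      apply mul_le_mul (pow_le_pow_left₀ (abs_nonneg _) h1 _) _ (abs_nonneg _) (by positivity)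
      calc |∑ s ∈ range S, (c i * (r * Real.cos t)) ^ s / s.factorial|
          ≤ ∑ s ∈ range S, |(c i * (r * Real.cos t)) ^ s / s.factorial| := abs_sum_le_sum_abs _ _
        _ ≤ ∑ s ∈ range S, (|c i| * r) ^ s / s.factorial := by
            apply sum_le_sum
            intro s _
            rw [abs_div, abs_pow, abs_mul, Nat.abs_cast]
            apply div_le_div_of_nonneg_right _ (by positivity)
            apply pow_le_pow_left₀ (by positivity)
            exact mul_le_mul_of_nonneg_left h1 (abs_nonneg _)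
        _ ≤ Real.exp (|c i| * r) := Real.sum_le_exp_of_nonneg (by positivity) S
    have h1 := det_cos_bound M a φ (fun i j => f S i (φ j) * η i j)
      (fun i => r ^ k i * Real.exp (|c i| * r) * (ρ ^ Fintype.card ι)⁻¹) ρ hρ (by
        intro i j
        rw [abs_mul]
        exact mul_le_mul (hfb i _) (hη i j) (abs_nonneg _) (by positivity))
    have h2 : (fun i j => (∑ n ∈ range M, a i n * Real.cos (n * φ j)) + f S i (φ j) * η i j) =
        (fun i j => f S i (φ j) + f S i (φ j) * η i j) := by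
      funext i j
      rw [ha1]
    rw [h2] at h1
    refine h1.trans ?_
    apply mul_le_mul_of_nonneg_left _ (by positivity)
    apply prod_le_prod
    · intro i _
      apply add_nonneg
      · exact sum_nonneg (fun n _ => by positivity)
      · positivity
    · intro i _
      have e1 : r ^ k i * Real.exp (|c i| * r) * (ρ ^ Fintype.card ι)⁻¹ * ρ ^ Fintype.card ι =
          r ^ k i * Real.exp (|c i| * r) := by
        field_simp
      rw [e1]
      have e2 : ∑ n ∈ range M, |a i n| * ρ ^ n ≤ 2 * (r * R) ^ k i * Real.exp (|c i| * (r * R)) := by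
        refine le_trans ?_ (ha2 i)
        apply sum_le_sum
        intro n _
        apply mul_le_mul_of_nonneg_left _ (abs_nonneg _)
        have : 0 ≤ (ρ⁻¹) ^ n := by positivity
        linarith
      have e3 : r ^ k i * Real.exp (|c i| * r) ≤ (r * R) ^ k i * Real.exp (|c i| * (r * R)) := by
        have hrR : r ≤ r * R := le_mul_of_one_le_right hr.le hR1
        apply mul_le_mul (pow_le_pow_left₀ hr.le hrR _) _ (by positivity) (by positivity)
        apply Real.exp_le_exp.2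
        exact mul_le_mul_of_nonneg_left hrR (abs_nonneg _)
      have e4 : 0 ≤ (r * R) ^ k i * Real.exp (|c i| * (r * R)) := by positivity
      nlinarith [e2, e3, e4]
  have hlim : Filter.Tendsto (fun S : ℕ =>
      |Matrix.det (fun i j => f S i (φ j) + f S i (φ j) * η i j)|) Filter.atTop
      (nhds |Matrix.det (fun i j => Z j ^ k i * Real.exp (c i * Z j) * (1 + η i j))|) := by
    apply Filter.Tendsto.abs
    have hcont : Continuous (fun A : Matrix ι ι ℝ => A.det) := continuous_id.matrix_det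
    have htend : Filter.Tendsto (fun S : ℕ => (fun i j => f S i (φ j) + f S i (φ j) * η i j :
        Matrix ι ι ℝ)) Filter.atTop
        (nhds (fun i j => Z j ^ k i * Real.exp (c i * Z j) * (1 + η i j))) := by
      rw [tendsto_pi_nhds]
      intro i
      rw [tendsto_pi_nhds]
      intro j
      have h1 : Filter.Tendsto (fun S : ℕ => f S i (φ j)) Filter.atTop
          (nhds (Z j ^ k i * Real.exp (c i * Z j))) := by
        simp only [f, hφ]
        apply Filter.Tendsto.const_mul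
        have := (NormedSpace.expSeries_div_hasSum_exp (𝔸 := ℝ) (c i * Z j)).tendsto_sum_nat
        rw [← Real.exp_eq_exp_ℝ] at this
        exact this
      have h2 := h1.add (h1.mul_const (η i j))
      refine h2.congr' ?_ |>.trans ?_
      · exact Filter.Eventually.of_forall (fun S => rfl)
      · apply le_of_eq
        congr 1
        ring
    exact (hcont.tendsto _).comp htend
  exact le_of_tendsto hlim (Filter.Eventually.of_forall hbound)

end Pool.Agent.MP_ffd2af_nt
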