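import Pool.Agent.MP_ffd2af_nt.Arith
import Pool.Agent.MP_ffd2af_nt.Cos

set_option autoImplicit false

namespace Pool.Agent.MP_ffd2af_nt

open Finset Matrix

/-- a lower bound for `n!` -/
theorem log_factorial_ge (n : ℕ) (hn : 1 ≤ n) :
    (n : ℝ) * Real.log n - n + 1 / 2 ≤ Real.log (n.factorial : ℝ) := by
  -- from Stirling: `√(2πn) (n/e)^n ≤ n!`
  have h := Stirling.le_factorial_stirling n
  have hn' : (1:ℝ) ≤ n := by exact_mod_cast hn
  have h1 : Real.log (Real.sqrt (2 * Real.pi * n) * (n / Real.exp 1) ^ n) ≤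
      Real.log (n.factorial : ℝ) := by
    apply Real.log_le_log _ h
    positivity
  rw [Real.log_mul (by positivity) (by positivity), Real.log_pow, Real.log_div (by positivity)
    (by positivity), Real.log_exp, Real.log_sqrt (by positivity)] at h1
  have h2 : 1 ≤ Real.log (2 * Real.pi * n) := by
    rw [Real.le_log_iff_exp_le (by positivity)]
    have h3 := Real.exp_one_lt_d9
    have h4 := Real.pi_gt_three
    nlinarith
  linarith

theorem sum_log_factorial_ge (K : ℕ) (hK : 1 ≤ K) :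
    (K : ℝ) * (K - 1) / 2 * (Real.log K - 3 / 2) ≤ ∑ k ∈ range K, Real.log (k.factorial : ℝ) := by
  induction K, hK using Nat.le_induction with
  | base => simp
  | succ K hK ih =>
    rw [sum_range_succ]
    have h1 := log_factorial_ge K hK
    have hK' : (1:ℝ) ≤ K := by exact_mod_cast hK
    have h2 : Real.log ((K + 1 : ℕ) : ℝ) ≤ Real.log K + 1 / K := by
      have h3 : Real.log (1 + 1 / K) ≤ 1 / K := by
        have := Real.log_le_sub_one_of_pos (show (0:ℝ) < 1 + 1 / K by positivity)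
        linarith
      have h4 : ((K + 1 : ℕ) : ℝ) = K * (1 + 1 / K) := by
        push_cast; field_simp
      rw [h4, Real.log_mul (by positivity) (by positivity)]
      linarith
    have h5 : ((K + 1 : ℕ) : ℝ) * (((K + 1 : ℕ) : ℝ) - 1) / 2 *
        (Real.log ((K + 1 : ℕ) : ℝ) - 3 / 2) ≤
        ((K:ℝ) + 1) * K / 2 * (Real.log K + 1 / K - 3 / 2) := by
      have e : ((K + 1 : ℕ) : ℝ) * (((K + 1 : ℕ) : ℝ) - 1) / 2 = ((K:ℝ) + 1) * K / 2 := by
        push_cast; ring
      rw [e]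
      apply mul_le_mul_of_nonneg_left _ (by positivity)
      linarith
    have h6 : ((K:ℝ) + 1) * K / 2 * (Real.log K + 1 / K - 3 / 2) =
        (K : ℝ) * (K - 1) / 2 * (Real.log K - 3 / 2) + (K * Real.log K - K + 1 / 2) := by
      have hK0 : (K:ℝ) ≠ 0 := by positivity
      field_simp
      ring
    linarith

theorem core_log (K L U V2 V q m b : ℕ) (hb : 1 ≤ b) (hq : 0 < q)
    (hcop : Nat.Coprime m q) (hU : U ≤ q) (hU1 : 1 ≤ U) (hV1 : 1 ≤ V2) (hK : 1 ≤ K) (hL : 1 ≤ L)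
    (hcount : (K - 1) * L < U * V2)
    (hV : V = V2 + L - 1) (a r β ρ R S1 : ℝ) (ha : a = (m : ℝ) / q)
    (hr : r = a * (((U : ℝ) - 1) / 2) + ((V : ℝ) - 1) / 2) (hr0 : 0 < r)
    (hβ : β = Real.log b) (hρ : 1 ≤ ρ) (hR : R = (ρ + ρ⁻¹) / 2)
    (hS1 : ∑ l ∈ range L, |(l : ℝ) - ((L : ℝ) - 1) / 2| ≤ S1)
    (hab : a * Real.log 2 ≤ β)
    (hsmall : 2 * ((((L : ℝ) - 1) / 2) * ((((U : ℝ) - 1) / 2) * (β - a * Real.log 2))) ≤
      (ρ ^ (K * L))⁻¹) :
    ((K * L : ℕ) : ℝ) * (((K * L : ℕ) : ℝ) - 1) / 2 * Real.log ρ ≤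
      L * ((K : ℝ) * (K - 1) / 2 * (Real.log (q * (r * R) / K) + 3 / 2)) +
      ((K * L : ℕ) : ℝ) * Real.log (4 * ((K * L : ℕ) : ℝ)) +
      Real.log 2 * (r * R) * K * S1 +
      (β * Real.sqrt ((K : ℝ) * ((L : ℝ) * (L ^ 2 - 1) / 12) *
            (V * ((U : ℝ) * (U ^ 2 - 1) / 12))) +
          Real.log 2 * Real.sqrt ((K : ℝ) * ((L : ℝ) * (L ^ 2 - 1) / 12) *
            (U * ((V : ℝ) * (V ^ 2 - 1) / 12)))) := by
  classical
  obtain ⟨s, hs⟩ := arith_lower K L U V2 q m b hb hq hcop hU hcount V hV a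
    (((U : ℝ) - 1) / 2) (((V : ℝ) - 1) / 2) (((L : ℝ) - 1) / 2) β ha rfl rfl rfl hβ
  set B1 := Real.sqrt ((K : ℝ) * ((L : ℝ) * (L ^ 2 - 1) / 12) *
            (V * ((U : ℝ) * (U ^ 2 - 1) / 12))) with hB1def
  set B2 := Real.sqrt ((K : ℝ) * ((L : ℝ) * (L ^ 2 - 1) / 12) *
            (U * ((V : ℝ) * (V ^ 2 - 1) / 12))) with hB2def
  set lam : ℝ := ((L : ℝ) - 1) / 2 with hlam
  set μ : ℝ := ((U : ℝ) - 1) / 2 with hμ
  set ν : ℝ := ((V : ℝ) - 1) / 2 with hν
  have hlog2 : 0 < Real.log 2 := Real.log_pos (by norm_num)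
  have hL1 : (1:ℝ) ≤ L := by exact_mod_cast hL
  have hU1' : (1:ℝ) ≤ U := by exact_mod_cast hU1
  have hVge : 1 ≤ V := by omega
  have hV1' : (1:ℝ) ≤ V := by exact_mod_cast hVge
  have hK1 : (1:ℝ) ≤ K := by exact_mod_cast hK
  have hqR : (0:ℝ) < q := by exact_mod_cast hq
  have ha0 : 0 ≤ a := by rw [ha]; positivity
  have hlam0 : 0 ≤ lam := by rw [hlam]; linarith
  have hμ0 : 0 ≤ μ := by rw [hμ]; linarith
  have hν0 : 0 ≤ ν := by rw [hν]; linarith
  have hρ0 : 0 < ρ := by linarith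
  have hρinv : 0 < ρ⁻¹ := inv_pos.2 hρ0
  have hR0 : 0 < R := by rw [hR]; positivity
  have hcard : Fintype.card (Fin K × Fin L) = K * L := by simp
  have hcentU : ∀ x : Fin U, |((x : ℕ) : ℝ) - μ| ≤ μ := by
    intro x
    have h1 : ((x : ℕ) : ℝ) + 1 ≤ U := by exact_mod_cast x.2
    have h2 : (0:ℝ) ≤ ((x : ℕ) : ℝ) := Nat.cast_nonneg _
    rw [abs_le]
    constructor <;> rw [hμ] <;> linarith
  have hcentV : ∀ x : Fin V, |((x : ℕ) : ℝ) - ν| ≤ ν := by
    intro x
    have h1 : ((x : ℕ) : ℝ) + 1 ≤ V := by exact_mod_cast x.2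
    have h2 : (0:ℝ) ≤ ((x : ℕ) : ℝ) := Nat.cast_nonneg _
    rw [abs_le]
    constructor <;> rw [hν] <;> linarith
  have hcentL : ∀ x : Fin L, |((x : ℕ) : ℝ) - lam| ≤ lam := by
    intro x
    have h1 : ((x : ℕ) : ℝ) + 1 ≤ L := by exact_mod_cast x.2
    have h2 : (0:ℝ) ≤ ((x : ℕ) : ℝ) := Nat.cast_nonneg _
    rw [abs_le]
    constructor <;> rw [hlam] <;> linarith
  -- apply the analytic bound
  let Z : Fin K × Fin L → ℝ := fun j => a * (((s j).1 : ℕ) - μ) + (((s j).2 : ℕ) - ν)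
  let η : Fin K × Fin L → Fin K × Fin L → ℝ := fun i j =>
    Real.exp ((((i.2 : ℕ) : ℝ) - lam) * ((((s j).1 : ℕ) - μ) * (β - a * Real.log 2))) - 1
  have hZ : ∀ j, |Z j| ≤ r := by
    intro j
    calc |Z j| ≤ |a * (((s j).1 : ℕ) - μ)| + |(((s j).2 : ℕ) : ℝ) - ν| := abs_add_le _ _
      _ ≤ a * μ + ν := by
          rw [abs_mul, abs_of_nonneg ha0]
          exact add_le_add (mul_le_mul_of_nonneg_left (hcentU _) ha0) (hcentV _)
      _ = r := by rw [hr]
  have hη : ∀ i j, |η i j| ≤ (ρ ^ Fintype.card (Fin K × Fin L))⁻¹ := by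
    intro i j
    rw [hcard]
    have hd : 0 ≤ β - a * Real.log 2 := by linarith
    have h1 : |(((i.2 : ℕ) : ℝ) - lam) * ((((s j).1 : ℕ) - μ) * (β - a * Real.log 2))| ≤
        lam * (μ * (β - a * Real.log 2)) := by
      rw [abs_mul, abs_mul, abs_of_nonneg hd]
      apply mul_le_mul (hcentL _) _ (by positivity) hlam0
      exact mul_le_mul_of_nonneg_right (hcentU _) hd
    have h2 : (ρ ^ (K * L))⁻¹ ≤ 1 := inv_le_one_of_one_le₀ (one_le_pow₀ hρ)
    have h3 : |(((i.2 : ℕ) : ℝ) - lam) * ((((s j).1 : ℕ) - μ) * (β - a * Real.log 2))| ≤ 1 := by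
      linarith
    have h4 := Real.abs_exp_sub_one_le h3
    simp only [η]
    linarith
  have han := det_exp_bound ρ r hρ hr0 (fun i : Fin K × Fin L => (i.1 : ℕ))
    (fun i => (((i.2 : ℕ) : ℝ) - lam) * Real.log 2) Z hZ η hη
  have hmat : (fun i j : Fin K × Fin L => Z j ^ (i.1 : ℕ) *
        Real.exp ((((i.2 : ℕ) : ℝ) - lam) * Real.log 2 * Z j) * (1 + η i j)) =
      (fun i j : Fin K × Fin L =>
        (a * (((s j).1 : ℕ) - μ) + (((s j).2 : ℕ) - ν)) ^ (i.1 : ℕ) *
        Real.exp ((((i.2 : ℕ) : ℝ) - lam) *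
          ((((s j).1 : ℕ) - μ) * β + (((s j).2 : ℕ) - ν) * Real.log 2))) := by
    funext i j
    simp only [Z, η]
    rw [add_sub_cancel, mul_assoc, ← Real.exp_add]
    congr 2
    ring
  rw [hmat] at han
  have htot := hs.trans han
  -- take logarithms
  set N := K * L with hN
  have hN1 : 1 ≤ N := Nat.mul_pos hK hL
  have hN1' : (1:ℝ) ≤ (N : ℝ) := by exact_mod_cast hN1
  have hposL : 0 < (∏ k : Fin K, ((k : ℕ).factorial : ℝ) * ((q : ℝ)⁻¹) ^ (k : ℕ)) ^ L := by
    apply pow_pos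
    apply prod_pos
    intro k _
    positivity
  have hlogL := Real.log_le_log (by positivity) htot
  rw [Real.log_mul (by positivity) (by positivity), Real.log_exp] at hlogL
  have hprodpos : ∀ i : Fin K × Fin L, 0 < 4 * (r * ((ρ + ρ⁻¹) / 2)) ^ (i.1 : ℕ) *
      Real.exp (|(((i.2 : ℕ) : ℝ) - lam) * Real.log 2| * (r * ((ρ + ρ⁻¹) / 2))) := by
    intro i
    rw [← hR]
    positivity
  rw [Real.log_mul (by positivity) (prod_pos (fun i _ => hprodpos i)).ne',
    Real.log_div (by positivity) (by positivity), Real.log_pow, Real.log_pow, hcard, ← hR] at hlogL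
  -- left product
  have hleft : Real.log (∏ k : Fin K, ((k : ℕ).factorial : ℝ) * ((q : ℝ)⁻¹) ^ (k : ℕ)) =
      ∑ k ∈ range K, Real.log (k.factorial : ℝ) - (K : ℝ) * (K - 1) / 2 * Real.log q := by
    rw [Real.log_prod (by intro k _; positivity)]
    have h1 : ∀ k : Fin K, Real.log (((k : ℕ).factorial : ℝ) * ((q : ℝ)⁻¹) ^ (k : ℕ)) =
        Real.log ((k : ℕ).factorial : ℝ) - (k : ℕ) * Real.log q := by
      intro k
      rw [Real.log_mul (by positivity) (by positivity), Real.log_pow, Real.log_inv]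
      ring
    simp only [h1]
    rw [sum_sub_distrib, ← Finset.sum_range (fun k => Real.log (k.factorial : ℝ)),
      ← Finset.sum_range (fun k => (k : ℝ) * Real.log q), ← sum_mul]
    congr 2
    have : ∀ n : ℕ, ∑ i ∈ range n, (i : ℝ) = (n : ℝ) * (n - 1) / 2 := by
      intro n
      induction n with
      | zero => simp
      | succ n ih => rw [sum_range_succ, ih]; push_cast; ring
    exact this K
  -- right product
  have hright : Real.log (∏ i : Fin K × Fin L, (4 * (r * R) ^ (i.1 : ℕ) *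
      Real.exp (|(((i.2 : ℕ) : ℝ) - lam) * Real.log 2| * (r * R)))) ≤
      N * Real.log 4 + L * ((K : ℝ) * (K - 1) / 2 * Real.log (r * R)) +
        Real.log 2 * (r * R) * K * S1 := by
    rw [Real.log_prod (by intro k _; positivity)]
    have h1 : ∀ i : Fin K × Fin L, Real.log (4 * (r * R) ^ (i.1 : ℕ) *
      Real.exp (|(((i.2 : ℕ) : ℝ) - lam) * Real.log 2| * (r * R))) =
        Real.log 4 + (i.1 : ℕ) * Real.log (r * R) +
          |((i.2 : ℕ) : ℝ) - lam| * (Real.log 2 * (r * R)) := by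
      intro i
      rw [Real.log_mul (by positivity) (by positivity), Real.log_mul (by positivity)
        (by positivity), Real.log_pow, Real.log_exp, abs_mul, abs_of_pos hlog2]
      ring
    simp only [h1]
    rw [sum_add_distrib, sum_add_distrib, sum_const, card_univ, hcard, nsmul_eq_mul]
    have h2 : ∑ i : Fin K × Fin L, ((i.1 : ℕ) : ℝ) * Real.log (r * R) =
        L * ((K : ℝ) * (K - 1) / 2 * Real.log (r * R)) := by
      rw [Fintype.sum_prod_type]
      simp only [sum_const, card_univ, Fintype.card_fin, nsmul_eq_mul]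
      rw [← mul_sum, ← Finset.sum_range (fun k => (k : ℝ) * Real.log (r * R)), ← sum_mul]
      have : ∀ n : ℕ, ∑ i ∈ range n, (i : ℝ) = (n : ℝ) * (n - 1) / 2 := by
        intro n
        induction n with
        | zero => simp
        | succ n ih => rw [sum_range_succ, ih]; push_cast; ring
      rw [this K]
    have h3 : ∑ i : Fin K × Fin L, |((i.2 : ℕ) : ℝ) - lam| * (Real.log 2 * (r * R)) ≤
        Real.log 2 * (r * R) * K * S1 := by
      rw [Fintype.sum_prod_type]
      simp only [sum_const, card_univ, Fintype.card_fin, nsmul_eq_mul]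
      rw [← sum_mul, ← Finset.sum_range (fun l => |(l : ℝ) - lam|)]
      have h4 := mul_le_mul_of_nonneg_right hS1
        (show 0 ≤ (K : ℝ) * (Real.log 2 * (r * R)) by positivity)
      calc _ = (∑ l ∈ range L, |(l : ℝ) - lam|) * ((K : ℝ) * (Real.log 2 * (r * R))) := by ring
        _ ≤ S1 * ((K : ℝ) * (Real.log 2 * (r * R))) := h4
        _ = _ := by ring
    rw [h2]
    linarith
  rw [hleft] at hlogL
  have hfact := sum_log_factorial_ge K hK
  have hNfact : Real.log (N.factorial : ℝ) ≤ N * Real.log N := by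
    rw [← Real.log_pow]
    apply Real.log_le_log (by positivity)
    exact_mod_cast Nat.factorial_le_pow N
  have hhalf : ((N * (N - 1) / 2 : ℕ) : ℝ) = (N : ℝ) * (N - 1) / 2 := by
    rw [Nat.cast_div (Nat.even_mul_pred_self N).two_dvd (by norm_num), Nat.cast_mul,
      Nat.cast_sub hN1]
    push_cast; ring
  rw [hhalf] at hlogL
  have hlog4N : Real.log (4 * (N : ℝ)) = Real.log 4 + Real.log N :=
    Real.log_mul (by norm_num) (by positivity)
  have hlogq : Real.log (q * (r * R) / K) = Real.log q + Real.log (r * R) - Real.log K := by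
    rw [Real.log_div (by positivity) (by positivity), Real.log_mul (by positivity) (by positivity)]
  rw [hlog4N, hlogq]
  have hfactL := mul_le_mul_of_nonneg_left hfact (show (0:ℝ) ≤ L by linarith)
  have e1 : (L : ℝ) * ((K : ℝ) * (K - 1) / 2 *
      (Real.log q + Real.log (r * R) - Real.log K + 3 / 2)) =
      L * ((K : ℝ) * (K - 1) / 2 * Real.log q) + L * ((K : ℝ) * (K - 1) / 2 * Real.log (r * R)) -
      L * ((K : ℝ) * (K - 1) / 2 * (Real.log K - 3 / 2)) := by ring
  rw [e1]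
  nlinarith [hlogL, hright, hNfact, hfactL]

end Pool.Agent.MP_ffd2af_nt
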