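import Mathlib

set_option autoImplicit false

namespace Pool.Agent.MP_ffd2af_nt

open Finset Matrix

/-- trivial bound for a determinant -/
theorem abs_det_le_of_rows {ι : Type*} [Fintype ι] [DecidableEq ι] (A : Matrix ι ι ℝ) (w : ι → ℝ)
    (hA : ∀ i j, |A i j| ≤ w i) : |A.det| ≤ (Fintype.card ι).factorial * ∏ i, w i := by
  rw [← Matrix.det_transpose, Matrix.det_apply]
  calc |∑ σ : Equiv.Perm ι, Equiv.Perm.sign σ • ∏ i, Aᵀ (σ i) i|
      ≤ ∑ σ : Equiv.Perm ι, |Equiv.Perm.sign σ • ∏ i, Aᵀ (σ i) i| := abs_sum_le_sum_abs _ _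
    _ ≤ ∑ _σ : Equiv.Perm ι, ∏ i, w i := by
        apply sum_le_sum
        intro σ _
        have h1 : |Equiv.Perm.sign σ • ∏ i, Aᵀ (σ i) i| = ∏ i, |A i (σ i)| := by
          rw [Units.smul_def, zsmul_eq_mul, abs_mul, abs_prod]
          have : |((Equiv.Perm.sign σ : ℤ) : ℝ)| = 1 := by
            rcases Int.units_eq_one_or (Equiv.Perm.sign σ) with h | h <;> simp [h]
          rw [this, one_mul]
          rfl
        rw [h1]
        exact prod_le_prod (fun i _ => abs_nonneg _) (fun i _ => hA i _)
    _ = (Fintype.card ι).factorial * ∏ i, w i := by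
        rw [sum_const, card_univ, Fintype.card_perm, nsmul_eq_mul]

theorem sum_range_card_le (S : Finset ℕ) : ∑ i ∈ range S.card, i ≤ ∑ x ∈ S, x := by
  induction S using Finset.induction_on_max with
  | empty => simp
  | insert a s ha ih =>
    have hnot : a ∉ s := fun h => lt_irrefl _ (ha a h)
    rw [card_insert_of_notMem hnot, sum_range_succ, sum_insert hnot, add_comm]
    have : s.card ≤ a := by
      have : s ⊆ range a := fun x hx => mem_range.2 (ha x hx)
      simpa using card_le_card this
    omega

/-- sum of distinct naturals -/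
theorem sum_ge_of_injOn {ι : Type*} [DecidableEq ι] (T : Finset ι) (ν : ι → ℕ)
    (h : Set.InjOn ν T) : T.card * (T.card - 1) / 2 ≤ ∑ i ∈ T, ν i := by
  have h1 : ∑ i ∈ T, ν i = ∑ x ∈ T.image ν, x := by
    rw [sum_image h]
  have h2 : (T.image ν).card = T.card := card_image_of_injOn h
  rw [h1, ← h2, ← Finset.sum_range_id]
  exact sum_range_card_le _

/-- the number of indices, weights: `ν i = M` counts for `N`. -/
theorem exponent_bound {ι : Type*} [Fintype ι] [DecidableEq ι] (M : ℕ) (ν : ι → ℕ)
    (h : ∀ i j, ν i < M → ν i = ν j → i = j) :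
    Fintype.card ι * (Fintype.card ι - 1) / 2 ≤
      ∑ i, (if ν i < M then ν i else Fintype.card ι) := by
  set N := Fintype.card ι with hN
  set T : Finset ι := univ.filter (fun i => ν i < M) with hT
  have h1 : ∑ i, (if ν i < M then ν i else N) = ∑ i ∈ T, ν i + (N - T.card) * N := by
    rw [Finset.sum_ite, sum_const, smul_eq_mul]
    congr 2
    rw [Finset.filter_not, card_sdiff_of_subset (subset_univ _), card_univ]
  have h2 : T.card * (T.card - 1) / 2 ≤ ∑ i ∈ T, ν i := by
    apply sum_ge_of_injOn
    intro i hi j _ hij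
    exact h i j (by simpa [hT] using hi) hij
  have h3 : T.card ≤ N := by rw [hN, ← card_univ]; exact card_le_card (subset_univ _)
  rw [h1]
  clear_value N
  generalize T.card = t at *
  clear h1 hT hN
  obtain ⟨d, rfl⟩ : ∃ d, N = t + d := ⟨N - t, by omega⟩
  have e1 : t + d - t = d := by omega
  rw [e1]
  refine le_trans ?_ (Nat.add_le_add_right h2 _)
  rw [Nat.div_le_iff_le_mul_add_pred (by norm_num)]
  have h4 : t * (t - 1) / 2 * 2 = t * (t - 1) := Nat.div_mul_cancel (by
    rcases Nat.eq_zero_or_pos t with h | h
    · simp [h]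
    · exact (Nat.even_mul_pred_self t).two_dvd)
  have h5 : 2 * (t * (t - 1) / 2 + d * (t + d)) = t * (t - 1) + 2 * (d * (t + d)) := by
    rw [mul_add, mul_comm 2 (t * (t-1)/2), h4]
  rw [h5]
  rcases Nat.eq_zero_or_pos t with h | h
  · subst h
    simp
    nlinarith [Nat.sub_le d 1]
  · obtain ⟨s, rfl⟩ : ∃ s, t = s + 1 := ⟨t - 1, by omega⟩
    have : s + 1 + d - 1 = s + d := by omega
    rw [this, Nat.add_sub_cancel]
    nlinarith

/-- Multilinear expansion bound.  Row `i` of the matrix is a cosine polynomial
`∑_{n<M} a i n cos(n φ_j)` plus an error `e i j`. -/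
theorem det_cos_bound {ι : Type*} [Fintype ι] [DecidableEq ι] (M : ℕ)
    (a : ι → ℕ → ℝ) (φ : ι → ℝ) (e : ι → ι → ℝ) (E : ι → ℝ) (ρ : ℝ) (hρ : 1 ≤ ρ)
    (he : ∀ i j, |e i j| ≤ E i) :
    |Matrix.det (fun i j => (∑ n ∈ range M, a i n * Real.cos (n * φ j)) + e i j)| ≤
      (Fintype.card ι).factorial / ρ ^ (Fintype.card ι * (Fintype.card ι - 1) / 2) *
      ∏ i, (∑ n ∈ range M, |a i n| * ρ ^ n + E i * ρ ^ (Fintype.card ι)) := by
  set N := Fintype.card ι with hN
  have hρ0 : (0:ℝ) < ρ := by linarith
  -- the family of vectors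
  let g : ι → ℕ → ι → ℝ := fun i n j => if n < M then a i n * Real.cos (n * φ j) else e i j
  have h0 : (fun i j => (∑ n ∈ range M, a i n * Real.cos (n * φ j)) + e i j) =
      fun i => ∑ n ∈ range (M + 1), g i n := by
    funext i j
    rw [Finset.sum_apply, sum_range_succ]
    congr 1
    · apply sum_congr rfl
      intro n hn
      simp only [g, if_pos (mem_range.1 hn)]
    · simp only [g, lt_irrefl, if_false]
  rw [h0]
  have h1 : Matrix.det (fun i => ∑ n ∈ range (M + 1), g i n) =
      ∑ ν ∈ Fintype.piFinset (fun _ : ι => range (M + 1)), Matrix.det (fun i => g i (ν i)) := by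
    have := (Matrix.detRowAlternating (n := ι) (R := ℝ)).toMultilinearMap.map_sum_finset
      (fun i n => g i n) (fun _ => range (M + 1))
    exact this
  rw [h1]
  let w : ι → ℕ → ℝ := fun i n => if n < M then |a i n| * ρ ^ n else E i * ρ ^ N
  have hE : ∀ i, 0 ≤ E i := fun i => (abs_nonneg _).trans (he i i)
  have hw : ∀ i n, 0 ≤ w i n := by
    intro i n
    simp only [w]
    split_ifs
    · positivity
    · exact mul_nonneg (hE i) (by positivity)
  have key : ∀ ν ∈ Fintype.piFinset (fun _ : ι => range (M + 1)),
      |Matrix.det (fun i => g i (ν i))| ≤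
        N.factorial / ρ ^ (N * (N - 1) / 2) * ∏ i, w i (ν i) := by
    intro ν hν
    by_cases hinj : ∀ i j, ν i < M → ν i = ν j → i = j
    · have h2 := exponent_bound M ν hinj
      rw [← hN] at h2
      have h3 : |Matrix.det (fun i => g i (ν i))| ≤
          N.factorial * ∏ i, (if ν i < M then |a i (ν i)| else E i) := by
        rw [hN]
        apply abs_det_le_of_rows
        intro i j
        simp only [g]
        split_ifs with h
        · rw [abs_mul]
          exact mul_le_of_le_one_right (abs_nonneg _) (Real.abs_cos_le_one _)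
        · exact he i j
      have h4 : ∏ i, w i (ν i) = (∏ i, (if ν i < M then |a i (ν i)| else E i)) *
          ρ ^ (∑ i, (if ν i < M then ν i else N)) := by
        rw [← Finset.prod_pow_eq_pow_sum, ← prod_mul_distrib]
        apply prod_congr rfl
        intro i _
        simp only [w]
        split_ifs <;> rfl
      have h5 : ρ ^ (N * (N - 1) / 2) ≤ ρ ^ (∑ i, (if ν i < M then ν i else N)) :=
        pow_le_pow_right₀ hρ h2
      have h6 : 0 ≤ ∏ i, (if ν i < M then |a i (ν i)| else E i) := by
        apply prod_nonneg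
        intro i _
        split_ifs
        · positivity
        · exact hE i
      calc |Matrix.det (fun i => g i (ν i))|
          ≤ N.factorial * ∏ i, (if ν i < M then |a i (ν i)| else E i) := h3
        _ = N.factorial / ρ ^ (N * (N - 1) / 2) *
            ((∏ i, (if ν i < M then |a i (ν i)| else E i)) * ρ ^ (N * (N - 1) / 2)) := by
            field_simp
        _ ≤ N.factorial / ρ ^ (N * (N - 1) / 2) * ∏ i, w i (ν i) := by
            rw [h4]
            apply mul_le_mul_of_nonneg_left _ (by positivity)
            exact mul_le_mul_of_nonneg_left h5 h6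
    · push Not at hinj
      obtain ⟨i, j, hi, hij, hne⟩ := hinj
      have : Matrix.det (fun i => g i (ν i)) = 0 := by
        -- rows i and j are proportional
        set A : Matrix ι ι ℝ := fun i => g i (ν i) with hA
        have hAi : A i = a i (ν i) • fun k => Real.cos (ν i * φ k) := by
          funext k
          simp only [hA, g, if_pos hi, Pi.smul_apply, smul_eq_mul]
        have hAj : A j = a j (ν i) • fun k => Real.cos (ν i * φ k) := by
          funext k
          simp only [hA, g, ← hij, if_pos hi, Pi.smul_apply, smul_eq_mul]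
        have h7 : A = (A.updateRow i (a i (ν i) • fun k => Real.cos (ν i * φ k))) := by
          rw [← hAi, Matrix.updateRow_eq_self]
        rw [h7, Matrix.det_updateRow_smul]
        by_cases hz : a j (ν i) = 0
        · have : A j = 0 := by rw [hAj, hz, zero_smul]
          rw [Matrix.det_eq_zero_of_row_eq_zero j, mul_zero]
          intro k
          rw [Matrix.updateRow_ne (Ne.symm hne), this]
          rfl
        · have h8 : (A.updateRow i (fun k => Real.cos (ν i * φ k))).det = 0 := by
            have h9 : (A.updateRow i (a j (ν i) • fun k => Real.cos (ν i * φ k))).det = 0 := by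
              apply Matrix.det_zero_of_row_eq hne
              rw [Matrix.updateRow_self, Matrix.updateRow_ne (Ne.symm hne), hAj]
            rw [Matrix.det_updateRow_smul] at h9
            exact (mul_eq_zero.1 h9).resolve_left hz
          rw [h8, mul_zero]
      rw [this, abs_zero]
      apply mul_nonneg (by positivity)
      exact prod_nonneg (fun i _ => hw _ _)
  calc |∑ ν ∈ Fintype.piFinset (fun _ : ι => range (M + 1)), Matrix.det (fun i => g i (ν i))|
      ≤ ∑ ν ∈ Fintype.piFinset (fun _ : ι => range (M + 1)),
          |Matrix.det (fun i => g i (ν i))| := abs_sum_le_sum_abs _ _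
    _ ≤ ∑ ν ∈ Fintype.piFinset (fun _ : ι => range (M + 1)),
          N.factorial / ρ ^ (N * (N - 1) / 2) * ∏ i, w i (ν i) := sum_le_sum key
    _ = N.factorial / ρ ^ (N * (N - 1) / 2) * ∏ i, ∑ n ∈ range (M + 1), w i n := by
        rw [← mul_sum, Finset.prod_univ_sum]
    _ = _ := by
        congr 1
        apply prod_congr rfl
        intro i _
        rw [sum_range_succ]
        congr 1
        · apply sum_congr rfl
          intro n hn
          simp only [w, if_pos (mem_range.1 hn)]
        · simp only [w, lt_irrefl, if_false]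

end Pool.Agent.MP_ffd2af_nt
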