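import Mathlib

set_option autoImplicit false

namespace Pool.Agent.MP_ffd2af_nt

open Finset Nat

/-- `a(n) = ∑_{i=1}^n (i!)^((n-i+1)!)`. -/
def a (n : ℕ) : ℕ := ∑ i ∈ Finset.Icc 1 n, (i !) ^ ((n - i + 1)!)

theorem a_split (n : ℕ) (hn : 2 ≤ n) :
    a n = 1 + 2 ^ ((n - 1)!) + ∑ i ∈ Finset.Icc 3 n, (i !) ^ ((n - i + 1)!) := by
  unfold a
  have h1 : Finset.Icc 1 n = insert 1 (insert 2 (Finset.Icc 3 n)) := by
    ext x
    simp only [Finset.mem_Icc, Finset.mem_insert]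
    omega
  rw [h1, Finset.sum_insert (by simp), Finset.sum_insert (by simp)]
  have h2 : n - 2 + 1 = n - 1 := by omega
  rw [h2]
  simp [add_assoc]

theorem a_lower (n : ℕ) (hn : 2 ≤ n) : 2 ^ ((n - 1)!) < a n := by
  rw [a_split n hn]
  omega

theorem fact_ge (k : ℕ) : 4 + k ≤ (3 + k)! := by
  induction k with
  | zero => decide
  | succ k ih =>
    have : (3 + (k + 1))! = (3 + k + 1) * (3 + k)! := rfl
    rw [this]
    nlinarith

theorem term_le (n k : ℕ) (hk : 3 + k ≤ n) :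
    ((3 + k)!) ^ ((n - (3 + k) + 1)!) ≤ 6 ^ ((n - 2)!) := by
  induction k with
  | zero =>
    have : n - (3 + 0) + 1 = n - 2 := by omega
    rw [this]
    simp [Nat.factorial]
  | succ k ih =>
    refine le_trans ?_ (ih (by omega))
    obtain ⟨j, hj⟩ : ∃ j, n - (3 + (k + 1)) + 1 = j + 1 := ⟨_, rfl⟩
    have h1 : n - (3 + k) + 1 = j + 1 + 1 := by omega
    rw [hj, h1]
    have h2 : (j + 1 + 1)! = (j + 2) * (j + 1)! := rfl
    rw [h2, pow_mul]
    apply Nat.pow_le_pow_left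
    have h3 : (3 + (k + 1))! = (3 + k + 1) * (3 + k)! := rfl
    have h4 := fact_ge k
    calc (3 + (k + 1))! = (3 + k + 1) * (3 + k)! := h3
      _ ≤ (3 + k)! * (3 + k)! := Nat.mul_le_mul_right _ (by omega)
      _ = ((3 + k)!) ^ 2 := by ring
      _ ≤ ((3 + k)!) ^ (j + 2) := Nat.pow_le_pow_right (Nat.factorial_pos _) (by omega)

theorem a_upper (n : ℕ) (hn : 3 ≤ n) : a n ≤ 2 ^ ((n - 1)!) + n * 6 ^ ((n - 2)!) := by
  rw [a_split n (by omega)]
  have h1 : ∑ i ∈ Finset.Icc 3 n, (i !) ^ ((n - i + 1)!) ≤ (n - 2) * 6 ^ ((n - 2)!) := by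
    have h2 : ∀ i ∈ Finset.Icc 3 n, (i !) ^ ((n - i + 1)!) ≤ 6 ^ ((n - 2)!) := by
      intro i hi
      rw [Finset.mem_Icc] at hi
      obtain ⟨k, rfl⟩ := Nat.exists_eq_add_of_le hi.1
      exact term_le n k hi.2
    have h3 := Finset.sum_le_card_nsmul _ _ _ h2
    have h4 : (Finset.Icc 3 n).card = n - 2 := by
      rw [Nat.card_Icc]
      omega
    rw [h4] at h3
    simpa using h3
  have h5 : 1 ≤ 6 ^ ((n - 2)!) := Nat.one_le_pow _ _ (by norm_num)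
  have h6 : n * 6 ^ ((n - 2)!) = (n - 2) * 6 ^ ((n - 2)!) + 2 * 6 ^ ((n - 2)!) := by
    rw [← add_mul]
    congr 1
    omega
  omega

theorem fact_split (n : ℕ) (hn : 2 ≤ n) : (n - 1)! = (n - 1) * (n - 2)! := by
  obtain ⟨k, rfl⟩ := Nat.exists_eq_add_of_le hn
  have h1 : 2 + k - 1 = k + 1 := by omega
  have h2 : 2 + k - 2 = k := by omega
  rw [h1, h2]
  rfl

theorem le_fact_add (n : ℕ) (hn : 5 ≤ n) : n ≤ (n - 2)! := by
  obtain ⟨k, rfl⟩ := Nat.exists_eq_add_of_le hn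
  have h2 : 5 + k - 2 = 3 + k := by omega
  rw [h2]
  induction k with
  | zero => decide
  | succ k ih =>
    have : (3 + (k + 1))! = (3 + k + 1) * (3 + k)! := rfl
    rw [this]
    have := ih (by omega) (by omega)
    nlinarith

theorem rem_lt (n : ℕ) (hn : 5 ≤ n) : n * 6 ^ ((n - 2)!) < 2 ^ ((n - 1)!) := by
  rw [fact_split n (by omega), pow_mul]
  have h1 : (2:ℕ) ^ 4 ≤ 2 ^ (n - 1) := Nat.pow_le_pow_right (by norm_num) (by omega)
  have h2 : n < 2 ^ ((n - 2)!) := lt_of_le_of_lt (le_fact_add n hn) Nat.lt_two_pow_self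
  calc n * 6 ^ ((n - 2)!) < 2 ^ ((n - 2)!) * 6 ^ ((n - 2)!) := by
        apply Nat.mul_lt_mul_of_pos_right h2 (by positivity)
    _ = 12 ^ ((n - 2)!) := by rw [← mul_pow]; norm_num
    _ ≤ (2 ^ (n - 1)) ^ ((n - 2)!) := Nat.pow_le_pow_left (by linarith) _

theorem a_lt (n : ℕ) (hn : 5 ≤ n) : a n < 2 ^ ((n - 1)! + 1) := by
  have h1 := a_upper n (by omega)
  have h2 := rem_lt n hn
  rw [pow_succ]
  omega

theorem succ_pow_ge (x s : ℕ) : x ^ (s + 1) + (s + 1) * x ^ s ≤ (x + 1) ^ (s + 1) := by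
  induction s with
  | zero => simp
  | succ s ih =>
    calc x ^ (s + 1 + 1) + (s + 1 + 1) * x ^ (s + 1)
        ≤ (x + 1) * (x ^ (s + 1) + (s + 1) * x ^ s) := by
          have : (x + 1) * (x ^ (s + 1) + (s + 1) * x ^ s) =
            x ^ (s + 1 + 1) + (s + 1 + 1) * x ^ (s + 1) + (s + 1) * x ^ s := by ring
          rw [this]
          exact Nat.le_add_right _ _
      _ ≤ (x + 1) * (x + 1) ^ (s + 1) := Nat.mul_le_mul_left _ ih
      _ = (x + 1) ^ (s + 1 + 1) := by ring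

theorem three_mul_le_fact (n : ℕ) (hn : 7 ≤ n) : 3 * n ≤ (n - 2)! := by
  obtain ⟨k, rfl⟩ := Nat.exists_eq_add_of_le hn
  have h2 : 7 + k - 2 = 5 + k := by omega
  rw [h2]
  induction k with
  | zero => decide
  | succ k ih =>
    have : (5 + (k + 1))! = (5 + k + 1) * (5 + k)! := rfl
    rw [this]
    have := ih (by omega) (by omega)
    nlinarith

theorem six_lt_eight (n : ℕ) (hn : 7 ≤ n) : n * 6 ^ ((n - 2)!) < 2 * 8 ^ ((n - 2)!) := by
  obtain ⟨j, hj⟩ : 3 ∣ (n - 2)! := Nat.dvd_factorial (by norm_num) (by omega)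
  have h1 := three_mul_le_fact n hn
  have h2 : n ≤ j := by omega
  rw [hj, pow_mul, pow_mul]
  have h3 : n < 2 ^ j := lt_of_le_of_lt h2 Nat.lt_two_pow_self
  calc n * (6 ^ 3) ^ j < 2 ^ j * (6 ^ 3) ^ j :=
        Nat.mul_lt_mul_of_pos_right h3 (by positivity)
    _ = 432 ^ j := by rw [← mul_pow]; norm_num
    _ ≤ (8 ^ 3) ^ j := Nat.pow_le_pow_left (by norm_num) _
    _ ≤ 2 * (8 ^ 3) ^ j := Nat.le_mul_of_pos_left _ (by norm_num)

/-- Exponents below `n` are impossible for `n ≥ 7`. -/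
theorem small_exp (n q b : ℕ) (hn : 7 ≤ n) (hq2 : 2 ≤ q) (hqn : q ≤ n - 1) : a n ≠ b ^ q := by
  intro hab
  obtain ⟨t, ht⟩ : q ∣ (n - 1)! := Nat.dvd_factorial (by omega) hqn
  have hlow := a_lower n (by omega)
  have hup := a_upper n (by omega)
  rw [hab, ht] at hlow
  rw [hab] at hup
  have h1 : 2 ^ t < b := by
    by_contra h
    push Not at h
    have := Nat.pow_le_pow_left h q
    rw [← pow_mul, mul_comm t q] at this
    omega
  have h2 : (2 ^ t + 1) ^ q ≤ b ^ q := Nat.pow_le_pow_left h1 q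
  obtain ⟨s, rfl⟩ : ∃ s, q = s + 1 := ⟨q - 1, by omega⟩
  have h3 := succ_pow_ge (2 ^ t) s
  have h4 : 3 * (n - 2)! ≤ t * s := by
    have e1 := fact_split n (by omega)
    have e2 : 6 * (n - 2)! ≤ (n - 1) * (n - 2)! := Nat.mul_le_mul_right _ (by omega)
    have e3 : (s + 1) * t ≤ 2 * (t * s) := by
      have : t * 1 ≤ t * s := Nat.mul_le_mul_left _ (by omega)
      calc (s + 1) * t = t * s + t * 1 := by ring
        _ ≤ 2 * (t * s) := by omega
    omega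
  have h5 : 8 ^ ((n - 2)!) ≤ (2 ^ t) ^ s := by
    rw [← pow_mul]
    calc 8 ^ ((n - 2)!) = 2 ^ (3 * (n - 2)!) := by rw [pow_mul]; norm_num
      _ ≤ 2 ^ (t * s) := Nat.pow_le_pow_right (by norm_num) h4
  have h6 := six_lt_eight n hn
  have h7 : 2 * 8 ^ ((n - 2)!) ≤ (s + 1) * (2 ^ t) ^ s := Nat.mul_le_mul (by omega) h5
  have h8 : (2 ^ t) ^ (s + 1) = 2 ^ ((n - 1)!) := by rw [← pow_mul, mul_comm t, ht]
  omega

/-- Powers of two dividing the terms. -/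
theorem dvd_term (n i : ℕ) (hn : 8 ≤ n) (h2 : 2 ≤ i) (hin : i ≤ n) :
    2 ^ 7 ∣ (i !) ^ ((n - i + 1)!) := by
  rcases le_or_gt 8 i with h8 | h8
  · have h1 : 8 ! ∣ i ! := Nat.factorial_dvd_factorial h8
    have h3 : 2 ^ 7 ∣ 8 ! := by decide
    exact dvd_pow (h3.trans h1) (Nat.factorial_ne_zero _)
  · have hk : (9 - i)! ≤ (n - i + 1)! := Nat.factorial_le (by omega)
    have h4 : (i !) ^ ((9 - i)!) ∣ (i !) ^ ((n - i + 1)!) := pow_dvd_pow _ hk
    refine dvd_trans ?_ h4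
    interval_cases i
    · exact pow_dvd_pow 2 (by decide)
    · have : (2:ℕ) ^ 7 ∣ 2 ^ ((9 - 3)!) := pow_dvd_pow 2 (by decide)
      exact this.trans (pow_dvd_pow_of_dvd (by decide) _)
    · have : (2:ℕ) ^ 7 ∣ 2 ^ ((9 - 4)!) := pow_dvd_pow 2 (by decide)
      exact this.trans (pow_dvd_pow_of_dvd (by decide) _)
    · have : (2:ℕ) ^ 7 ∣ 2 ^ ((9 - 5)!) := pow_dvd_pow 2 (by decide)
      exact this.trans (pow_dvd_pow_of_dvd (by decide) _)
    · have : (2 ^ 4:ℕ) ^ 2 ∣ (6 !) ^ 2 := pow_dvd_pow_of_dvd (by decide) _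
      have h5 : (2:ℕ) ^ 7 ∣ (2 ^ 4) ^ 2 := by decide
      have h6 : (6 !) ^ 2 ∣ (6 !) ^ ((9 - 6)!) := pow_dvd_pow _ (by decide)
      exact h5.trans (this.trans h6)
    · have : (2 ^ 4:ℕ) ^ 2 ∣ (7 !) ^ 2 := pow_dvd_pow_of_dvd (by decide) _
      have h5 : (2:ℕ) ^ 7 ∣ (2 ^ 4) ^ 2 := by decide
      have h6 : (7 !) ^ 2 ∣ (7 !) ^ ((9 - 7)!) := pow_dvd_pow _ (by decide)
      exact h5.trans (this.trans h6)

theorem a_mod (n : ℕ) (hn : 8 ≤ n) : a n ≡ 1 [MOD 2 ^ 7] := by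
  have h1 : a n = 1 + ∑ i ∈ Finset.Icc 2 n, (i !) ^ ((n - i + 1)!) := by
    unfold a
    have h1 : Finset.Icc 1 n = insert 1 (Finset.Icc 2 n) := by
      ext x
      simp only [Finset.mem_Icc, Finset.mem_insert]
      omega
    rw [h1, Finset.sum_insert (by simp)]
    simp
  have h2 : 2 ^ 7 ∣ ∑ i ∈ Finset.Icc 2 n, (i !) ^ ((n - i + 1)!) := by
    apply Finset.dvd_sum
    intro i hi
    rw [Finset.mem_Icc] at hi
    exact dvd_term n i hn hi.1 hi.2
  rw [h1]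
  exact (Nat.modEq_zero_iff_dvd.2 h2).add_left 1

theorem base_large (n q b : ℕ) (hn : 8 ≤ n) (hq : q.Prime) (hqn : n ≤ q) (hb : 2 ≤ b)
    (hab : a n = b ^ q) : 129 ≤ b := by
  have h1 : b ^ q ≡ 1 [MOD 2 ^ 7] := hab ▸ a_mod n hn
  have h2 : ((b : ZMod 128)) ^ q = 1 := by
    have := (ZMod.natCast_eq_natCast_iff _ _ 128).2 h1
    push_cast at this
    exact this
  obtain ⟨u, hu⟩ : IsUnit (b : ZMod 128) := IsUnit.of_pow_eq_one h2 (by omega)
  have h3 : u ^ q = 1 := by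
    ext
    rw [Units.val_pow_eq_pow_val, hu, h2, Units.val_one]
  have h4 : u ^ 64 = 1 := by
    have := ZMod.pow_totient u
    have h5 : Nat.totient 128 = 64 := by decide
    rwa [h5] at this
  have h5 : orderOf u ∣ q := orderOf_dvd_of_pow_eq_one h3
  have h6 : orderOf u ∣ 64 := orderOf_dvd_of_pow_eq_one h4
  have h7 : Nat.Coprime q 64 := by
    rw [Nat.Prime.coprime_iff_not_dvd hq]
    intro h
    have : q ∣ 2 ^ 6 := by norm_num; exact h
    have := (Nat.Prime.dvd_of_dvd_pow hq this)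
    have := Nat.le_of_dvd (by norm_num) this
    omega
  have h8 : orderOf u = 1 := Nat.dvd_one.1 (h7 ▸ Nat.dvd_gcd h5 h6)
  rw [orderOf_eq_one_iff] at h8
  rw [h8, Units.val_one] at hu
  have h9 : b ≡ 1 [MOD 128] := by
    apply (ZMod.natCast_eq_natCast_iff _ _ 128).1
    push_cast
    exact hu.symm
  unfold Nat.ModEq at h9
  omega

theorem exp_le (n q b : ℕ) (hn : 8 ≤ n) (hq : q.Prime) (hqn : n ≤ q) (hb : 2 ≤ b)
    (hab : a n = b ^ q) : 7 * q ≤ (n - 1)! := by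
  have h1 := base_large n q b hn hq hqn hb hab
  have h2 := a_lt n (by omega)
  rw [hab] at h2
  have h3 : (2 ^ 7) ^ q ≤ b ^ q := Nat.pow_le_pow_left (by omega) q
  rw [← pow_mul] at h3
  have h4 := lt_of_le_of_lt h3 h2
  have := (Nat.pow_lt_pow_iff_right (by norm_num)).1 h4
  omega

end Pool.Agent.MP_ffd2af_nt
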