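import Pool.Agent.MP_ffd2af_nt.NoSol
import Pool.Agent.MP_ffd2af_nt.Seq

set_option autoImplicit false

namespace Pool.Agent.MP_ffd2af_nt

open Finset Nat

theorem exp_neg_ten : Real.exp (-10) ≤ 1 / 10000 := by
  have h1 := Real.exp_one_gt_d9
  have h2 : Real.exp 10 = (Real.exp 1) ^ 10 := by rw [← Real.exp_nat_mul]; norm_num
  have h3 : (2.7:ℝ) ^ 10 ≤ (Real.exp 1) ^ 10 := pow_le_pow_left₀ (by norm_num) (by linarith) 10
  rw [Real.exp_neg, h2]
  rw [inv_eq_one_div]
  apply one_div_le_one_div_of_le (by norm_num)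
  refine le_trans ?_ h3
  norm_num

theorem excl (n q b L U : ℕ) (ρ a0 κ0 S1 R : ℝ)
    (hn : 8 ≤ n) (hq : q.Prime) (hnq : n ≤ q) (hb : 2 ≤ b) (hab : a n = b ^ q)
    (hL : 2 ≤ L) (hU : 2 ≤ U) (hUq : U ≤ q) (hLU : L * U ≤ 2 * q)
    (ha1 : 1 ≤ a0) (ha0 : a0 * q ≤ ((n - 1)! : ℕ)) (hLa : (L : ℝ) + 1 ≤ a0 * U)
    (hκ : 0 < κ0) (hκ0 : κ0 ≤ (U : ℝ) ^ 2 / L - (U + 1) / a0)
    (hρ : 1 < ρ) (hR : R = (ρ + ρ⁻¹) / 2)
    (hS1 : ∑ l ∈ range L, |(l : ℝ) - ((L : ℝ) - 1) / 2| ≤ S1)
    (hten : 10 ≤ (U : ℝ) ^ 2 * Real.log ρ)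
    (hdel : (U : ℝ) ^ 2 * Real.log ρ + Real.log q / a0 ≤
      q * (Real.log 2 - Real.log 6 / ((n : ℝ) - 1)))
    (hnum : Real.log (q * (((U : ℝ) - 1 / 2) / κ0) * R) + 3 / 2 +
      2 * Real.log (4 * a0 * (U : ℝ) ^ 2) / (κ0 * a0) +
      2 * Real.log 2 * R * S1 * (((U : ℝ) - 1 / 2) / κ0) / L +
      (1 + ((L : ℝ) - 1) / (a0 * U - L)) * (L * (U * (2 * Real.log 2 + 1 / 10000) / (6 * κ0))) <
      L * Real.log ρ) : False := by
  have hq0 : 0 < q := hq.pos
  have hqR : (0:ℝ) < q := by exact_mod_cast hq0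
  set m := (n - 1)! with hm
  set k := (n - 2)! with hk
  have hmk : m = (n - 1) * k := fact_split n (by omega)
  have hmkR : (m : ℝ) = ((n : ℝ) - 1) * k := by
    rw [hmk]; push_cast [Nat.cast_sub (show 1 ≤ n by omega)]; ring
  have hn1 : (0:ℝ) < (n : ℝ) - 1 := by
    have : (8:ℝ) ≤ n := by exact_mod_cast hn
    linarith
  have hnR : (0:ℝ) < n := by linarith
  have hm0 : (0:ℝ) < m := by exact_mod_cast Nat.factorial_pos _
  set δ : ℝ := n * 6 ^ k / 2 ^ m with hδ
  have hδ0 : 0 < δ := by rw [hδ]; positivity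
  have hcop : Nat.Coprime m q := by
    rw [Nat.coprime_comm, Nat.Prime.coprime_iff_not_dvd hq, hm, Nat.Prime.dvd_factorial hq]
    omega
  have hlow : (2:ℝ) ^ m ≤ (b : ℝ) ^ q := by
    have := a_lower n (by omega)
    rw [hab] at this
    exact_mod_cast this.le
  have hup : (b : ℝ) ^ q ≤ 2 ^ m * (1 + δ) := by
    have := a_upper n (by omega)
    rw [hab] at this
    have h2 : (b : ℝ) ^ q ≤ 2 ^ m + n * 6 ^ k := by exact_mod_cast this
    have h3 : (2:ℝ) ^ m * (1 + δ) = 2 ^ m + n * 6 ^ k := by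
      rw [hδ]; field_simp
    linarith
  have haq : a0 ≤ (m : ℝ) / q := by rw [le_div_iff₀ hqR]; exact ha0
  have hlogδ : Real.log δ = Real.log n + k * Real.log 6 - m * Real.log 2 := by
    rw [hδ, Real.log_div (by positivity) (by positivity), Real.log_mul (by positivity)
      (by positivity), Real.log_pow, Real.log_pow]
  have hlogq : Real.log n ≤ Real.log q := by
    apply Real.log_le_log hnR
    exact_mod_cast hnq
  have hlogq0 : 0 ≤ Real.log q := Real.log_natCast_nonneg q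
  have hδle : δ ≤ Real.exp (-((m : ℝ) / q * (U : ℝ) ^ 2 * Real.log ρ)) := by
    rw [← Real.exp_log hδ0, Real.exp_le_exp, hlogδ]
    have h1 : (m : ℝ) / q * ((U : ℝ) ^ 2 * Real.log ρ + Real.log q / a0) ≤
        (m : ℝ) / q * (q * (Real.log 2 - Real.log 6 / ((n : ℝ) - 1))) :=
      mul_le_mul_of_nonneg_left hdel (by positivity)
    have h2 : (m : ℝ) / q * (q * (Real.log 2 - Real.log 6 / ((n : ℝ) - 1))) =
        m * Real.log 2 - k * Real.log 6 := by
      have : (m : ℝ) / q * (q * (Real.log 2 - Real.log 6 / ((n : ℝ) - 1))) =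
        m * (Real.log 2 - Real.log 6 / ((n : ℝ) - 1)) := by field_simp
      rw [this, mul_sub]
      congr 1
      rw [hmkR]
      field_simp
    have h3 : Real.log q ≤ (m : ℝ) / q * (Real.log q / a0) := by
      have h4 : (m : ℝ) / q * (Real.log q / a0) = ((m : ℝ) / q / a0) * Real.log q := by ring
      have h5 : 1 ≤ (m : ℝ) / q / a0 := by rw [le_div_iff₀ (by linarith)]; linarith
      rw [h4]
      exact le_mul_of_one_le_left hlogq0 h5
    have h6 : (m : ℝ) / q * ((U : ℝ) ^ 2 * Real.log ρ + Real.log q / a0) =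
      (m : ℝ) / q * (U : ℝ) ^ 2 * Real.log ρ + (m : ℝ) / q * (Real.log q / a0) := by ring
    linarith
  have hδ4 : δ ≤ 1 / 10000 := by
    refine le_trans hδle (le_trans ?_ exp_neg_ten)
    rw [Real.exp_le_exp]
    have h1 : 1 * ((U : ℝ) ^ 2 * Real.log ρ) ≤ (m : ℝ) / q * ((U : ℝ) ^ 2 * Real.log ρ) :=
      mul_le_mul_of_nonneg_right (by linarith) (by linarith)
    have h2 : (m : ℝ) / q * ((U : ℝ) ^ 2 * Real.log ρ) =
      (m : ℝ) / q * (U : ℝ) ^ 2 * Real.log ρ := by ring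
    linarith
  exact no_sol q m b U L ρ a0 κ0 S1 R δ ((m : ℝ) / q) (by omega) hq0 hcop hUq hL hU hLU rfl ha1 haq
    hLa hκ hκ0 hρ hR hS1 hlow hδ0.le hup hδle hδ4 hnum

/-- Upper bound for a logarithm from a power of two. -/
theorem log_le_of_pow (x : ℝ) (k p : ℕ) (hx : 0 < x) (hk : 0 < k) (h : x ^ k ≤ 2 ^ p) :
    Real.log x ≤ (p : ℝ) / k * Real.log 2 := by
  have h1 := Real.log_le_log (by positivity) h
  rw [Real.log_pow, Real.log_pow] at h1
  have hk' : (0:ℝ) < k := by exact_mod_cast hk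
  have h2 : Real.log x ≤ (p * Real.log 2) / k := by
    rw [le_div_iff₀ hk']; linarith
  calc Real.log x ≤ (p * Real.log 2) / k := h2
    _ = _ := by ring

/-- Lower bound for a logarithm from a power of two. -/
theorem le_log_of_pow (x : ℝ) (k p : ℕ) (hk : 0 < k) (h : (2:ℝ) ^ p ≤ x ^ k) :
    (p : ℝ) / k * Real.log 2 ≤ Real.log x := by
  have h1 := Real.log_le_log (by positivity) h
  rw [Real.log_pow, Real.log_pow] at h1
  have hk' : (0:ℝ) < k := by exact_mod_cast hk
  have h2 : (p * Real.log 2) / k ≤ Real.log x := by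
    rw [div_le_iff₀ hk']; linarith
  calc (p : ℝ) / k * Real.log 2 = (p * Real.log 2) / k := by ring
    _ ≤ _ := h2

theorem sum_abs_nine : ∑ l ∈ range 9, |(l : ℝ) - (((9:ℕ) : ℝ) - 1) / 2| ≤ 20 := by
  norm_num [Finset.sum_range_succ, abs_of_nonneg, abs_of_neg]

theorem sum_abs_ten : ∑ l ∈ range 10, |(l : ℝ) - (((10:ℕ) : ℝ) - 1) / 2| ≤ 25 := by
  have := sum_abs_centered_le 10
  refine this.trans ?_
  norm_num

theorem log_six_le : Real.log 6 ≤ 13 / 5 * Real.log 2 := by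
  have := log_le_of_pow 6 5 13 (by norm_num) (by norm_num) (by norm_num)
  exact_mod_cast this

theorem fact_big (n : ℕ) (hn : 11 ≤ n) : (3628800:ℝ) ≤ ((n - 1)! : ℕ) := by
  have : 10 ! ≤ (n - 1)! := Nat.factorial_le (by omega)
  have h2 : 10 ! = 3628800 := by decide
  rw [h2] at this
  exact_mod_cast this

theorem fact_big' (n : ℕ) (hn : 10 ≤ n) : (362880:ℝ) ≤ ((n - 1)! : ℕ) := by
  have : 9 ! ≤ (n - 1)! := Nat.factorial_le (by omega)
  have h2 : 9 ! = 362880 := by decide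
  rw [h2] at this
  exact_mod_cast this

theorem log_six_div (n : ℕ) (n0 : ℝ) (hn0 : 0 < n0) (hn : n0 ≤ (n : ℝ) - 1) :
    Real.log 6 / ((n : ℝ) - 1) ≤ (13 / 5 * Real.log 2) / n0 := by
  have h1 : (0:ℝ) ≤ Real.log 6 := Real.log_nonneg (by norm_num)
  calc Real.log 6 / ((n : ℝ) - 1) ≤ Real.log 6 / n0 :=
        div_le_div_of_nonneg_left h1 hn0 hn
    _ ≤ _ := div_le_div_of_nonneg_right log_six_le hn0.le

theorem case1_num (A B l r : ℝ) (hA : A ≤ 201 / 20 * l) (hB : B ≤ 20 / 1 * l)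
    (hl1 : 0.6931471803 < l) (hl2 : l < 0.6931471808) (hr : 90 / 37 * l ≤ r) :
    A + 3 / 2 + 2 * B / (2176 / 100 * 1000) +
      2 * l * ((27 / 5 + (27 / 5)⁻¹) / 2) * 20 * ((14 - 1 / 2) / (2176 / 100)) / 9 +
      (1 + (9 - 1) / (1000 * 14 - 9)) *
        (9 * (14 * (2 * l + 1 / 10000) / (6 * (2176 / 100)))) < 9 * r := by
  norm_num
  linarith

theorem case1 (n q b : ℕ) (hn : 50 ≤ n) (hq : q.Prime) (hnq : n ≤ q) (hb : 2 ≤ b)
    (hab : a n = b ^ q) (h1 : 504 ≤ q) (h2 : q ≤ 592) : False := by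
  have hl1 := Real.log_two_gt_d9
  have hl2 := Real.log_two_lt_d9
  have hρl : (90:ℝ) / 37 * Real.log 2 ≤ Real.log (27 / 5) := by
    exact_mod_cast le_log_of_pow (27 / 5) 37 90 (by norm_num) (by norm_num)
  have hρu : Real.log (27 / 5) ≤ (73:ℝ) / 30 * Real.log 2 := by
    exact_mod_cast log_le_of_pow (27 / 5) 30 73 (by norm_num) (by norm_num) (by norm_num)
  have hq1 : (504:ℝ) ≤ q := by exact_mod_cast h1
  have hq2 : (q:ℝ) ≤ 592 := by exact_mod_cast h2
  have hn' : (50:ℝ) ≤ n := by exact_mod_cast hn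
  have hf := fact_big n (by omega)
  have hlq : Real.log q ≤ 10 * Real.log 2 := by
    have : Real.log q ≤ Real.log (2 ^ 10) := Real.log_le_log (by linarith) (by linarith)
    rwa [Real.log_pow] at this
  have h6 := log_six_div n 49 (by norm_num) (by linarith)
  apply excl n q b 9 14 (27 / 5) 1000 (2176 / 100) 20 ((27 / 5 + (27 / 5)⁻¹) / 2) (by omega) hq hnq
    hb hab (by norm_num) (by norm_num) (by omega) (by omega) (by norm_num) (by linarith)
    (by norm_num) (by norm_num) (by norm_num) (by norm_num) rfl sum_abs_nine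
  · push_cast; linarith
  · push_cast
    have h7 : q * (Real.log 2 - Real.log 6 / ((n : ℝ) - 1)) ≥
        504 * (Real.log 2 - (13 / 5 * Real.log 2) / 49) := by
      apply mul_le_mul hq1 (by linarith) _ (by linarith)
      linarith
    linarith
  · have hA : Real.log (q * (((14:ℝ) - 1 / 2) / (2176 / 100)) * ((27 / 5 + (27 / 5)⁻¹) / 2))
        ≤ (201:ℝ) / 20 * Real.log 2 := by
      have e1 : Real.log (q * (((14:ℝ) - 1 / 2) / (2176 / 100)) *
          ((27 / 5 + (27 / 5)⁻¹) / 2)) ≤ Real.log (592 * (((14:ℝ) - 1 / 2) / (2176 / 100)) *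
          ((27 / 5 + (27 / 5)⁻¹) / 2)) := by
        apply Real.log_le_log (by norm_num; linarith)
        apply mul_le_mul_of_nonneg_right _ (by norm_num)
        apply mul_le_mul_of_nonneg_right hq2 (by norm_num)
      refine e1.trans ?_
      exact_mod_cast log_le_of_pow _ 20 201 (by norm_num) (by norm_num) (by norm_num)
    have hB : Real.log (4 * 1000 * (14:ℝ) ^ 2) ≤ (20:ℝ) / 1 * Real.log 2 := by
      exact (log_le_of_pow (4 * 1000 * (14:ℝ) ^ 2) 1 20 (by norm_num) (by norm_num)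
        (by norm_num)).trans_eq (by norm_num)
    exact_mod_cast case1_num _ _ _ _ hA hB hl1 hl2 hρl

theorem case2_num (A B l r : ℝ) (hA : A ≤ 181 / 17 * l) (hB : B ≤ 19 / 1 * l)
    (hl1 : 0.6931471803 < l) (hl2 : l < 0.6931471808) (hr : 161 / 62 * l ≤ r) :
    A + 3 / 2 + 2 * B / (2174 / 100 * 500) +
      2 * l * ((605 / 100 + (605 / 100)⁻¹) / 2) * 20 * ((14 - 1 / 2) / (2174 / 100)) / 9 +
      (1 + (9 - 1) / (500 * 14 - 9)) *
        (9 * (14 * (2 * l + 1 / 10000) / (6 * (2174 / 100)))) < 9 * r := by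
  norm_num
  linarith

theorem case2 (n q b : ℕ) (hn : 20 ≤ n) (hq : q.Prime) (hnq : n ≤ q) (hb : 2 ≤ b)
    (hab : a n = b ^ q) (h1 : 593 ≤ q) (h2 : q ≤ 830) : False := by
  have hl1 := Real.log_two_gt_d9
  have hl2 := Real.log_two_lt_d9
  have hρl : (161:ℝ) / 62 * Real.log 2 ≤ Real.log (605 / 100) := by
    exact_mod_cast le_log_of_pow (605 / 100) 62 161 (by norm_num) (by norm_num)
  have hρu : Real.log (605 / 100) ≤ (13:ℝ) / 5 * Real.log 2 := by
    exact_mod_cast log_le_of_pow (605 / 100) 5 13 (by norm_num) (by norm_num) (by norm_num)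
  have hq1 : (593:ℝ) ≤ q := by exact_mod_cast h1
  have hq2 : (q:ℝ) ≤ 830 := by exact_mod_cast h2
  have hn' : (20:ℝ) ≤ n := by exact_mod_cast hn
  have hf := fact_big n (by omega)
  have hlq : Real.log q ≤ 10 * Real.log 2 := by
    have : Real.log q ≤ Real.log (2 ^ 10) := Real.log_le_log (by linarith) (by linarith)
    rwa [Real.log_pow] at this
  have h6 := log_six_div n 19 (by norm_num) (by linarith)
  apply excl n q b 9 14 (605 / 100) 500 (2174 / 100) 20 ((605 / 100 + (605 / 100)⁻¹) / 2) (by omega) hq hnq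
    hb hab (by norm_num) (by norm_num) (by omega) (by omega) (by norm_num) (by linarith)
    (by norm_num) (by norm_num) (by norm_num) (by norm_num) rfl sum_abs_nine
  · push_cast; linarith
  · push_cast
    have h7 : q * (Real.log 2 - Real.log 6 / ((n : ℝ) - 1)) ≥
        593 * (Real.log 2 - (13 / 5 * Real.log 2) / 19) := by
      apply mul_le_mul hq1 (by linarith) _ (by linarith)
      linarith
    linarith
  · have hA : Real.log (q * (((14:ℝ) - 1 / 2) / (2174 / 100)) * ((605 / 100 + (605 / 100)⁻¹) / 2))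
        ≤ (181:ℝ) / 17 * Real.log 2 := by
      have e1 : Real.log (q * (((14:ℝ) - 1 / 2) / (2174 / 100)) *
          ((605 / 100 + (605 / 100)⁻¹) / 2)) ≤ Real.log (830 * (((14:ℝ) - 1 / 2) / (2174 / 100)) *
          ((605 / 100 + (605 / 100)⁻¹) / 2)) := by
        apply Real.log_le_log (by norm_num; linarith)
        apply mul_le_mul_of_nonneg_right _ (by norm_num)
        apply mul_le_mul_of_nonneg_right hq2 (by norm_num)
      refine e1.trans ?_
      exact_mod_cast log_le_of_pow _ 17 181 (by norm_num) (by norm_num) (by norm_num)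
    have hB : Real.log (4 * 500 * (14:ℝ) ^ 2) ≤ (19:ℝ) / 1 * Real.log 2 := by
      exact (log_le_of_pow (4 * 500 * (14:ℝ) ^ 2) 1 19 (by norm_num) (by norm_num)
        (by norm_num)).trans_eq (by norm_num)
    exact_mod_cast case2_num _ _ _ _ hA hB hl1 hl2 hρl

theorem case3_num (A B l r : ℝ) (hA : A ≤ 195 / 17 * l) (hB : B ≤ 18 / 1 * l)
    (hl1 : 0.6931471803 < l) (hl2 : l < 0.6931471808) (hr : 60 / 23 * l ≤ r) :
    A + 3 / 2 + 2 * B / (2243 / 100 * 259) +
      2 * l * ((61 / 10 + (61 / 10)⁻¹) / 2) * 25 * ((15 - 1 / 2) / (2243 / 100)) / 10 +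
      (1 + (10 - 1) / (259 * 15 - 10)) *
        (10 * (15 * (2 * l + 1 / 10000) / (6 * (2243 / 100)))) < 10 * r := by
  norm_num
  linarith

theorem case3 (n q b : ℕ) (hn : 10 ≤ n) (hq : q.Prime) (hnq : n ≤ q) (hb : 2 ≤ b)
    (hab : a n = b ^ q) (h1 : 827 ≤ q) (h2 : q ≤ 1400) : False := by
  have hl1 := Real.log_two_gt_d9
  have hl2 := Real.log_two_lt_d9
  have hρl : (60:ℝ) / 23 * Real.log 2 ≤ Real.log (61 / 10) := by
    exact_mod_cast le_log_of_pow (61 / 10) 23 60 (by norm_num) (by norm_num)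
  have hρu : Real.log (61 / 10) ≤ (47:ℝ) / 18 * Real.log 2 := by
    exact_mod_cast log_le_of_pow (61 / 10) 18 47 (by norm_num) (by norm_num) (by norm_num)
  have hq1 : (827:ℝ) ≤ q := by exact_mod_cast h1
  have hq2 : (q:ℝ) ≤ 1400 := by exact_mod_cast h2
  have hn' : (10:ℝ) ≤ n := by exact_mod_cast hn
  have hf := fact_big' n (by omega)
  have hlq : Real.log q ≤ 11 * Real.log 2 := by
    have : Real.log q ≤ Real.log (2 ^ 11) := Real.log_le_log (by linarith) (by linarith)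
    rwa [Real.log_pow] at this
  have h6 := log_six_div n 9 (by norm_num) (by linarith)
  apply excl n q b 10 15 (61 / 10) 259 (2243 / 100) 25 ((61 / 10 + (61 / 10)⁻¹) / 2) (by omega) hq hnq
    hb hab (by norm_num) (by norm_num) (by omega) (by omega) (by norm_num) (by linarith)
    (by norm_num) (by norm_num) (by norm_num) (by norm_num) rfl sum_abs_ten
  · push_cast; linarith
  · push_cast
    have h7 : q * (Real.log 2 - Real.log 6 / ((n : ℝ) - 1)) ≥
        827 * (Real.log 2 - (13 / 5 * Real.log 2) / 9) := by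
      apply mul_le_mul hq1 (by linarith) _ (by linarith)
      linarith
    linarith
  · have hA : Real.log (q * (((15:ℝ) - 1 / 2) / (2243 / 100)) * ((61 / 10 + (61 / 10)⁻¹) / 2))
        ≤ (195:ℝ) / 17 * Real.log 2 := by
      have e1 : Real.log (q * (((15:ℝ) - 1 / 2) / (2243 / 100)) *
          ((61 / 10 + (61 / 10)⁻¹) / 2)) ≤ Real.log (1400 * (((15:ℝ) - 1 / 2) / (2243 / 100)) *
          ((61 / 10 + (61 / 10)⁻¹) / 2)) := by
        apply Real.log_le_log (by norm_num; linarith)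
        apply mul_le_mul_of_nonneg_right _ (by norm_num)
        apply mul_le_mul_of_nonneg_right hq2 (by norm_num)
      refine e1.trans ?_
      exact_mod_cast log_le_of_pow _ 17 195 (by norm_num) (by norm_num) (by norm_num)
    have hB : Real.log (4 * 259 * (15:ℝ) ^ 2) ≤ (18:ℝ) / 1 * Real.log 2 := by
      exact (log_le_of_pow (4 * 259 * (15:ℝ) ^ 2) 1 18 (by norm_num) (by norm_num)
        (by norm_num)).trans_eq (by norm_num)
    exact_mod_cast case3_num _ _ _ _ hA hB hl1 hl2 hρl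

theorem R65 : ((13 / 2 : ℝ) + (13 / 2)⁻¹) / 2 ≤ 33270 / 10000 := by norm_num

/-- The final numeric inequality in the general case. -/
theorem case4_num (x l r L A B C D : ℝ) (hL : 9 ≤ L) (hLx : x + 217 / 100 ≤ 1113 / 1000 * L)
    (hl1 : 0.6931471803 < l) (hl2 : l < 0.6931471808) (hr : 27 / 10 * l ≤ r)
    (hA : A ≤ x + 59 / 100) (hB : B ≤ 8 / 100) (hC : C ≤ 6237 / 10000 * L)
    (hD : D ≤ 13461 / 100000 * L) :
    A + 3 / 2 + B + C + D < L * r := by
  have h1 : (1.8714:ℝ) * L ≤ L * r := by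
    rw [mul_comm]
    apply mul_le_mul_of_nonneg_left _ (by linarith)
    linarith
  linarith

theorem term3_eq (l R σ L : ℝ) (hL : L ≠ 0) :
    2 * l * R * (L ^ 2 / 4) * σ / L = (l / 2 * (σ * R)) * L := by
  field_simp
  ring

theorem term4_eq (l L : ℝ) (hL : L ≠ 0) :
    L * (2 * L * (2 * l + 1 / 10000) / (6 * (3698 / 1000 * L))) =
      (2 * l + 1 / 10000) * (1000 / 11094) * L := by
  field_simp
  ring

theorem case4 (n q b : ℕ) (hn : 10 ≤ n) (hq : q.Prime) (hnq : n ≤ q) (hb : 2 ≤ b)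
    (hab : a n = b ^ q) (h1 : 1400 ≤ q) : False := by
  have hl1 := Real.log_two_gt_d9
  have hl2 := Real.log_two_lt_d9
  have hρl : (27:ℝ) / 10 * Real.log 2 ≤ Real.log (13 / 2) := by
    exact_mod_cast le_log_of_pow (13 / 2) 10 27 (by norm_num) (by norm_num)
  have hρu : Real.log (13 / 2) ≤ (73:ℝ) / 27 * Real.log 2 := by
    exact_mod_cast log_le_of_pow (13 / 2) 27 73 (by norm_num) (by norm_num) (by norm_num)
  have hq1 : (1400:ℝ) ≤ q := by exact_mod_cast h1
  have hq0 : (0:ℝ) < q := by linarith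
  have hn' : (10:ℝ) ≤ n := by exact_mod_cast hn
  have h7 := exp_le n q b (by omega) hq hnq hb hab
  have h7' : (7:ℝ) * q ≤ ((n - 1)! : ℕ) := by exact_mod_cast h7
  have h6 := log_six_div n 9 (by norm_num) (by linarith)
  -- the logarithm of `q`
  set x := Real.log q with hx
  set s := x - Real.log 1400 with hs
  have hl1400 : Real.log 1400 ≤ (115:ℝ) / 11 * Real.log 2 := by
    exact_mod_cast log_le_of_pow 1400 11 115 (by norm_num) (by norm_num) (by norm_num)
  have hl1400' : (10:ℝ) * Real.log 2 ≤ Real.log 1400 := by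
    have := le_log_of_pow 1400 1 10 (by norm_num) (by norm_num)
    norm_num at this ⊢
    linarith
  have hs0 : 0 ≤ s := by
    rw [hs, sub_nonneg]
    exact Real.log_le_log (by norm_num) hq1
  have hqs : (q:ℝ) = 1400 * Real.exp s := by
    rw [hs, Real.exp_sub, hx, Real.exp_log hq0, Real.exp_log (by norm_num)]
    ring
  have hexp : 1 + s + s ^ 2 / 2 ≤ Real.exp s := Real.quadratic_le_exp_of_nonneg hs0
  have hx7 : 6.9 ≤ x := by linarith
  set L := ⌈(x + 217 / 100) / (1113 / 1000)⌉₊ with hL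
  have hLge : (x + 217 / 100) / (1113 / 1000) ≤ L := Nat.le_ceil _
  have hLlt : (L:ℝ) < (x + 217 / 100) / (1113 / 1000) + 1 := Nat.ceil_lt_add_one (by positivity)
  have hLge' : x + 217 / 100 ≤ 1113 / 1000 * (L:ℝ) := by
    rw [div_le_iff₀ (by norm_num)] at hLge
    linarith
  have hL9 : 9 ≤ L := by
    have : (8:ℝ) < L := by linarith
    exact_mod_cast this
  have hL9' : (9:ℝ) ≤ L := by exact_mod_cast hL9
  have hLle : (L:ℝ) ≤ 9.465 + 0.89848 * s := by
    have e1 : (x + 217 / 100) / (1113 / 1000) + 1 = (x + 217 / 100) * (1000 / 1113) + 1 := by ring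
    rw [e1] at hLlt
    have e2 : x = s + Real.log 1400 := by rw [hs]; ring
    linarith
  have hLsq : (L:ℝ) ^ 2 ≤ (9.465 + 0.89848 * s) ^ 2 := pow_le_pow_left₀ (by linarith) hLle 2
  have hsq : (9.465 + 0.89848 * s) ^ 2 = 89.586225 + 17.0082264 * s + 0.8072663104 * s ^ 2 := by
    ring
  rw [hsq] at hLsq
  have hqlow : 1400 + 1400 * s + 700 * s ^ 2 ≤ (q:ℝ) := by rw [hqs]; linarith
  have hss : 0 ≤ s ^ 2 := sq_nonneg s
  -- main comparison
  have hmain : 4 * (L:ℝ) ^ 2 * (73 / 27 * Real.log 2) + x / 7 ≤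
      q * (Real.log 2 - (13 / 5 * Real.log 2) / 9) := by
    have e1 : 4 * (L:ℝ) ^ 2 * (73 / 27 * Real.log 2) ≤ 7.4963 * (L:ℝ) ^ 2 := by
      have e2 : 4 * (73 / 27 * Real.log 2) ≤ 7.4963 := by linarith
      calc 4 * (L:ℝ) ^ 2 * (73 / 27 * Real.log 2) = (4 * (73 / 27 * Real.log 2)) * (L:ℝ) ^ 2 := by
            ring
        _ ≤ 7.4963 * (L:ℝ) ^ 2 := mul_le_mul_of_nonneg_right e2 (by positivity)
    have e3 : (0.4929:ℝ) * q ≤ q * (Real.log 2 - (13 / 5 * Real.log 2) / 9) := by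
      rw [mul_comm]
      apply mul_le_mul_of_nonneg_left _ hq0.le
      linarith
    have e2 : x = s + Real.log 1400 := by rw [hs]; ring
    linarith
  have hL0 : (0:ℝ) < L := by linarith
  have hL81 : (81:ℝ) ≤ (L:ℝ) ^ 2 := by
    have := pow_le_pow_left₀ (by norm_num) hL9' 2
    linarith
  have hLq : 14 * (L:ℝ) ^ 2 ≤ q := by
    have e1 : 7.49 * (L:ℝ) ^ 2 ≤ 4 * (L:ℝ) ^ 2 * (73 / 27 * Real.log 2) := by
      have e2 : 7.49 ≤ 4 * (73 / 27 * Real.log 2) := by linarith
      calc 7.49 * (L:ℝ) ^ 2 ≤ (4 * (73 / 27 * Real.log 2)) * (L:ℝ) ^ 2 :=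
            mul_le_mul_of_nonneg_right e2 (by positivity)
        _ = _ := by ring
    have e3 : q * (Real.log 2 - (13 / 5 * Real.log 2) / 9) ≤ 0.5 * (q:ℝ) := by
      rw [mul_comm]
      apply mul_le_mul_of_nonneg_right _ hq0.le
      linarith
    linarith
  have hLqN : 14 * L ^ 2 ≤ q := by exact_mod_cast hLq
  have hLL : L ≤ L ^ 2 := Nat.le_self_pow (by norm_num) L
  have hUc : ((2 * L : ℕ) : ℝ) = 2 * L := by push_cast; ring
  have hdiv : (2 * (L:ℝ)) ^ 2 / L = 4 * L := by field_simp; ring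
  apply excl n q b L (2 * L) (13 / 2) 7 (3698 / 1000 * L) ((L:ℝ) ^ 2 / 4)
    ((13 / 2 + (13 / 2)⁻¹) / 2) (by omega) hq hnq hb hab (by omega) (by omega) (by omega)
    (by have : L * (2 * L) = 2 * L ^ 2 := by ring
        omega) (by norm_num) h7' (by rw [hUc]; linarith) (by positivity)
    (by rw [hUc, hdiv]; linarith) (by norm_num) rfl (sum_abs_centered_le L)
  · rw [hUc]
    have e1 : (81:ℝ) * 1 ≤ (L:ℝ) ^ 2 * Real.log (13 / 2) :=
      mul_le_mul hL81 (by linarith) (by norm_num) (by positivity)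
    have e2 : (2 * (L:ℝ)) ^ 2 * Real.log (13 / 2) = 4 * ((L:ℝ) ^ 2 * Real.log (13 / 2)) := by ring
    linarith
  · rw [hUc]
    have e1 : (2 * (L:ℝ)) ^ 2 * Real.log (13 / 2) ≤ 4 * (L:ℝ) ^ 2 * (73 / 27 * Real.log 2) := by
      have : (2 * (L:ℝ)) ^ 2 * Real.log (13 / 2) = 4 * (L:ℝ) ^ 2 * Real.log (13 / 2) := by ring
      rw [this]
      exact mul_le_mul_of_nonneg_left hρu (by positivity)
    have e2 : q * (Real.log 2 - (13 / 5 * Real.log 2) / 9) ≤
        q * (Real.log 2 - Real.log 6 / ((n : ℝ) - 1)) := by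
      apply mul_le_mul_of_nonneg_left _ hq0.le
      linarith
    linarith
  · rw [hUc]
    set R : ℝ := (13 / 2 + (13 / 2)⁻¹) / 2 with hR
    have hR1 : R ≤ 33270 / 10000 := R65
    have hR0 : 0 < R := by rw [hR]; norm_num
    set σ : ℝ := (2 * (L:ℝ) - 1 / 2) / (3698 / 1000 * L) with hσ
    have hσ0 : 0 < σ := by rw [hσ]; apply _root_.div_pos <;> linarith
    have hσ1 : σ ≤ 54084 / 100000 := by
      rw [hσ, div_le_iff₀ (by linarith)]
      linarith
    have hσR : σ * R ≤ 18 / 10 := by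
      calc σ * R ≤ (54084 / 100000) * (33270 / 10000) := mul_le_mul hσ1 hR1 hR0.le (by norm_num)
        _ ≤ 18 / 10 := by norm_num
    apply case4_num x (Real.log 2) (Real.log (13 / 2)) L _ _ _ _ hL9' hLge' hl1 hl2 hρl
    · rw [mul_assoc, Real.log_mul hq0.ne' (by positivity)]
      have e1 : Real.log (σ * R) ≤ Real.log (18 / 10) := Real.log_le_log (by positivity) hσR
      have e2 : Real.log (18 / 10) ≤ (17:ℝ) / 20 * Real.log 2 := by
        exact_mod_cast log_le_of_pow (18 / 10) 20 17 (by norm_num) (by norm_num) (by norm_num)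
      linarith
    · have e1 : Real.log (4 * 7 * (2 * (L:ℝ)) ^ 2) = Real.log 112 + 2 * Real.log L := by
        have : 4 * 7 * (2 * (L:ℝ)) ^ 2 = 112 * (L:ℝ) ^ 2 := by ring
        rw [this, Real.log_mul (by norm_num) (by positivity), Real.log_pow]
        push_cast
        ring
      have e2 : Real.log 112 ≤ 7 * Real.log 2 := by
        have := log_le_of_pow 112 1 7 (by norm_num) (by norm_num) (by norm_num)
        norm_num at this ⊢
        linarith
      have e3 : Real.log L ≤ L / 9 - 1 + Real.log 9 := by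
        have h9 : Real.log (L / 9) ≤ L / 9 - 1 := Real.log_le_sub_one_of_pos (by positivity)
        rw [Real.log_div (by positivity) (by norm_num)] at h9
        linarith
      have e4 : Real.log 9 ≤ (16:ℝ) / 5 * Real.log 2 := by
        exact_mod_cast log_le_of_pow 9 5 16 (by norm_num) (by norm_num) (by norm_num)
      rw [e1, div_le_iff₀ (by positivity)]
      linarith
    · have e1 : 2 * Real.log 2 * R * ((L:ℝ) ^ 2 / 4) * σ / L =
          (Real.log 2 / 2 * (σ * R)) * L := term3_eq _ _ _ _ hL0.ne'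
      rw [e1]
      apply mul_le_mul_of_nonneg_right _ hL0.le
      calc Real.log 2 / 2 * (σ * R) ≤ (6931471808 / 10000000000 / 2) *
            ((54084 / 100000) * (33270 / 10000)) := by
            apply mul_le_mul (by linarith) _ (by positivity) (by norm_num)
            exact mul_le_mul hσ1 hR1 hR0.le (by norm_num)
        _ ≤ 6237 / 10000 := by norm_num
    · have e1 : ((L:ℝ) - 1) / (7 * (2 * L) - L) ≤ 1 / 13 := by
        rw [div_le_iff₀ (by linarith)]
        linarith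
      have e2 : (L:ℝ) * (2 * L * (2 * Real.log 2 + 1 / 10000) / (6 * (3698 / 1000 * L))) =
          (2 * Real.log 2 + 1 / 10000) * (1000 / 11094) * L := term4_eq _ _ hL0.ne'
      rw [e2, ← mul_assoc]
      apply mul_le_mul_of_nonneg_right _ hL0.le
      have e3 : (2 * Real.log 2 + 1 / 10000) * (1000 / 11094) ≤ 12498 / 100000 := by linarith
      calc (1 + ((L:ℝ) - 1) / (7 * (2 * L) - L)) * ((2 * Real.log 2 + 1 / 10000) * (1000 / 11094))
          ≤ (1 + 1 / 13) * (12498 / 100000) := by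
            apply mul_le_mul (by linarith) e3 (by positivity) (by norm_num)
        _ ≤ 13461 / 100000 := by norm_num

end Pool.Agent.MP_ffd2af_nt
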