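import Pool.Agent.MP_ffd2af_nt.Check

set_option autoImplicit false

namespace Pool.Agent.MP_ffd2af_nt

open Nat

/-- The table `(q, P, (P - 1) / q)`. -/
def finBigTab : List (ℕ × ℕ × ℕ) :=
  [(503, 3019, 6), (499, 10979, 22), (491, 983, 2), (487, 4871, 10), (479, 25867, 54),
   (467, 2803, 6), (463, 11113, 24), (461, 9221, 20), (457, 41131, 90), (449, 6287, 14),
   (443, 6203, 14), (439, 13171, 30), (433, 5197, 12), (431, 3449, 8), (421, 4211, 10),
   (419, 28493, 68), (409, 13907, 34), (401, 3209, 8), (397, 11117, 28), (389, 9337, 24),
   (383, 4597, 12), (379, 4549, 12), (373, 2239, 6), (367, 2203, 6), (359, 15797, 44),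
   (353, 14827, 42), (349, 8377, 24), (347, 2777, 8), (337, 5393, 16), (331, 5297, 16),
   (317, 8243, 26), (313, 1879, 6), (311, 3733, 12), (307, 8597, 28), (293, 1759, 6),
   (283, 1699, 6), (281, 3373, 12), (277, 1663, 6), (271, 4337, 16), (269, 3767, 14),
   (263, 1579, 6), (257, 1543, 6), (251, 4519, 18), (241, 1447, 6), (239, 479, 2),
   (233, 10253, 44), (229, 2749, 12), (227, 8627, 38), (223, 2677, 12), (211, 4643, 22),
   (199, 3583, 18), (197, 3547, 18), (193, 1931, 10), (191, 3821, 20), (181, 1811, 10),
   (179, 359, 2), (173, 3461, 20), (167, 7349, 44), (163, 7499, 46), (157, 3769, 24),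
   (151, 907, 6), (149, 1193, 8), (139, 557, 4), (137, 823, 6), (131, 2621, 20), (127, 2287, 18),
   (113, 4973, 44), (109, 1091, 10), (107, 857, 8), (103, 619, 6), (101, 607, 6), (97, 389, 4),
   (89, 1069, 12), (83, 167, 2), (79, 2371, 30), (73, 293, 4), (71, 1847, 26), (67, 269, 4),
   (61, 367, 6), (59, 709, 12), (53, 107, 2)]

/-- The product of the primes `P`. -/
def finBigM : ℕ := 1900738634660827312784566846124983765069863151368878752366603934298584451354315767672614328746008619557531382728364503212999444978635766417294035883683615175396416895651527907846961955872064076118447623623269045405149313784779357172349873543495234233719002548207999432637769854987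

/-- The factorial of `203`. -/
def finBigF : ℕ := 6500280606341280477122309396051139313559343526109085593767506675961858924645062813437789491509283739050752842954676280684582524951594605003164041999745964575202970242974229037913976886655531244835802635711007234722402293587496856409453129975917160070730795309715812354288726961516744070008659562928575018689818209973230005165301432320000000000000000000000000000000000000000000000000

theorem finBigF_eq : finBigF = 203 ! := by decide +kernel

theorem finBigTab_ok : tabOk finBigM finBigF 203 finBigTab = true := by decide +kernel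

theorem finBig_cov : covOk [2, 3, 5, 7, 11, 13, 17, 19] finBigTab 50 454 = true := by decide +kernel

theorem finBig_one : 1 % finBigM = 1 := by decide +kernel

theorem finBig_run : run finBigM 50 finBigTab 251 1 1 [1] = true := by
  decide +kernel

theorem finBig_main (n q b : ℕ) (h0 : 50 ≤ n) (h1 : n ≤ 503) (hq : q.Prime) (hnq : n ≤ q)
    (h2 : q ≤ 503) : a n ≠ b ^ q :=
  check_sound _ _ 203 50 251 50 454 _ _ finBigF_eq finBigTab_ok finBig_cov
    finBig_one finBig_run n q b h0 (by omega) (by omega) hq hnq (by omega) (by omega)

end Pool.Agent.MP_ffd2af_nt
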