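import Pool.Agent.MP_ffd2af_nt.Check

set_option autoImplicit false

namespace Pool.Agent.MP_ffd2af_nt

open Nat

/-- The table `(q, P, (P - 1) / q)`. -/
def finMidTab : List (ℕ × ℕ × ℕ) :=
  [(587, 8219, 14), (577, 2309, 4), (571, 5711, 10), (569, 6829, 12), (563, 7883, 14),
   (557, 3343, 6), (547, 5471, 10), (541, 9739, 18), (523, 6277, 12), (521, 16673, 32),
   (509, 1019, 2), (503, 3019, 6), (499, 1997, 4), (491, 983, 2), (487, 1949, 4), (479, 3833, 8),
   (467, 2803, 6), (463, 5557, 12), (461, 2767, 6), (457, 13711, 30), (449, 3593, 8),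
   (443, 887, 2), (439, 4391, 10), (433, 1733, 4), (431, 863, 2), (421, 4211, 10), (419, 839, 2),
   (409, 1637, 4), (401, 3209, 8), (397, 2383, 6), (389, 9337, 24), (383, 4597, 12),
   (379, 4549, 12), (373, 1493, 4), (367, 2203, 6), (359, 719, 2), (353, 4943, 14),
   (349, 3491, 10), (347, 2083, 6), (337, 3371, 10), (331, 1987, 6), (317, 8243, 26),
   (313, 1879, 6), (311, 1867, 6), (307, 1229, 4), (293, 587, 2), (283, 1699, 6), (281, 563, 2),
   (277, 1663, 6), (271, 1627, 6), (269, 2153, 8), (263, 1579, 6), (257, 1543, 6), (251, 503, 2),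
   (241, 1447, 6), (239, 479, 2), (233, 467, 2), (229, 2749, 12), (227, 5449, 24),
   (223, 6691, 30), (211, 2111, 10), (199, 797, 4), (197, 3547, 18), (193, 773, 4),
   (191, 2293, 12), (181, 1087, 6), (179, 1433, 8), (173, 2423, 14), (167, 2339, 14),
   (163, 653, 4), (157, 1571, 10), (151, 907, 6), (149, 1193, 8), (139, 557, 4), (137, 823, 6),
   (131, 263, 2), (127, 509, 4), (113, 227, 2), (109, 1091, 10), (107, 643, 6), (103, 619, 6),
   (101, 607, 6), (97, 389, 4), (89, 179, 2), (83, 167, 2), (79, 2213, 28), (73, 293, 4),
   (71, 569, 8), (67, 269, 4), (61, 367, 6), (59, 709, 12), (53, 107, 2), (47, 941, 20),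
   (43, 431, 10), (41, 821, 20), (37, 223, 6), (31, 311, 10), (29, 233, 8), (23, 47, 2)]

/-- The product of the primes `P`. -/
def finMidM : ℕ := 4264671702915359119956560312437591005053512641709527473192064421553737964435924206711324746333883818024010637921259904899215947581134863578052209337331248174220984079744390364348768371049708693072744396470738722523540624271183190259163058686818019424844362153336052958001376260574630795789272211316720778939325221

/-- The factorial of `130`. -/
def finMidF : ℕ := 6466855489220473672507304395536485253155359447828049608975952322944781961185526165512707047229268452925683969240398027149120740074042105844737747799459310029635780991774612983803150965145600000000000000000000000000000000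

theorem finMidF_eq : finMidF = 130 ! := by decide +kernel

theorem finMidTab_ok : tabOk finMidM finMidF 130 finMidTab = true := by decide +kernel

theorem finMid_cov : covOk [2, 3, 5, 7, 11, 13, 17, 19, 23] finMidTab 20 573 = true := by decide +kernel

theorem finMid_one : 1 % finMidM = 1 := by decide +kernel

theorem finMid_run : run finMidM 20 finMidTab 24 1 1 [1] = true := by
  decide +kernel

theorem finMid_main (n q b : ℕ) (h0 : 20 ≤ n) (h1 : n ≤ 49) (hq : q.Prime) (hnq : n ≤ q)
    (h2 : q ≤ 592) : a n ≠ b ^ q :=
  check_sound _ _ 130 20 24 20 573 _ _ finMidF_eq finMidTab_ok finMid_cov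
    finMid_one finMid_run n q b h0 (by omega) (by omega) hq hnq (by omega) (by omega)

end Pool.Agent.MP_ffd2af_nt
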