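import Pool.Agent.MP_ffd2af_nt.Check

set_option autoImplicit false

namespace Pool.Agent.MP_ffd2af_nt

open Nat

/-- Table for `n = 5`. -/
def tabFive : List (ℕ × ℕ × ℕ) :=
  [(2, 41, 20), (3, 37, 12), (5, 61, 12), (7, 29, 4), (11, 67, 6), (13, 53, 4), (17, 103, 6),
   (19, 191, 10), (23, 47, 2)]

/-- Table for `n = 6`. -/
def tabSix : List (ℕ × ℕ × ℕ) :=
  [(2, 29, 14), (3, 43, 14), (5, 41, 8), (7, 43, 6), (11, 89, 8), (13, 53, 4), (17, 103, 6),
   (19, 191, 10), (23, 47, 2), (29, 59, 2), (31, 311, 10), (37, 149, 4), (41, 83, 2),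
   (43, 173, 4), (47, 283, 6), (53, 107, 2), (59, 709, 12), (61, 367, 6), (67, 269, 4),
   (71, 569, 8), (73, 293, 4), (79, 317, 4), (83, 167, 2), (89, 179, 2), (97, 389, 4),
   (101, 607, 6), (103, 619, 6), (107, 643, 6), (109, 1091, 10), (113, 227, 2)]

theorem tabFive_ok : tabOk 0 (35 !) 35 tabFive = true := by decide +kernel

theorem tabSix_ok : tabOk 0 (35 !) 35 tabSix = true := by decide +kernel

theorem tabFive_cov : covOk [2, 3, 5, 7, 11] tabFive 2 23 = true := by decide +kernel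

theorem tabSix_cov : covOk [2, 3, 5, 7, 11] tabSix 2 119 = true := by decide +kernel

theorem a_five : a 5 = 16824569 := by decide +kernel

theorem a_six : a 6 = 1329227995784915877642188398793079569 := by
  rw [a_eq_range]
  decide +kernel

theorem chkFive : chk 0 16824569 tabFive = true := by decide +kernel

theorem chkSix : chk 0 1329227995784915877642188398793079569 tabSix = true := by decide +kernel

theorem five_main (q b : ℕ) (hq : q.Prime) (hb : 2 ≤ b) : a 5 ≠ b ^ q := by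
  intro h
  have h1 : 2 ^ q ≤ b ^ q := Nat.pow_le_pow_left hb q
  have h2 : 2 ^ q < 2 ^ 25 := by
    rw [← h, a_five] at h1
    exact lt_of_le_of_lt h1 (by norm_num)
  have h3 : q < 25 := (Nat.pow_lt_pow_iff_right (by norm_num)).1 h2
  obtain ⟨t, ht, rfl⟩ := covOk_sound _ _ _ _ tabFive_cov q hq hq.two_le (by omega)
  exact chk_sound 0 16824569 (a 5) tabFive (fun t ht => (tabOk_sound 0 _ 35 rfl _ tabFive_ok t ht).1)
    (fun t _ => by rw [a_five]) chkFive t ht (Nat.zero_le _) b h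

theorem six_main (q b : ℕ) (hq : q.Prime) (hb : 2 ≤ b) : a 6 ≠ b ^ q := by
  intro h
  have h1 : 2 ^ q ≤ b ^ q := Nat.pow_le_pow_left hb q
  have h2 : 2 ^ q < 2 ^ 121 := by
    rw [← h, a_six] at h1
    exact lt_of_le_of_lt h1 (by norm_num)
  have h3 : q < 121 := (Nat.pow_lt_pow_iff_right (by norm_num)).1 h2
  obtain ⟨t, ht, rfl⟩ := covOk_sound _ _ _ _ tabSix_cov q hq hq.two_le (by omega)
  exact chk_sound 0 _ (a 6) tabSix (fun t ht => (tabOk_sound 0 _ 35 rfl _ tabSix_ok t ht).1)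
    (fun t _ => by rw [a_six]) chkSix t ht (Nat.zero_le _) b h

end Pool.Agent.MP_ffd2af_nt
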