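import Pool.Agent.MP_ffd2af_nt.Check

set_option autoImplicit false

namespace Pool.Agent.MP_ffd2af_nt

open Nat

/-- The table `(q, P, (P - 1) / q)`. -/
def finSmallTab : List (ℕ × ℕ × ℕ) :=
  [(823, 8231, 10), (821, 6569, 8), (811, 8111, 10), (809, 1619, 2), (797, 4783, 6),
   (787, 4723, 6), (773, 4639, 6), (769, 7691, 10), (761, 1523, 2), (757, 12113, 16),
   (751, 4507, 6), (743, 1487, 2), (739, 2957, 4), (733, 7331, 10), (727, 2909, 4),
   (719, 1439, 2), (709, 2837, 4), (701, 12619, 18), (691, 6911, 10), (683, 1367, 2),
   (677, 5417, 8), (673, 2693, 4), (661, 3967, 6), (659, 1319, 2), (653, 1307, 2),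
   (647, 9059, 14), (643, 7717, 12), (641, 1283, 2), (631, 6311, 10), (619, 2477, 4),
   (617, 4937, 8), (613, 6131, 10), (607, 3643, 6), (601, 3607, 6), (599, 4793, 8),
   (593, 1187, 2), (587, 8219, 14), (577, 2309, 4), (571, 5711, 10), (569, 10243, 18),
   (563, 7883, 14), (557, 3343, 6), (547, 5471, 10), (541, 9739, 18), (523, 5231, 10),
   (521, 16673, 32), (509, 1019, 2), (503, 3019, 6), (499, 1997, 4), (491, 983, 2),
   (487, 1949, 4), (479, 3833, 8), (467, 2803, 6), (463, 5557, 12), (461, 2767, 6),
   (457, 13711, 30), (449, 3593, 8), (443, 887, 2), (439, 4391, 10), (433, 1733, 4),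
   (431, 863, 2), (421, 4211, 10), (419, 5867, 14), (409, 1637, 4), (401, 3209, 8),
   (397, 2383, 6), (389, 9337, 24), (383, 4597, 12), (379, 4549, 12), (373, 1493, 4),
   (367, 2203, 6), (359, 719, 2), (353, 4943, 14), (349, 3491, 10), (347, 2083, 6),
   (337, 3371, 10), (331, 1987, 6), (317, 8243, 26), (313, 1879, 6), (311, 1867, 6),
   (307, 1229, 4), (293, 587, 2), (283, 1699, 6), (281, 563, 2), (277, 1109, 4), (271, 1627, 6),
   (269, 2153, 8), (263, 1579, 6), (257, 1543, 6), (251, 503, 2), (241, 1447, 6), (239, 479, 2),
   (233, 467, 2), (229, 2749, 12), (227, 5449, 24), (223, 2677, 12), (211, 2111, 10),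
   (199, 797, 4), (197, 3547, 18), (193, 773, 4), (191, 383, 2), (181, 1087, 6), (179, 359, 2),
   (173, 347, 2), (167, 2339, 14), (163, 2609, 16), (157, 3769, 24), (151, 907, 6),
   (149, 1193, 8), (139, 557, 4), (137, 823, 6), (131, 263, 2), (127, 509, 4), (113, 1583, 14),
   (109, 1091, 10), (107, 643, 6), (103, 619, 6), (101, 607, 6), (97, 389, 4), (89, 179, 2),
   (83, 167, 2), (79, 317, 4), (73, 293, 4), (71, 569, 8), (67, 269, 4), (61, 367, 6),
   (59, 709, 12), (53, 107, 2), (47, 283, 6), (43, 431, 10), (41, 739, 18), (37, 149, 4),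
   (31, 311, 10), (29, 59, 2), (23, 47, 2), (19, 191, 10), (17, 137, 8), (13, 53, 4), (11, 67, 6)]

/-- The product of the primes `P`. -/
def finSmallM : ℕ := 1669393839230726033293844540616379742934614797321779607876087385524113431014478853998111132467160973798403111495204592723120836163700813932547404479501780441151206177902451835033047110730941688633808143309879375492021129118579567049095621031990411592293686555175383814979968669358604640851188920367247138643532241340997498491167070339261706699513155503853744435456334969069038124404157488826458101764777680907474249189671487150800190183863782910049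

/-- The factorial of `130`. -/
def finSmallF : ℕ := 6466855489220473672507304395536485253155359447828049608975952322944781961185526165512707047229268452925683969240398027149120740074042105844737747799459310029635780991774612983803150965145600000000000000000000000000000000

theorem finSmallF_eq : finSmallF = 130 ! := by decide +kernel

theorem finSmallTab_ok : tabOk finSmallM finSmallF 130 finSmallTab = true := by decide +kernel

theorem finSmall_cov : covOk [2, 3, 5, 7, 11, 13, 17, 19, 23] finSmallTab 10 817 = true := by decide +kernel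

theorem finSmall_one : 1 % finSmallM = 1 := by decide +kernel

theorem finSmall_run : run finSmallM 10 finSmallTab 9 1 1 [1] = true := by
  decide +kernel

theorem finSmall_main (n q b : ℕ) (h0 : 10 ≤ n) (h1 : n ≤ 19) (hq : q.Prime) (hnq : n ≤ q)
    (h2 : q ≤ 826) : a n ≠ b ^ q :=
  check_sound _ _ 130 10 9 10 817 _ _ finSmallF_eq finSmallTab_ok finSmall_cov
    finSmall_one finSmall_run n q b h0 (by omega) (by omega) hq hnq (by omega) (by omega)

end Pool.Agent.MP_ffd2af_nt
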