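import Pool.Agent.MP_ffd2af_nt.Excl
import Pool.Agent.MP_ffd2af_nt.FinBig
import Pool.Agent.MP_ffd2af_nt.FinMid
import Pool.Agent.MP_ffd2af_nt.FinSmall
import Pool.Agent.MP_ffd2af_nt.FinNine
import Pool.Agent.MP_ffd2af_nt.FinSix

set_option autoImplicit false

namespace Pool.Agent.MP_ffd2af_nt

open Nat

/-- Prime exponents. -/
theorem no_prime_power (n q b : ℕ) (hn : 4 < n) (hq : q.Prime) (hb : 2 ≤ b) : a n ≠ b ^ q := by
  intro hab
  rcases Nat.lt_or_ge n 7 with h7 | h7
  · rcases (show n = 5 ∨ n = 6 by omega) with rfl | rfl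
    · exact five_main q b hq hb hab
    · exact six_main q b hq hb hab
  rcases Nat.lt_or_ge q n with hqn | hnq
  · exact small_exp n q b h7 hq.two_le (by omega) hab
  rcases Nat.lt_or_ge n 10 with h10 | h10
  · have hq5 : q ≤ 5760 := by
      rcases (show n = 7 ∨ n = 8 ∨ n = 9 by omega) with rfl | rfl | rfl
      · have h1 : 2 ^ q ≤ b ^ q := Nat.pow_le_pow_left hb q
        have h2 := a_lt 7 (by norm_num)
        rw [hab] at h2
        have h3 := (Nat.pow_lt_pow_iff_right (by norm_num)).1 (lt_of_le_of_lt h1 h2)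
        have h4 : (7 - 1)! = 720 := by decide
        omega
      · have h1 := exp_le 8 q b (by norm_num) hq hnq hb hab
        have h4 : (8 - 1)! = 5040 := by decide
        omega
      · have h1 := exp_le 9 q b (by norm_num) hq hnq hb hab
        have h4 : (9 - 1)! = 40320 := by decide
        omega
    exact finNine_main n q b h7 (by omega) hq hnq hq5 hab
  rcases Nat.lt_or_ge q 1400 with h14 | h14
  swap
  · exact case4 n q b h10 hq hnq hb hab h14
  rcases Nat.lt_or_ge q 827 with h8 | h8
  swap
  · exact case3 n q b h10 hq hnq hb hab h8 (by omega)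
  rcases Nat.lt_or_ge n 20 with h20 | h20
  · exact finSmall_main n q b h10 (by omega) hq hnq (by omega) hab
  rcases Nat.lt_or_ge q 593 with h5 | h5
  swap
  · exact case2 n q b h20 hq hnq hb hab h5 (by omega)
  rcases Nat.lt_or_ge n 50 with h50 | h50
  · exact finMid_main n q b h20 (by omega) hq hnq (by omega) hab
  rcases Nat.lt_or_ge q 504 with h504 | h504
  · exact finBig_main n q b h50 (by omega) hq hnq (by omega) hab
  · exact case1 n q b h50 hq hnq hb hab h504 (by omega)

end Pool.Agent.MP_ffd2af_nt
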