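import Pool.Agent.MP_ffd2af_nt.Core

set_option autoImplicit false

namespace Pool.Agent.MP_ffd2af_nt

open Finset

/-- Packaged form of the two-logarithm bound. -/
theorem no_sol (q m b U L : ℕ) (ρ a0 κ0 S1 R δ a : ℝ) (hb : 1 ≤ b) (hq : 0 < q)
    (hcop : Nat.Coprime m q) (hUq : U ≤ q) (hL : 2 ≤ L) (hU : 2 ≤ U) (hLU : L * U ≤ 2 * q)
    (ha : a = (m : ℝ) / q) (ha1 : 1 ≤ a0) (ha0 : a0 ≤ a) (hLa : (L : ℝ) + 1 ≤ a0 * U)
    (hκ : 0 < κ0) (hκ0 : κ0 ≤ (U : ℝ) ^ 2 / L - (U + 1) / a0)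
    (hρ : 1 < ρ) (hR : R = (ρ + ρ⁻¹) / 2)
    (hS1 : ∑ l ∈ range L, |(l : ℝ) - ((L : ℝ) - 1) / 2| ≤ S1)
    (hlow : (2:ℝ) ^ m ≤ (b : ℝ) ^ q) (hδ0 : 0 ≤ δ) (hup : (b : ℝ) ^ q ≤ 2 ^ m * (1 + δ))
    (hδ : δ ≤ Real.exp (-(a * (U : ℝ) ^ 2 * Real.log ρ))) (hδ' : δ ≤ 1 / 10000)
    (hnum : Real.log (q * (((U : ℝ) - 1 / 2) / κ0) * R) + 3 / 2 +
      2 * Real.log (4 * a0 * (U : ℝ) ^ 2) / (κ0 * a0) +
      2 * Real.log 2 * R * S1 * (((U : ℝ) - 1 / 2) / κ0) / L +
      (1 + ((L : ℝ) - 1) / (a0 * U - L)) * (L * (U * (2 * Real.log 2 + 1 / 10000) / (6 * κ0))) <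
      L * Real.log ρ) : False := by
  have hlog2 : 0 < Real.log 2 := Real.log_pos (by norm_num)
  have hlogρ : 0 < Real.log ρ := Real.log_pos hρ
  have hqR : (0:ℝ) < q := by exact_mod_cast hq
  have hbR : (1:ℝ) ≤ b := by exact_mod_cast hb
  have hL2 : (2:ℝ) ≤ L := by exact_mod_cast hL
  have hU2 : (2:ℝ) ≤ U := by exact_mod_cast hU
  have ha0' : 0 < a := by linarith
  have hL4 : (4:ℝ) ≤ (L : ℝ) ^ 2 := by nlinarith
  have hU4 : (4:ℝ) ≤ (U : ℝ) ^ 2 := by nlinarith
  have hmq : (m : ℝ) = a * q := by rw [ha]; field_simp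
  -- the parameters
  set V := m * U / q with hV
  have hV1 : (V : ℝ) ≤ a * U := by
    have h1 : V * q ≤ m * U := Nat.div_mul_le_self _ _
    have h2 : (V : ℝ) * q ≤ m * U := by exact_mod_cast h1
    rw [hmq] at h2
    have h3 : (V : ℝ) * q ≤ (a * U) * q := by linarith
    exact le_of_mul_le_mul_right h3 hqR
  have hV2 : a * U < (V : ℝ) + 1 := by
    have h1 : m * U < (V + 1) * q := by
      have := Nat.lt_div_mul_add (a := m * U) hq
      rw [← hV] at this
      linarith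
    have h2 : (m : ℝ) * U < ((V : ℝ) + 1) * q := by exact_mod_cast h1
    rw [hmq] at h2
    have h3 : (a * U) * q < ((V : ℝ) + 1) * q := by linarith
    exact lt_of_mul_lt_mul_right h3 hqR.le
  have haU : a0 * U ≤ a * U := mul_le_mul_of_nonneg_right ha0 (by linarith)
  have hVL : L ≤ V := by
    have : (L : ℝ) < (V : ℝ) + 1 := by linarith
    have h1 : L < V + 1 := by exact_mod_cast this
    omega
  set W := V - L + 1 with hW
  have hW1 : 1 ≤ W := by omega
  have hVW : V = W + L - 1 := by omega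
  have hWR : (W : ℝ) = V - L + 1 := by rw [hW]; push_cast [Nat.cast_sub hVL]; ring
  set K := (U * W - 1) / L + 1 with hK
  have hK1 : 1 ≤ K := by rw [hK]; exact Nat.le_add_left _ _
  have hUW : 1 ≤ U * W := Nat.mul_pos (by omega) hW1
  have hcount : (K - 1) * L < U * W := by
    have h1 : K - 1 = (U * W - 1) / L := by rw [hK]; exact Nat.add_sub_cancel _ _
    rw [h1]
    have := Nat.div_mul_le_self (U * W - 1) L
    omega
  have hNge : U * W ≤ K * L := by
    have h1 := Nat.lt_div_mul_add (a := U * W - 1) (b := L) (by omega)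
    have h2 : K * L = (U * W - 1) / L * L + L := by rw [hK]; ring
    omega
  have hNle : K * L ≤ U * W + L - 1 := by
    have h1 := Nat.div_mul_le_self (U * W - 1) L
    have h2 : K * L = (U * W - 1) / L * L + L := by rw [hK]; ring
    omega
  have hNleUV : K * L ≤ U * V := by
    have h1 : U * W + L - 1 ≤ U * V := by
      have h2 : U * V = U * W + U * (L - 1) := by
        rw [hVW, ← mul_add]
        congr 1
        omega
      have h3 : L - 1 ≤ U * (L - 1) := Nat.le_mul_of_pos_left _ (by omega)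
      omega
    omega
  have hNR : ((K * L : ℕ) : ℝ) = (K : ℝ) * L := by push_cast; ring
  have hNle' : (K : ℝ) * L ≤ a * (U : ℝ) ^ 2 := by
    have h1 : ((K * L : ℕ) : ℝ) ≤ ((U * V : ℕ) : ℝ) := by exact_mod_cast hNleUV
    push_cast at h1
    have h2 := mul_le_mul_of_nonneg_left hV1 (show (0:ℝ) ≤ U by linarith)
    have h3 : (U : ℝ) * (a * U) = a * (U : ℝ) ^ 2 := by ring
    linarith
  have hNge' : (U : ℝ) * W ≤ (K : ℝ) * L := by exact_mod_cast hNge
  have hNpos : 0 < (K : ℝ) * L := by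
    have : (0:ℝ) < (U * W : ℕ) := by exact_mod_cast hUW
    push_cast at this
    linarith
  -- lower bound for K - 1
  have hKm : κ0 * a ≤ (K : ℝ) - 1 := by
    have h1 : (U : ℝ) * W - L ≤ (K - 1) * L := by
      have h2 : ((K : ℝ) - 1) * L = (K : ℝ) * L - L := by ring
      linarith
    have h2 : (a * U - L) ≤ W := by rw [hWR]; linarith
    have h3 : (U : ℝ) * (a * U - L) ≤ U * W := mul_le_mul_of_nonneg_left h2 (by linarith)
    have h4 : κ0 * a ≤ a * (U : ℝ) ^ 2 / L - (U + 1) * (a / a0) := by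
      have := mul_le_mul_of_nonneg_right hκ0 ha0'.le
      calc κ0 * a ≤ ((U : ℝ) ^ 2 / L - (U + 1) / a0) * a := this
        _ = _ := by ring
    have h5 : 1 ≤ a / a0 := by rw [le_div_iff₀ (by linarith)]; linarith
    have h6 : a * (U : ℝ) ^ 2 / L - (U + 1) * (a / a0) ≤ a * (U : ℝ) ^ 2 / L - (U + 1) := by
      have := mul_le_mul_of_nonneg_left h5 (show (0:ℝ) ≤ (U : ℝ) + 1 by linarith)
      linarith
    have h7 : (a * (U : ℝ) ^ 2 / L - (U + 1)) * L ≤ (K - 1) * L := by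
      have : (a * (U : ℝ) ^ 2 / L - (U + 1)) * L = a * U ^ 2 - (U + 1) * L := by
        field_simp
      rw [this]
      have h9 : (U : ℝ) * (a * U - L) = a * (U : ℝ) ^ 2 - U * L := by ring
      have h10 : ((U : ℝ) + 1) * L = U * L + L := by ring
      linarith
    have h8 := le_of_mul_le_mul_right h7 (by linarith)
    linarith
  have hκa : 0 < κ0 * a := by positivity
  have hKm0 : 0 < (K : ℝ) - 1 := by linarith
  -- r
  set r : ℝ := a * (((U : ℝ) - 1) / 2) + ((V : ℝ) - 1) / 2 with hr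
  have hr0 : 0 < r := by
    rw [hr]
    have h1 : 0 < a * (((U : ℝ) - 1) / 2) := by
      apply mul_pos ha0'; linarith
    have h2 : (1:ℝ) ≤ V := by
      have : 1 ≤ V := by omega
      exact_mod_cast this
    linarith
  have hrle : r ≤ a * (U - 1 / 2) := by
    rw [hr]
    linarith
  have hR0 : 0 < R := by
    rw [hR]
    have : 0 < ρ⁻¹ := inv_pos.2 (by linarith)
    linarith
  -- β
  set β := Real.log b with hβ
  have hqβ : q * β = Real.log ((b : ℝ) ^ q) := by rw [Real.log_pow]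
  have hab : a * Real.log 2 ≤ β := by
    have h1 : Real.log ((2:ℝ) ^ m) ≤ Real.log ((b : ℝ) ^ q) := Real.log_le_log (by positivity) hlow
    rw [← hqβ, Real.log_pow, hmq] at h1
    have h2 : q * (a * Real.log 2) ≤ q * β := by linarith
    exact le_of_mul_le_mul_left h2 hqR
  have hβle : β - a * Real.log 2 ≤ δ / q := by
    have h1 : Real.log ((b : ℝ) ^ q) ≤ Real.log ((2:ℝ) ^ m * (1 + δ)) :=
      Real.log_le_log (by positivity) hup
    rw [← hqβ, Real.log_mul (by positivity) (by linarith), Real.log_pow, hmq] at h1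
    have h2 : Real.log (1 + δ) ≤ δ := by
      have := Real.log_le_sub_one_of_pos (show 0 < 1 + δ by linarith)
      linarith
    rw [le_div_iff₀ hqR]
    have h3 : (β - a * Real.log 2) * q = q * β - a * q * Real.log 2 := by ring
    linarith
  have hβle' : β ≤ a * (Real.log 2 + 1 / 10000) := by
    have h1 : δ / q ≤ δ := div_le_self hδ0 (by exact_mod_cast hq)
    have h2 : a * (Real.log 2 + 1 / 10000) = a * Real.log 2 + a / 10000 := by ring
    linarith
  have hβ0 : 0 ≤ β := Real.log_nonneg hbR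
  -- smallness
  have hsmall : 2 * ((((L : ℝ) - 1) / 2) * ((((U : ℝ) - 1) / 2) * (β - a * Real.log 2))) ≤
      (ρ ^ (K * L))⁻¹ := by
    have h1 : 2 * ((((L : ℝ) - 1) / 2) * ((((U : ℝ) - 1) / 2) * (β - a * Real.log 2))) ≤ δ := by
      have h2 : ((L : ℝ) - 1) * (U - 1) ≤ 2 * q := by
        have h3 : (L : ℝ) * U ≤ 2 * q := by exact_mod_cast hLU
        have h3' : ((L : ℝ) - 1) * (U - 1) = L * U - L - U + 1 := by ring
        linarith
      have h4 : 2 * ((((L : ℝ) - 1) / 2) * ((((U : ℝ) - 1) / 2) * (β - a * Real.log 2))) =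
          ((L : ℝ) - 1) * (U - 1) / 2 * (β - a * Real.log 2) := by ring
      rw [h4]
      have h5 : 0 ≤ ((L : ℝ) - 1) * (U - 1) / 2 := by
        apply div_nonneg _ (by norm_num)
        apply mul_nonneg <;> linarith
      calc ((L : ℝ) - 1) * (U - 1) / 2 * (β - a * Real.log 2)
          ≤ ((L : ℝ) - 1) * (U - 1) / 2 * (δ / q) := mul_le_mul_of_nonneg_left hβle h5
        _ ≤ q * (δ / q) := by
            apply mul_le_mul_of_nonneg_right _ (by positivity)
            linarith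
        _ = δ := by field_simp
    refine h1.trans (hδ.trans ?_)
    have h6 : (ρ ^ (K * L))⁻¹ = Real.exp (-((K * L : ℕ) * Real.log ρ)) := by
      rw [Real.exp_neg, Real.exp_nat_mul, Real.exp_log (by linarith)]
    rw [h6, Real.exp_le_exp, hNR]
    have := mul_le_mul_of_nonneg_right hNle' hlogρ.le
    linarith
  have hcore := core_log K L U W V q m b hb hq hcop hUq (by omega) hW1 hK1 (by omega) hcount hVW
    a r β ρ R S1 ha hr hr0 rfl hρ.le hR hS1 hab hsmall
  -- bounds for the square roots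
  have hV0 : (0:ℝ) ≤ V := Nat.cast_nonneg _
  have hNUV : (K : ℝ) * L ≤ U * V := by exact_mod_cast hNleUV
  have hB1 : Real.sqrt ((K : ℝ) * ((L : ℝ) * (L ^ 2 - 1) / 12) *
            (V * ((U : ℝ) * (U ^ 2 - 1) / 12))) ≤ U * V * (L * U) / 12 := by
    apply Real.sqrt_le_iff.2
    constructor
    · positivity
    · have e1 : (K : ℝ) * ((L : ℝ) * (L ^ 2 - 1) / 12) * (V * ((U : ℝ) * (U ^ 2 - 1) / 12)) =
          ((K : ℝ) * L) * (U * V) * ((L ^ 2 - 1) * (U ^ 2 - 1)) / 144 := by ring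
      have e2 : (U * V * (L * U) / 12 : ℝ) ^ 2 = (U * V) * (U * V) * (L ^ 2 * U ^ 2) / 144 := by
        ring
      rw [e1, e2]
      apply div_le_div_of_nonneg_right _ (by norm_num)
      apply mul_le_mul _ _ _ (by positivity)
      · exact mul_le_mul_of_nonneg_right hNUV (by positivity)
      · have h1 : ((L : ℝ) ^ 2 - 1) * ((U : ℝ) ^ 2 - 1) =
            (L : ℝ) ^ 2 * (U : ℝ) ^ 2 - (L : ℝ) ^ 2 - (U : ℝ) ^ 2 + 1 := by ring
        linarith
      · apply mul_nonneg <;> linarith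
  have hB2 : Real.sqrt ((K : ℝ) * ((L : ℝ) * (L ^ 2 - 1) / 12) *
            (U * ((V : ℝ) * (V ^ 2 - 1) / 12))) ≤ U * V * (L * V) / 12 := by
    apply Real.sqrt_le_iff.2
    constructor
    · positivity
    · have e1 : (K : ℝ) * ((L : ℝ) * (L ^ 2 - 1) / 12) * (U * ((V : ℝ) * (V ^ 2 - 1) / 12)) =
          ((K : ℝ) * L) * (U * V) * ((L ^ 2 - 1) * (V ^ 2 - 1)) / 144 := by ring
      have e2 : (U * V * (L * V) / 12 : ℝ) ^ 2 = (U * V) * (U * V) * (L ^ 2 * V ^ 2) / 144 := by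
        ring
      have hV1' : (1:ℝ) ≤ V := by
        have : 1 ≤ V := by omega
        exact_mod_cast this
      rw [e1, e2]
      apply div_le_div_of_nonneg_right _ (by norm_num)
      have hV4 : (1:ℝ) ≤ (V : ℝ) ^ 2 := one_le_pow₀ hV1'
      apply mul_le_mul _ _ _ (by positivity)
      · exact mul_le_mul_of_nonneg_right hNUV (by positivity)
      · have h1 : ((L : ℝ) ^ 2 - 1) * ((V : ℝ) ^ 2 - 1) =
            (L : ℝ) ^ 2 * (V : ℝ) ^ 2 - (L : ℝ) ^ 2 - (V : ℝ) ^ 2 + 1 := by ring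
        linarith
      · apply mul_nonneg <;> linarith
  set T1 := Real.sqrt ((K : ℝ) * ((L : ℝ) * (L ^ 2 - 1) / 12) *
            (V * ((U : ℝ) * (U ^ 2 - 1) / 12))) with hT1
  set T2 := Real.sqrt ((K : ℝ) * ((L : ℝ) * (L ^ 2 - 1) / 12) *
            (U * ((V : ℝ) * (V ^ 2 - 1) / 12))) with hT2
  have hterm4 : β * T1 + Real.log 2 * T2 ≤
      U * V * L / 12 * (a * U * (2 * Real.log 2 + 1 / 10000)) := by
    have h1 : β * T1 ≤ a * (Real.log 2 + 1 / 10000) * (U * V * (L * U) / 12) :=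
      mul_le_mul hβle' hB1 (Real.sqrt_nonneg _) (by positivity)
    have h2 : Real.log 2 * T2 ≤ Real.log 2 * (U * V * (L * V) / 12) :=
      mul_le_mul_of_nonneg_left hB2 hlog2.le
    have h3 : Real.log 2 * (U * V * (L * V) / 12) ≤ Real.log 2 * (U * V * (L * (a * U)) / 12) := by
      apply mul_le_mul_of_nonneg_left _ hlog2.le
      apply div_le_div_of_nonneg_right _ (by norm_num)
      apply mul_le_mul_of_nonneg_left _ (by positivity)
      exact mul_le_mul_of_nonneg_left hV1 (by linarith)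
    have h4 : a * (Real.log 2 + 1 / 10000) * (U * V * (L * U) / 12) +
        Real.log 2 * (U * V * (L * (a * U)) / 12) =
        U * V * L / 12 * (a * U * (2 * Real.log 2 + 1 / 10000)) := by ring
    linarith
  -- divide by X = N (K-1) / 2
  set X : ℝ := (K : ℝ) * L * (K - 1) / 2 with hX
  have hXpos : 0 < X := by rw [hX]; positivity
  have hKpos : (0:ℝ) < K := by linarith
  set σ : ℝ := ((U : ℝ) - 1 / 2) / κ0 with hσ
  have hσ0 : 0 < σ := by rw [hσ]; apply div_pos _ hκ; linarith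
  have hrσ : r ≤ σ * (K - 1) := by
    calc r ≤ a * (U - 1 / 2) := hrle
      _ = σ * (κ0 * a) := by rw [hσ]; field_simp
      _ ≤ σ * (K - 1) := mul_le_mul_of_nonneg_left hKm hσ0.le
  -- term 0
  have ht0 : X * (L * Real.log ρ) ≤
      ((K * L : ℕ) : ℝ) * (((K * L : ℕ) : ℝ) - 1) / 2 * Real.log ρ := by
    rw [hNR, hX]
    have h1 : (K : ℝ) * L * (K - 1) / 2 * L ≤ (K : ℝ) * L * ((K : ℝ) * L - 1) / 2 := by
      have h2 : ((K : ℝ) - 1) * L ≤ (K : ℝ) * L - 1 := by linarith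
      have h3 := mul_le_mul_of_nonneg_left h2 (show 0 ≤ (K : ℝ) * L / 2 by positivity)
      calc (K : ℝ) * L * (K - 1) / 2 * L = (K : ℝ) * L / 2 * (((K : ℝ) - 1) * L) := by ring
        _ ≤ (K : ℝ) * L / 2 * ((K : ℝ) * L - 1) := h3
        _ = _ := by ring
    calc (K : ℝ) * L * (K - 1) / 2 * (L * Real.log ρ)
        = ((K : ℝ) * L * (K - 1) / 2 * L) * Real.log ρ := by ring
      _ ≤ _ := mul_le_mul_of_nonneg_right h1 hlogρ.le
  -- term 1
  have ht1 : L * ((K : ℝ) * (K - 1) / 2 * (Real.log (q * (r * R) / K) + 3 / 2)) ≤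
      X * (Real.log (q * σ * R) + 3 / 2) := by
    have h1 : Real.log (q * (r * R) / K) ≤ Real.log (q * σ * R) := by
      apply Real.log_le_log (by positivity)
      rw [div_le_iff₀ hKpos]
      have h2 : r ≤ σ * K :=
        hrσ.trans (mul_le_mul_of_nonneg_left (by linarith) hσ0.le)
      calc q * (r * R) ≤ q * (σ * K * R) := by
            apply mul_le_mul_of_nonneg_left _ hqR.le
            exact mul_le_mul_of_nonneg_right h2 hR0.le
        _ = q * σ * R * K := by ring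
    calc L * ((K : ℝ) * (K - 1) / 2 * (Real.log (q * (r * R) / K) + 3 / 2))
        = X * (Real.log (q * (r * R) / K) + 3 / 2) := by rw [hX]; ring
      _ ≤ _ := mul_le_mul_of_nonneg_left (by linarith) hXpos.le
  -- term 2
  have ht2 : ((K * L : ℕ) : ℝ) * Real.log (4 * ((K * L : ℕ) : ℝ)) ≤
      X * (2 * Real.log (4 * a0 * (U : ℝ) ^ 2) / (κ0 * a0)) := by
    rw [hNR]
    have ha00 : 0 < a0 := by linarith
    have hlog1 : 1 ≤ Real.log (4 * a0 * (U : ℝ) ^ 2) := by
      rw [Real.le_log_iff_exp_le (by positivity)]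
      have h5 := Real.exp_one_lt_d9
      have h6 : (4:ℝ) ≤ 4 * a0 * (U : ℝ) ^ 2 := by
        calc (4:ℝ) ≤ (U : ℝ) ^ 2 := hU4
          _ = 1 * (U : ℝ) ^ 2 := (one_mul _).symm
          _ ≤ 4 * a0 * (U : ℝ) ^ 2 := by
              apply mul_le_mul_of_nonneg_right _ (by positivity)
              linarith
      linarith
    have h1 : Real.log (4 * ((K : ℝ) * L)) ≤ Real.log (4 * a0 * (U : ℝ) ^ 2) * (a / a0) := by
      have h2 : Real.log (4 * ((K : ℝ) * L)) ≤ Real.log (4 * a0 * (U : ℝ) ^ 2 * (a / a0)) := by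
        apply Real.log_le_log (by positivity)
        have : 4 * a0 * (U : ℝ) ^ 2 * (a / a0) = 4 * (a * (U : ℝ) ^ 2) := by field_simp
        rw [this]
        linarith
      have h2' : Real.log (4 * a0 * (U : ℝ) ^ 2 * (a / a0)) =
          Real.log (4 * a0 * (U : ℝ) ^ 2) + Real.log (a / a0) :=
        Real.log_mul (by positivity) (by positivity)
      have h3 : Real.log (a / a0) ≤ a / a0 - 1 := Real.log_le_sub_one_of_pos (by positivity)
      have h5 : 1 ≤ a / a0 := by rw [le_div_iff₀ ha00]; linarith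
      have h6 := mul_nonneg (sub_nonneg.2 hlog1) (sub_nonneg.2 h5)
      have h7 : (Real.log (4 * a0 * (U : ℝ) ^ 2) - 1) * (a / a0 - 1) =
        Real.log (4 * a0 * (U : ℝ) ^ 2) * (a / a0) - Real.log (4 * a0 * (U : ℝ) ^ 2) -
          a / a0 + 1 := by ring
      linarith [h2, h2', h3, h6, h7]
    have h2 : 0 ≤ Real.log (4 * a0 * (U : ℝ) ^ 2) := by linarith
    calc (K : ℝ) * L * Real.log (4 * ((K : ℝ) * L))
        ≤ (K : ℝ) * L * (Real.log (4 * a0 * (U : ℝ) ^ 2) * (a / a0)) :=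
          mul_le_mul_of_nonneg_left h1 hNpos.le
      _ = (K : ℝ) * L * (Real.log (4 * a0 * (U : ℝ) ^ 2) / (κ0 * a0)) * (κ0 * a) := by
          field_simp
      _ ≤ (K : ℝ) * L * (Real.log (4 * a0 * (U : ℝ) ^ 2) / (κ0 * a0)) * (K - 1) := by
          apply mul_le_mul_of_nonneg_left hKm
          positivity
      _ = _ := by rw [hX]; ring
  -- term 3
  have hS10 : 0 ≤ S1 := le_trans (sum_nonneg (fun _ _ => abs_nonneg _)) hS1
  have ht3 : Real.log 2 * (r * R) * K * S1 ≤ X * (2 * Real.log 2 * R * S1 * σ / L) := by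
    calc Real.log 2 * (r * R) * K * S1 = r * (Real.log 2 * R * K * S1) := by ring
      _ ≤ (σ * (K - 1)) * (Real.log 2 * R * K * S1) :=
          mul_le_mul_of_nonneg_right hrσ (by positivity)
      _ = _ := by rw [hX]; field_simp
  -- term 4
  have ht4 : U * V * L / 12 * (a * U * (2 * Real.log 2 + 1 / 10000)) ≤
      X * ((1 + ((L : ℝ) - 1) / (a0 * U - L)) *
        (L * (U * (2 * Real.log 2 + 1 / 10000) / (6 * κ0)))) := by
    have hWpos : (0:ℝ) < W := by exact_mod_cast hW1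
    have hd : 0 < a0 * U - L := by linarith
    have h1 : (V : ℝ) ≤ (1 + ((L : ℝ) - 1) / (a0 * U - L)) * W := by
      have h2 : a0 * U - L ≤ W := by rw [hWR]; linarith
      have h3 : (L : ℝ) - 1 ≤ ((L : ℝ) - 1) / (a0 * U - L) * W := by
        rw [div_mul_eq_mul_div, le_div_iff₀ hd]
        apply mul_le_mul_of_nonneg_left h2; linarith
      have h4 : (V : ℝ) = W + (L - 1) := by rw [hWR]; ring
      rw [h4, add_mul, one_mul]
      linarith
    have hc : 0 ≤ 1 + ((L : ℝ) - 1) / (a0 * U - L) := by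
      have : 0 ≤ ((L : ℝ) - 1) / (a0 * U - L) := div_nonneg (by linarith) hd.le
      linarith
    have h5 : (U : ℝ) * V ≤ (1 + ((L : ℝ) - 1) / (a0 * U - L)) * ((K : ℝ) * L) := by
      calc (U : ℝ) * V ≤ U * ((1 + ((L : ℝ) - 1) / (a0 * U - L)) * W) :=
            mul_le_mul_of_nonneg_left h1 (by linarith)
        _ = (1 + ((L : ℝ) - 1) / (a0 * U - L)) * (U * W) := by ring
        _ ≤ _ := mul_le_mul_of_nonneg_left hNge' hc
    calc U * V * L / 12 * (a * U * (2 * Real.log 2 + 1 / 10000))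
        = (U * V) * (κ0 * a) * (L * (U * (2 * Real.log 2 + 1 / 10000) / (12 * κ0))) := by
          field_simp
      _ ≤ ((1 + ((L : ℝ) - 1) / (a0 * U - L)) * ((K : ℝ) * L)) * (K - 1) *
          (L * (U * (2 * Real.log 2 + 1 / 10000) / (12 * κ0))) := by
          apply mul_le_mul_of_nonneg_right _ (by positivity)
          exact mul_le_mul h5 hKm hκa.le (by positivity)
      _ = _ := by rw [hX]; ring
  have hfinal : X * (L * Real.log ρ) ≤ X * (Real.log (q * σ * R) + 3 / 2 +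
      2 * Real.log (4 * a0 * (U : ℝ) ^ 2) / (κ0 * a0) +
      2 * Real.log 2 * R * S1 * σ / L +
      (1 + ((L : ℝ) - 1) / (a0 * U - L)) * (L * (U * (2 * Real.log 2 + 1 / 10000) / (6 * κ0)))) := by
    have e1 : X * (Real.log (q * σ * R) + 3 / 2 +
      2 * Real.log (4 * a0 * (U : ℝ) ^ 2) / (κ0 * a0) +
      2 * Real.log 2 * R * S1 * σ / L +
      (1 + ((L : ℝ) - 1) / (a0 * U - L)) * (L * (U * (2 * Real.log 2 + 1 / 10000) / (6 * κ0)))) =
      X * (Real.log (q * σ * R) + 3 / 2) + X * (2 * Real.log (4 * a0 * (U : ℝ) ^ 2) / (κ0 * a0)) +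
      X * (2 * Real.log 2 * R * S1 * σ / L) +
      X * ((1 + ((L : ℝ) - 1) / (a0 * U - L)) *
        (L * (U * (2 * Real.log 2 + 1 / 10000) / (6 * κ0)))) := by ring
    rw [e1]
    linarith [ht0, ht1, ht2, ht3, ht4, hterm4, hcore]
  have := le_of_mul_le_mul_left hfinal hXpos
  linarith

end Pool.Agent.MP_ffd2af_nt
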