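import Mathlib

set_option autoImplicit false

namespace Pool.Agent.MP_ffd2af_nt

open Finset Matrix Polynomial

theorem exists_selection {ι S : Type*} [Fintype ι] [DecidableEq ι] [Fintype S]
    (A : ι → S → ℝ) (h : ∀ p : ι → ℝ, (∀ s, ∑ i, p i * A i s = 0) → p = 0) :
    ∃ s : ι → S, Matrix.det (fun i j => A i (s j)) ≠ 0 := by
  classical
  let col : S → ι → ℝ := fun s i => A i s
  have hspan : Submodule.span ℝ (Set.range col) = ⊤ := by
    by_contra hne
    obtain ⟨f, hf0, hf⟩ := Submodule.exists_le_ker_of_lt_top _ (lt_top_iff_ne_top.2 hne)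
    apply hf0
    have hp : (fun i => f (Pi.single i 1)) = 0 := by
      apply h
      intro s
      have h1 : f (col s) = 0 := hf (Submodule.subset_span ⟨s, rfl⟩)
      have h2 : col s = ∑ i, A i s • (Pi.single i (1:ℝ) : ι → ℝ) := by
        funext j
        simp [col, Finset.sum_apply, Pi.single_apply]
      rw [h2, map_sum] at h1
      simp only [map_smul, smul_eq_mul] at h1
      rw [← h1]
      exact sum_congr rfl (fun i _ => mul_comm _ _)
    apply LinearMap.pi_ext'
    intro i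
    ext
    have := congrFun hp i
    simpa using this
  obtain ⟨B, hB, hBspan, hBli⟩ := exists_linearIndependent ℝ (Set.range col)
  rw [hspan] at hBspan
  let bas : Module.Basis B ℝ (ι → ℝ) := Module.Basis.mk hBli (by rw [Subtype.range_coe, hBspan])
  have : Fintype B := FiniteDimensional.fintypeBasisIndex bas
  have hcard : Fintype.card B = Fintype.card ι := by
    rw [← Module.finrank_eq_card_basis bas, Module.finrank_fintype_fun_eq_card]
  let e : ι ≃ B := Fintype.equivOfCardEq hcard.symm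
  choose g hg using fun x : B => hB x.2
  refine ⟨fun j => g (e j), ?_⟩
  have hli : LinearIndependent ℝ (fun j : ι => ((e j : B) : ι → ℝ)) :=
    hBli.comp e e.injective
  have hM : (fun i j => A i (g (e j)) : Matrix ι ι ℝ) = (fun j i => ((e j : B) : ι → ℝ) i)ᵀ := by
    funext i j
    simp only [Matrix.transpose_apply]
    rw [← hg (e j)]
  rw [hM, Matrix.det_transpose]
  have := (Matrix.linearIndependent_rows_iff_isUnit (A := (fun j i => ((e j : B) : ι → ℝ) i))).1 hli
  exact (Matrix.isUnit_iff_isUnit_det _).1 this |>.ne_zero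

theorem coeff_prod_of_le {ι : Type*} [DecidableEq ι] (s : Finset ι) (f : ι → ℝ[X]) (n : ι → ℕ)
    (h : ∀ i ∈ s, (f i).natDegree ≤ n i) :
    (∏ i ∈ s, f i).coeff (∑ i ∈ s, n i) = ∏ i ∈ s, (f i).coeff (n i) := by
  induction s using Finset.induction_on with
  | empty => simp
  | insert a s ha ih =>
    rw [prod_insert ha, sum_insert ha, prod_insert ha]
    have h1 : (∏ i ∈ s, f i).natDegree ≤ ∑ i ∈ s, n i :=
      (Polynomial.natDegree_prod_le _ _).trans
        (sum_le_sum (fun i hi => h i (mem_insert_of_mem hi)))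
    rw [Polynomial.coeff_mul_add_eq_of_natDegree_le (h a (mem_insert_self _ _)) h1,
      ih (fun i hi => h i (mem_insert_of_mem hi))]

/-- zero estimate -/
theorem zero_estimate (D L U V2 q m b : ℕ) (hb : 1 ≤ b) (hq : 0 < q)
    (hcop : Nat.Coprime m q) (hU : U ≤ q) (hcount : D * L < U * V2)
    (Q : Fin L → ℝ[X]) (hdeg : ∀ l, (Q l).natDegree ≤ D)
    (h : ∀ u < U, ∀ v < V2 + L - 1,
      ∑ l : Fin L, (Q l).eval ((m * u + q * v : ℕ) : ℝ) * ((b ^ u * 2 ^ v : ℕ) : ℝ) ^ (l : ℕ) = 0) :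
    ∀ l, Q l = 0 := by
  classical
  by_contra hne
  push Not at hne
  set Λ : Finset (Fin L) := univ.filter (fun l => Q l ≠ 0) with hΛ
  have hΛne : Λ.Nonempty := by
    obtain ⟨l, hl⟩ := hne
    exact ⟨l, by simp [hΛ, hl]⟩
  have hmem : ∀ l, l ∈ Λ → Q l ≠ 0 := fun l hl => by
    rw [hΛ] at hl
    exact (mem_filter.1 hl).2
  set L' := Λ.card with hL'
  have hL'pos : 0 < L' := card_pos.2 hΛne
  have hL'le : L' ≤ L := by
    have := card_le_card (subset_univ Λ)
    simpa using this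
  let e : Fin L' ≃ Λ := Λ.equivFin.symm
  have heQ : ∀ l, Q (e l) ≠ 0 := fun l => by
    exact hmem _ (e l).2
  let M : Matrix (Fin L') (Fin L') ℝ[X] := fun j l =>
    Polynomial.taylor ((q * (j : ℕ) : ℕ) : ℝ) (Q (e l)) * C (((2:ℝ) ^ (j : ℕ)) ^ ((e l : Fin L) : ℕ))
  have hMdeg : ∀ j l, (M j l).natDegree ≤ (Q (e l)).natDegree := by
    intro j l
    refine (Polynomial.natDegree_mul_le).trans ?_
    rw [Polynomial.natDegree_taylor, Polynomial.natDegree_C, add_zero]
  have hMcoeff : ∀ j l, (M j l).coeff (Q (e l)).natDegree =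
      (Q (e l)).leadingCoeff * ((2:ℝ) ^ (j : ℕ)) ^ ((e l : Fin L) : ℕ) := by
    intro j l
    simp only [M, Polynomial.coeff_mul_C, Polynomial.coeff_taylor_natDegree]
  -- the determinant is a nonzero polynomial
  have hcoef : M.det.coeff (∑ l, (Q (e l)).natDegree) =
      (∏ l, (Q (e l)).leadingCoeff) *
        Matrix.det (fun j l : Fin L' => ((2:ℝ) ^ (j : ℕ)) ^ ((e l : Fin L) : ℕ)) := by
    rw [Matrix.det_apply, Matrix.det_apply, Polynomial.finsetSum_coeff, mul_sum]
    apply sum_congr rfl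
    intro σ _
    rw [Polynomial.coeff_smul, coeff_prod_of_le _ _ _ (fun i _ => hMdeg (σ i) i)]
    simp only [hMcoeff]
    rw [prod_mul_distrib]
    rw [Units.smul_def, Units.smul_def, zsmul_eq_mul, zsmul_eq_mul]
    ring
  have hvand : Matrix.det (fun j l : Fin L' => ((2:ℝ) ^ (j : ℕ)) ^ ((e l : Fin L) : ℕ)) ≠ 0 := by
    have h1 : (fun j l : Fin L' => ((2:ℝ) ^ (j : ℕ)) ^ ((e l : Fin L) : ℕ)) =
        (Matrix.vandermonde (fun l : Fin L' => (2:ℝ) ^ ((e l : Fin L) : ℕ)))ᵀ := by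
      funext j l
      simp only [Matrix.transpose_apply, Matrix.vandermonde_apply]
      rw [← pow_mul, ← pow_mul, mul_comm]
    rw [h1, Matrix.det_transpose, Matrix.det_vandermonde_ne_zero_iff]
    intro l l' hll
    have h2 : ((e l : Fin L) : ℕ) = ((e l' : Fin L) : ℕ) :=
      (pow_right_injective₀ (by norm_num : (0:ℝ) < 2) (by norm_num)) hll
    have h3 : (e l : Fin L) = (e l' : Fin L) := Fin.ext h2
    exact e.injective (Subtype.ext h3)
  have hDne : M.det ≠ 0 := by
    intro h0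
    rw [h0, Polynomial.coeff_zero] at hcoef
    have : (∏ l, (Q (e l)).leadingCoeff) ≠ 0 := by
      rw [prod_ne_zero_iff]
      intro l _
      exact Polynomial.leadingCoeff_ne_zero.2 (heQ l)
    exact (mul_ne_zero this hvand) hcoef.symm
  have hDdeg : M.det.natDegree ≤ D * L' := by
    rw [Matrix.det_apply]
    apply Polynomial.natDegree_sum_le_of_forall_le
    intro σ _
    refine (Polynomial.natDegree_smul_le _ _).trans ?_
    refine (Polynomial.natDegree_prod_le _ _).trans ?_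
    calc ∑ i, (M (σ i) i).natDegree ≤ ∑ _i : Fin L', D :=
          sum_le_sum (fun i _ => (hMdeg _ _).trans (hdeg _))
      _ = D * L' := by simp [mul_comm]
  -- roots
  apply hDne
  let f : Fin U × Fin V2 → ℝ := fun s => ((m * (s.1 : ℕ) + q * (s.2 : ℕ) : ℕ) : ℝ)
  have hf : Function.Injective f := by
    intro s s' hss
    have h1 : m * (s.1 : ℕ) + q * (s.2 : ℕ) = m * (s'.1 : ℕ) + q * (s'.2 : ℕ) := by
      simp only [f] at hss
      exact_mod_cast hss
    have h2 : (s.1 : ℕ) ≡ (s'.1 : ℕ) [MOD q] := by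
      have h3 : m * (s.1 : ℕ) ≡ m * (s'.1 : ℕ) [MOD q] := by
        have h4 : m * (s.1 : ℕ) + q * (s.2 : ℕ) ≡ m * (s'.1 : ℕ) + q * (s'.2 : ℕ) [MOD q] := by
          rw [h1]
        have h5 : q * (s.2 : ℕ) ≡ 0 [MOD q] := (Nat.modEq_zero_iff_dvd).2 (dvd_mul_right _ _)
        have h6 : q * (s'.2 : ℕ) ≡ 0 [MOD q] := (Nat.modEq_zero_iff_dvd).2 (dvd_mul_right _ _)
        exact Nat.ModEq.add_right_cancel (h5.trans h6.symm) h4
      exact Nat.ModEq.cancel_left_of_coprime (by rw [Nat.gcd_comm]; exact hcop) h3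
    have h7 : (s.1 : ℕ) = (s'.1 : ℕ) :=
      Nat.ModEq.eq_of_lt_of_lt h2 (lt_of_lt_of_le s.1.2 hU) (lt_of_lt_of_le s'.1.2 hU)
    have h8 : (s.2 : ℕ) = (s'.2 : ℕ) := by
      rw [h7] at h1
      exact Nat.eq_of_mul_eq_mul_left hq (by omega)
    exact Prod.ext (Fin.ext h7) (Fin.ext h8)
  apply Polynomial.eq_zero_of_natDegree_lt_card_of_eval_eq_zero M.det hf
  · rintro ⟨u, v⟩
    simp only [f]
    set x : ℝ := ((m * (u : ℕ) + q * (v : ℕ) : ℕ) : ℝ) with hx
    have h1 : M.det.eval x = Matrix.det (fun j l => (M j l).eval x) := by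
      rw [← Polynomial.coe_evalRingHom, RingHom.map_det]
      rfl
    rw [h1, ← Matrix.exists_mulVec_eq_zero_iff]
    refine ⟨fun l => ((b ^ (u:ℕ) * 2 ^ (v:ℕ) : ℕ) : ℝ) ^ ((e l : Fin L) : ℕ), ?_, ?_⟩
    · intro h0
      have := congrFun h0 ⟨0, hL'pos⟩
      simp only [Pi.zero_apply] at this
      have hpos : (0:ℝ) < ((b ^ (u:ℕ) * 2 ^ (v:ℕ) : ℕ) : ℝ) := by
        have : 0 < b ^ (u:ℕ) * 2 ^ (v:ℕ) := by positivity
        exact_mod_cast this
      exact absurd this (pow_ne_zero _ hpos.ne')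
    · funext j
      simp only [Matrix.mulVec, dotProduct, Pi.zero_apply]
      have hj : (v : ℕ) + j < V2 + L - 1 := by
        have := v.2; have := j.2; omega
      have h2 := h u u.2 (v + j) hj
      rw [← h2]
      have h3 : ∑ l : Fin L, (Q l).eval ((m * (u:ℕ) + q * ((v:ℕ) + j) : ℕ) : ℝ) *
            ((b ^ (u:ℕ) * 2 ^ ((v:ℕ) + j) : ℕ) : ℝ) ^ (l : ℕ) =
          ∑ l ∈ Λ, (Q l).eval ((m * (u:ℕ) + q * ((v:ℕ) + j) : ℕ) : ℝ) *
            ((b ^ (u:ℕ) * 2 ^ ((v:ℕ) + j) : ℕ) : ℝ) ^ (l : ℕ) := by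
        symm
        apply sum_subset (subset_univ _)
        intro l _ hl
        have : Q l = 0 := by
          by_contra h0
          exact hl (by simp [hΛ, h0])
        rw [this]; simp
      rw [h3, ← Finset.sum_coe_sort Λ, ← Equiv.sum_comp e]
      apply sum_congr rfl
      intro l _
      simp only [M, Polynomial.eval_mul, Polynomial.eval_C, Polynomial.taylor_eval]
      have e1 : x + ((q * (j:ℕ) : ℕ) : ℝ) = ((m * (u:ℕ) + q * ((v:ℕ) + j) : ℕ) : ℝ) := by
        rw [hx]; push_cast; ring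
      rw [e1]
      push_cast
      rw [pow_add]
      rw [mul_assoc, ← mul_pow]
      congr 2
      ring
  · rw [Fintype.card_prod, Fintype.card_fin, Fintype.card_fin]
    calc M.det.natDegree ≤ D * L' := hDdeg
      _ ≤ D * L := Nat.mul_le_mul_left _ hL'le
      _ < U * V2 := hcount

/-- Selection of points with a non-zero determinant. -/
theorem exists_points (K L U V2 q m b : ℕ) (hb : 1 ≤ b) (hq : 0 < q)
    (hcop : Nat.Coprime m q) (hU : U ≤ q) (hcount : (K - 1) * L < U * V2) :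
    ∃ s : Fin K × Fin L → Fin U × Fin (V2 + L - 1),
      Matrix.det (fun i j : Fin K × Fin L =>
        ((m * ((s j).1 : ℕ) + q * ((s j).2 : ℕ) : ℕ) : ℝ) ^ (i.1 : ℕ) *
        ((b ^ ((s j).1 : ℕ) * 2 ^ ((s j).2 : ℕ) : ℕ) : ℝ) ^ (i.2 : ℕ)) ≠ 0 := by
  classical
  apply exists_selection (fun (i : Fin K × Fin L) (s : Fin U × Fin (V2 + L - 1)) =>
    ((m * (s.1 : ℕ) + q * (s.2 : ℕ) : ℕ) : ℝ) ^ (i.1 : ℕ) *
        ((b ^ (s.1 : ℕ) * 2 ^ (s.2 : ℕ) : ℕ) : ℝ) ^ (i.2 : ℕ))
  intro p hp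
  let Q : Fin L → ℝ[X] := fun l => ∑ k : Fin K, C (p (k, l)) * X ^ (k : ℕ)
  have hQ : ∀ l, Q l = 0 := by
    apply zero_estimate (K - 1) L U V2 q m b hb hq hcop hU hcount
    · intro l
      apply Polynomial.natDegree_sum_le_of_forall_le
      intro k _
      refine (Polynomial.natDegree_C_mul_X_pow_le _ _).trans ?_
      have := k.2
      omega
    · intro u hu v hv
      have := hp (⟨u, hu⟩, ⟨v, hv⟩)
      rw [← this, Fintype.sum_prod_type_right]
      apply sum_congr rfl
      intro l _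
      simp only [Q, Polynomial.eval_finsetSum, Polynomial.eval_mul, Polynomial.eval_C,
        Polynomial.eval_pow, Polynomial.eval_X]
      rw [sum_mul]
      apply sum_congr rfl
      intro k _
      ring
  funext ⟨k, l⟩
  have h1 : (Q l).coeff (k : ℕ) = p (k, l) := by
    simp only [Q, Polynomial.finsetSum_coeff, Polynomial.coeff_C_mul, Polynomial.coeff_X_pow]
    rw [Finset.sum_eq_single k]
    · simp
    · intro k' _ hk'
      have : ¬ ((k : ℕ) = (k' : ℕ)) := fun h => hk' (Fin.ext h.symm)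
      simp [this]
    · intro h; exact absurd (mem_univ _) h
  rw [hQ l, Polynomial.coeff_zero] at h1
  exact h1.symm

end Pool.Agent.MP_ffd2af_nt
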